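import Pool.Agent.Helper66.QJ.Dyn

/-!
# Accessible points and the critical point (MP_a03adf_an)

`dec_iff`: if `0 ∈ J`, the Julia set is decomposable if and only if some proper subcontinuum contains `0` and a point
accessible from the basin of infinity.
-/

set_option autoImplicit false

open Set Topology Metric Bornology Filter

namespace Pool.Agent.Helper66.QJ

variable {c : ℂ}

/-- `z` is the endpoint of a path which is otherwise in the basin of infinity -/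
def Acc (c z : ℂ) : Prop :=
  z ∈ J c ∧ ∃ γ : ℝ → ℂ, ContinuousOn γ (Icc 0 1) ∧ γ 1 = z ∧ ∀ t ∈ Ico (0 : ℝ) 1, γ t ∉ K c

/-- an accessible point can be joined to infinity -/
theorem Acc.exists_far {z : ℂ} (hz : Acc c z) :
    ∃ R : Set ℂ, IsClosed R ∧ IsPreconnected R ∧ ¬ IsBounded R ∧ z ∈ R ∧ R ∩ J c ⊆ {z} := by
  obtain ⟨hzJ, γ, hγ, h1, hout⟩ := hz
  obtain ⟨E, hE, hEc, hEu, h0E, hEK⟩ := QJ.exists_far (c := c) (hout 0 ⟨le_rfl, one_pos⟩)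
  refine ⟨γ '' Icc 0 1 ∪ E, (isCompact_Icc.image_of_continuousOn hγ).isClosed.union hE,
    (isPreconnected_Icc.image _ hγ).union (γ 0) ⟨0, ⟨le_rfl, zero_le_one⟩, rfl⟩ h0E hEc,
    fun h => hEu (h.subset subset_union_right), Or.inl ⟨1, ⟨zero_le_one, le_rfl⟩, h1⟩, ?_⟩
  rintro y ⟨⟨t, ht, rfl⟩ | hyE, hyJ⟩
  · rcases ht.2.lt_or_eq with h | h
    · exact absurd (J_sub_K c hyJ) (hout t ⟨ht.1, h⟩)
    · rw [h, h1]
      rfl
  · exact absurd (J_sub_K c hyJ) (disjoint_left.1 hEK hyE)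

/-- accessible points are dense in `J` -/
theorem exists_acc {x : ℂ} (hx : x ∈ J c) {ε : ℝ} (hε : 0 < ε) : ∃ z, Acc c z ∧ dist z x < ε := by
  have hxK : x ∈ K c := J_sub_K c hx
  have hxB : x ∈ closure (K c)ᶜ := by
    have h1 : x ∈ frontier (K c)ᶜ := by rwa [frontier_compl]
    exact frontier_subset_closure h1
  obtain ⟨a, ha, hxa⟩ := Metric.mem_closure_iff.1 hxB ε hε
  let γ : ℝ → ℂ := fun t => a + t * (x - a)
  have hγ : Continuous γ := by fun_prop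
  have hγ0 : γ 0 = a := by
    show a + ((0 : ℝ) : ℂ) * (x - a) = a
    rw [Complex.ofReal_zero, zero_mul, add_zero]
  have hγ1 : γ 1 = x := by
    show a + ((1 : ℝ) : ℂ) * (x - a) = x
    rw [Complex.ofReal_one, one_mul]
    ring
  -- the first parameter in `K`
  let P : Set ℝ := {t | t ∈ Icc (0 : ℝ) 1 ∧ γ t ∈ K c}
  have hP : IsClosed P := isClosed_Icc.inter ((isClosed_K c).preimage hγ)
  have hPne : P.Nonempty := ⟨1, ⟨zero_le_one, le_rfl⟩, by rwa [hγ1]⟩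
  have hPb : BddBelow P := ⟨0, fun t ht => ht.1.1⟩
  have ht0 : sInf P ∈ P := hP.csInf_mem hPne hPb
  obtain ⟨t0, ht0eq⟩ : ∃ t0, t0 = sInf P := ⟨_, rfl⟩
  rw [← ht0eq] at ht0
  have hlt : ∀ t, 0 ≤ t → t < t0 → γ t ∉ K c := by
    intro t ht htt hK
    have h1 : sInf P ≤ t := csInf_le hPb ⟨⟨ht, htt.le.trans ht0.1.2⟩, hK⟩
    rw [← ht0eq] at h1
    exact absurd htt (not_lt.2 h1)
  have ht0pos : 0 < t0 := by
    rcases ht0.1.1.lt_or_eq with h | h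
    · exact h
    · exfalso
      have h1 := ht0.2
      rw [← h, hγ0] at h1
      exact ha h1
  have hout : ∀ t ∈ Ico (0 : ℝ) 1, γ (t0 * t) ∉ K c := fun t ht =>
    hlt _ (mul_nonneg ht0pos.le ht.1) (by nlinarith [ht.2])
  refine ⟨γ t0, ⟨?_, fun t => γ (t0 * t), (hγ.comp (by fun_prop)).continuousOn, by simp, hout⟩, ?_⟩
  · -- in the frontier
    show γ t0 ∈ frontier (K c)
    rw [frontier_eq_closure_inter_closure, (isClosed_K c).closure_eq]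
    refine ⟨ht0.2, ?_⟩
    have hcont : Tendsto (fun t : ℝ => γ (t0 * t)) (𝓝[<] 1) (𝓝 (γ (t0 * 1))) :=
      (hγ.comp (by fun_prop : Continuous fun t : ℝ => t0 * t)).continuousAt.tendsto.mono_left nhdsWithin_le_nhds
    rw [mul_one] at hcont
    refine mem_closure_of_tendsto hcont ?_
    have h1 : Ioo (0 : ℝ) 1 ∈ 𝓝[<] (1 : ℝ) := Ioo_mem_nhdsLT one_pos
    filter_upwards [h1] with t ht
    exact hout t ⟨ht.1.le, ht.2⟩
  · rw [dist_eq_norm]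
    have h1 : γ t0 - x = ((1 - t0 : ℝ) : ℂ) * (a - x) := by
      show a + (t0 : ℂ) * (x - a) - x = _
      push_cast
      ring
    rw [h1, norm_mul, Complex.norm_real, Real.norm_of_nonneg (by linarith [ht0.1.2])]
    rw [dist_comm, dist_eq_norm] at hxa
    have h2 : (1 - t0) * ‖a - x‖ ≤ 1 * ‖a - x‖ := mul_le_mul_of_nonneg_right (by linarith) (norm_nonneg _)
    linarith

theorem dec_of_acc {C : Set ℂ} (hC : IsCompact C) (hCc : IsPreconnected C) (hCJ : C ⊆ J c) (hne : C ≠ J c)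
    (h0 : (0 : ℂ) ∈ C) {z : ℂ} (hzC : z ∈ C) (hz : Acc c z) : Dec (J c) := by
  have h0K : (0 : ℂ) ∈ K c := J_sub_K c (hCJ h0)
  obtain ⟨R, hR, hRc, hRu, hzR, hRJ⟩ := hz.exists_far
  exact core (isCompact_J c) (isPreconnected_J h0K) (fun z hz => neg_mem_J hz) hC hCc hCJ hne h0 hR hRc hRu
    (hRJ.trans (singleton_subset_iff.2 hzC)) ⟨z, hzR, hzC⟩

theorem acc_of_dec (h0 : (0 : ℂ) ∈ J c) (hD : Dec (J c)) :
    ∃ C : Set ℂ, C ⊆ J c ∧ C ≠ J c ∧ IsCompact C ∧ IsConnected C ∧ (0 : ℂ) ∈ C ∧ ∃ z ∈ C, Acc c z := by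
  have key : ∀ A B : Set ℂ, A ⊆ J c → B ⊆ J c → A ≠ J c → B ≠ J c → IsCompact A → IsConnected A → IsCompact B →
      A ∪ B = J c → (0 : ℂ) ∈ A →
      ∃ C : Set ℂ, C ⊆ J c ∧ C ≠ J c ∧ IsCompact C ∧ IsConnected C ∧ (0 : ℂ) ∈ C ∧ ∃ z ∈ C, Acc c z := by
    intro A B hA hB hAne hBne hAc hAcn hBc hU h0A
    refine ⟨A, hA, hAne, hAc, hAcn, h0A, ?_⟩
    obtain ⟨x, hxJ, hxB⟩ : ∃ x ∈ J c, x ∉ B := by
      by_contra hno
      push Not at hno
      exact hBne (hB.antisymm hno)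
    obtain ⟨ε, hε, hεB⟩ := Metric.isOpen_iff.1 hBc.isClosed.isOpen_compl x hxB
    obtain ⟨z, hz, hzx⟩ := exists_acc hxJ hε
    have hzB : z ∉ B := hεB (mem_ball.2 hzx)
    have hzJ : z ∈ A ∪ B := hU.symm ▸ hz.1
    exact ⟨z, hzJ.resolve_right hzB, hz⟩
  obtain ⟨A, B, hA, hB, hAne, hBne, hAc, hAcn, hBc, hBcn, hU⟩ := hD
  have h0' : (0 : ℂ) ∈ A ∪ B := hU.symm ▸ h0
  rcases h0' with h | h
  · exact key A B hA hB hAne hBne hAc hAcn hBc hU h
  · exact key B A hB hA hBne hAne hBc hBcn hAc (by rw [union_comm, hU]) h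

theorem dec_iff (h0 : (0 : ℂ) ∈ J c) : Dec (J c) ↔
    ∃ C : Set ℂ, C ⊆ J c ∧ C ≠ J c ∧ IsCompact C ∧ IsConnected C ∧ (0 : ℂ) ∈ C ∧ ∃ z ∈ C, Acc c z := by
  refine ⟨acc_of_dec h0, ?_⟩
  rintro ⟨C, hCJ, hne, hC, hCc, h0C, z, hzC, hz⟩
  exact dec_of_acc hC hCc.isPreconnected hCJ hne h0C hzC hz

end Pool.Agent.Helper66.QJ
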