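import Pool.Agent.Helper66.QJ.Dyn
import Pool.Agent.Helper39.Montel

/-!
# Inverse branches and their contraction (MP_a03adf_an)

`exists_chain`: if `T` is closed, connected, unbounded and contains the orbit of `c`, all inverse branches of the iterates exist
on a compact set `Q` disjoint from `T`, and they can be chosen such that consecutive images of `L ⊆ Q` meet.
`contraction`: the diameters of the images of a connected compact `L` in the closure of the basin of infinity tend to `0`.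
`fixed_limit`: the images converge to a fixed point in `J`.
-/

set_option autoImplicit false

open Set Topology Metric Bornology Filter

namespace Pool.Agent.Helper66.QJ

variable {c : ℂ}

theorem isCompact_preimage_iter {Q : Set ℂ} (hQ : IsCompact Q) (n : ℕ) : IsCompact ((f c)^[n] ⁻¹' Q) := by
  obtain ⟨M, hM⟩ := hQ.isBounded.exists_norm_le
  refine (isCompact_closedBall (0 : ℂ) (max (R0 c) M)).of_isClosed_subset
    (hQ.isClosed.preimage ((continuous_f c).iterate n)) fun z hz => ?_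
  rw [mem_closedBall_zero_iff]
  by_contra hcon
  push Not at hcon
  have h1 : R0 c ≤ ‖z‖ := (le_max_left _ _).trans hcon.le
  have h2 := iter_ge h1 n
  have h3 := hM _ hz
  have h4 : ‖z‖ ≤ 2 ^ n * ‖z‖ := le_mul_of_one_le_left (norm_nonneg z) (one_le_pow₀ (by norm_num))
  have h5 := (le_max_right (R0 c) M).trans_lt hcon
  linarith

/-- square roots of `z - c` on the preimages of `Q` -/
theorem exists_sqrt_iter {T Q : Set ℂ} (hT : IsClosed T) (hTc : IsPreconnected T) (hTu : ¬ IsBounded T)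
    (hcT : ∀ k, (f c)^[k] c ∈ T) (hQ : IsCompact Q) (hd : Disjoint Q T) (n : ℕ) :
    ∃ r : ℂ → ℂ, ContinuousOn r ((f c)^[n] ⁻¹' Q) ∧ ∀ z ∈ (f c)^[n] ⁻¹' Q, f c (r z) = z := by
  have hsurj1 : Function.Surjective (f c) := surj_f c
  have hsurj : Function.Surjective ((f c)^[n]) := hsurj1.iterate n
  obtain ⟨r, hr, hr'⟩ := exists_sqrt (T := (f c)^[n] ⁻¹' T) (Q := (f c)^[n] ⁻¹' Q) (a := c)
    (hT.preimage ((continuous_f c).iterate n)) (preimage_iter_conn hTc n fun k _ => hcT k) (fun hb => by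
      apply hTu
      obtain ⟨M, hM⟩ := hb.exists_norm_le
      have h1 : T ⊆ (f c)^[n] '' closedBall 0 M := by
        intro t ht
        obtain ⟨z, hz⟩ := hsurj t
        exact ⟨z, mem_closedBall_zero_iff.2 (hM z (show (f c)^[n] z ∈ T from hz ▸ ht)), hz⟩
      exact (((isCompact_closedBall (0 : ℂ) M).image ((continuous_f c).iterate n)).isBounded).subset h1)
    (hcT n) (isCompact_preimage_iter hQ n) (hd.preimage _)
  refine ⟨r, hr, fun z hz => ?_⟩
  rw [f, hr' z hz]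
  ring

/-- the state of the chain construction -/
private def St (c : ℂ) (L Q : Set ℂ) (k : ℕ) (p : (ℂ → ℂ) × (ℂ → ℂ) × ℂ) : Prop :=
  ContinuousOn p.1 Q ∧ ContinuousOn p.2.1 Q ∧ (∀ x ∈ Q, (f c)^[k + 1] (p.2.1 x) = x) ∧
    (∀ x ∈ Q, f c (p.2.1 x) = p.1 x) ∧ p.2.2 ∈ p.1 '' L ∧ p.2.2 ∈ p.2.1 '' L

private theorem step {T L Q : Set ℂ} (hT : IsClosed T) (hTc : IsPreconnected T) (hTu : ¬ IsBounded T)
    (hcT : ∀ k, (f c)^[k] c ∈ T) (hQ : IsCompact Q) (hd : Disjoint Q T) (hLQ : L ⊆ Q) (k : ℕ)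
    (p : (ℂ → ℂ) × (ℂ → ℂ) × ℂ) (hp : St c L Q k p) :
    ∃ p' : (ℂ → ℂ) × (ℂ → ℂ) × ℂ, St c L Q (k + 1) p' ∧ p'.1 = p.2.1 ∧ f c p'.2.2 = p.2.2 := by
  obtain ⟨g, g', q⟩ := p
  obtain ⟨hg, hg', hi, hfg, ⟨x0, hx0, hx0q⟩, ⟨x1, hx1, hx1q⟩⟩ := hp
  simp only at hg hg' hi hfg hx0q hx1q
  obtain ⟨r, hr, hr'⟩ := exists_sqrt_iter hT hTc hTu hcT hQ hd (k + 1)
  have hmaps : MapsTo g' Q ((f c)^[k + 1] ⁻¹' Q) := fun x hx => by
    show (f c)^[k + 1] (g' x) ∈ Q
    rw [hi x hx]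
    exact hx
  -- the sign
  have hsq : f c (g' x0) = f c (r q) := by
    rw [hfg x0 (hLQ hx0), hx0q, hr' q (by rw [← hx1q]; exact hmaps (hLQ hx1))]
  obtain ⟨s, hs, hs2⟩ : ∃ s : ℂ, s ^ 2 = 1 ∧ g' x0 = s * r q := by
    rcases f_eq_iff.1 hsq with h | h
    · exact ⟨1, by norm_num, by rw [h, one_mul]⟩
    · exact ⟨-1, by norm_num, by rw [h]; ring⟩
  have hfs : ∀ w, f c (s * w) = f c w := by
    intro w
    rw [f, f, mul_pow, hs, one_mul]
  refine ⟨(g', fun x => s * r (g' x), g' x0), ⟨hg', continuousOn_const.mul (hr.comp hg' hmaps), fun x hx => ?_,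
    fun x hx => ?_, ⟨x0, hx0, rfl⟩, ⟨x1, hx1, ?_⟩⟩, rfl, ?_⟩
  · show (f c)^[k + 1 + 1] (s * r (g' x)) = x
    rw [Function.iterate_succ_apply, hfs, hr' _ (hmaps hx), hi x hx]
  · show f c (s * r (g' x)) = g' x
    rw [hfs, hr' _ (hmaps hx)]
  · show s * r (g' x1) = g' x0
    rw [hx1q, hs2]
  · show f c (g' x0) = q
    rw [hfg x0 (hLQ hx0), hx0q]

/-- a chain of inverse branches -/
structure Chain (c : ℂ) (L Q : Set ℂ) (g : ℕ → ℂ → ℂ) (q : ℕ → ℂ) : Prop where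
  zero : ∀ x, g 0 x = x
  cont : ∀ k, ContinuousOn (g k) Q
  inv : ∀ k, ∀ x ∈ Q, f c (g (k + 1) x) = g k x
  mem : ∀ k, q k ∈ g k '' L
  mem' : ∀ k, q k ∈ g (k + 1) '' L
  fq : ∀ k, f c (q (k + 1)) = q k

theorem exists_chain {T L Q : Set ℂ} (hT : IsClosed T) (hTc : IsPreconnected T) (hTu : ¬ IsBounded T)
    (hcT : ∀ k, (f c)^[k] c ∈ T) (hQ : IsCompact Q) (hd : Disjoint Q T) (hLQ : L ⊆ Q) {x0 q0 : ℂ} (hx0 : x0 ∈ L)
    (hq0 : q0 ∈ L) (hfq : f c q0 = x0) : ∃ (g : ℕ → ℂ → ℂ) (q : ℕ → ℂ), Chain c L Q g q ∧ q 0 = q0 := by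
  classical
  -- the first branch
  obtain ⟨p0, hp0, hp01, hp02⟩ : ∃ p : (ℂ → ℂ) × (ℂ → ℂ) × ℂ, St c L Q 0 p ∧ p.1 = id ∧ p.2.2 = q0 := by
    obtain ⟨r, hr, hr'⟩ := exists_sqrt_iter hT hTc hTu hcT hQ hd 0
    simp only [Function.iterate_zero, preimage_id] at hr hr'
    have hsq : f c q0 = f c (r x0) := by rw [hfq, hr' x0 (hLQ hx0)]
    obtain ⟨s, hs, hs2⟩ : ∃ s : ℂ, s ^ 2 = 1 ∧ q0 = s * r x0 := by
      rcases f_eq_iff.1 hsq with h | h
      · exact ⟨1, by norm_num, by rw [h, one_mul]⟩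
      · exact ⟨-1, by norm_num, by rw [h]; ring⟩
    have hfs : ∀ w, f c (s * w) = f c w := by
      intro w
      rw [f, f, mul_pow, hs, one_mul]
    refine ⟨(id, fun x => s * r x, q0), ⟨continuousOn_id, continuousOn_const.mul hr, fun x hx => ?_, fun x hx => ?_,
      ⟨q0, hq0, rfl⟩, ⟨x0, hx0, hs2.symm⟩⟩, rfl, rfl⟩
    · show f c (s * r x) = x
      rw [hfs, hr' x hx]
    · show f c (s * r x) = x
      rw [hfs, hr' x hx]
  let F : (k : ℕ) → {p : (ℂ → ℂ) × (ℂ → ℂ) × ℂ // St c L Q k p} := fun k =>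
    Nat.rec (motive := fun k => {p : (ℂ → ℂ) × (ℂ → ℂ) × ℂ // St c L Q k p}) ⟨p0, hp0⟩
      (fun k s => ⟨(step hT hTc hTu hcT hQ hd hLQ k s.1 s.2).choose,
        (step hT hTc hTu hcT hQ hd hLQ k s.1 s.2).choose_spec.1⟩) k
  have hF : ∀ k, (F (k + 1)).1.1 = (F k).1.2.1 ∧ f c (F (k + 1)).1.2.2 = (F k).1.2.2 := fun k =>
    (step hT hTc hTu hcT hQ hd hLQ k (F k).1 (F k).2).choose_spec.2
  refine ⟨fun k => (F k).1.1, fun k => (F k).1.2.2, ⟨fun x => ?_, fun k => (F k).2.1, fun k x hx => ?_, fun k => ?_,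
    fun k => ?_, fun k => (hF k).2⟩, hp02⟩
  · show p0.1 x = x
    rw [hp01]
    rfl
  · show f c ((F (k + 1)).1.1 x) = (F k).1.1 x
    rw [(hF k).1]
    exact (F k).2.2.2.2.1 x hx
  · exact (F k).2.2.2.2.2.1
  · show (F k).1.2.2 ∈ (F (k + 1)).1.1 '' L
    rw [(hF k).1]
    exact (F k).2.2.2.2.2.2

/-- the closure of the basin of infinity -/
def Bas (c : ℂ) : Set ℂ := closure (K c)ᶜ

theorem f_mem_Bas_iff {z : ℂ} : f c z ∈ Bas c ↔ z ∈ Bas c := by
  have h1 := (isOpenMap_f c).preimage_closure_eq_closure_preimage (continuous_f c) (K c)ᶜ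
  have h2 : f c ⁻¹' (K c)ᶜ = (K c)ᶜ := by
    ext z
    exact not_congr f_mem_K_iff
  rw [h2] at h1
  have h3 : z ∈ f c ⁻¹' Bas c ↔ z ∈ Bas c := by
    rw [Bas, h1]
  exact h3

theorem mem_J_iff {z : ℂ} : z ∈ J c ↔ z ∈ K c ∧ z ∈ Bas c := by
  rw [J, frontier_eq_closure_inter_closure, (isClosed_K c).closure_eq]
  rfl

section

variable {L Q : Set ℂ} {g : ℕ → ℂ → ℂ} {q : ℕ → ℂ}

theorem Chain.iter (h : Chain c L Q g q) (k : ℕ) {x : ℂ} (hx : x ∈ Q) : (f c)^[k] (g k x) = x := by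
  induction k with
  | zero => exact h.zero x
  | succ k ih => rw [Function.iterate_succ_apply, h.inv k x hx, ih]

theorem Chain.inj (h : Chain c L Q g q) (k : ℕ) : InjOn (g k) Q := fun x hx y hy hxy => by
  rw [← h.iter k hx, ← h.iter k hy, hxy]

theorem Chain.mem_K (h : Chain c L Q g q) (k : ℕ) {x : ℂ} (hx : x ∈ Q) : g k x ∈ K c ↔ x ∈ K c := by
  induction k with
  | zero => rw [h.zero]
  | succ k ih => rw [← f_mem_K_iff, h.inv k x hx, ih]

theorem Chain.mem_J (h : Chain c L Q g q) (k : ℕ) {x : ℂ} (hx : x ∈ Q) : g k x ∈ J c ↔ x ∈ J c := by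
  induction k with
  | zero => rw [h.zero]
  | succ k ih => rw [← f_mem_J_iff, h.inv k x hx, ih]

theorem Chain.mem_Bas (h : Chain c L Q g q) (k : ℕ) {x : ℂ} (hx : x ∈ Q) : g k x ∈ Bas c ↔ x ∈ Bas c := by
  induction k with
  | zero => rw [h.zero]
  | succ k ih => rw [← f_mem_Bas_iff, h.inv k x hx, ih]

theorem Chain.bound (h : Chain c L Q g q) {M : ℝ} (hM : ∀ x ∈ Q, ‖x‖ ≤ M) (k : ℕ) {x : ℂ} (hx : x ∈ Q) :
    ‖g k x‖ ≤ max (R0 c) M := by
  by_contra hcon
  push Not at hcon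
  have h1 : R0 c ≤ ‖g k x‖ := (le_max_left _ _).trans hcon.le
  have h2 := iter_ge h1 k
  rw [h.iter k hx] at h2
  have h4 : ‖g k x‖ ≤ 2 ^ k * ‖g k x‖ := le_mul_of_one_le_left (norm_nonneg _) (one_le_pow₀ (by norm_num))
  have h5 := (le_max_right (R0 c) M).trans_lt hcon
  have h6 := hM x hx
  linarith

/-- the branches are holomorphic -/
theorem Chain.diff (h : Chain c L Q g q) {N : Set ℂ} (hN : IsOpen N) (hNQ : N ⊆ Q) (hc : ∀ k, (f c)^[k] c ∉ N) (k : ℕ) :
    DifferentiableOn ℂ (g k) N := by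
  induction k with
  | zero =>
    have h1 : g 0 = id := funext h.zero
    rw [h1]
    exact differentiableOn_id
  | succ k ih =>
    intro x hx
    have hxN : N ∈ 𝓝 x := hN.mem_nhds hx
    have h1 : HasDerivAt (g k) (deriv (g k) x) x := (ih.differentiableAt hxN).hasDerivAt
    have hne : g (k + 1) x ≠ 0 := by
      intro h0
      have h2 := h.inv k x (hNQ hx)
      rw [h0] at h2
      have h3 := h.iter k (hNQ hx)
      rw [← h2] at h3
      have h4 : f c 0 = c := by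
        rw [f]
        ring
      rw [h4] at h3
      exact hc k (h3 ▸ hx)
    have hcont : ContinuousAt (g (k + 1)) x := ((h.cont (k + 1)).mono hNQ).continuousAt hxN
    have h5 : Tendsto (fun y => g (k + 1) y + g (k + 1) x) (𝓝[≠] x) (𝓝 (g (k + 1) x + g (k + 1) x)) :=
      (hcont.tendsto.add_const _).mono_left nhdsWithin_le_nhds
    have h6 : g (k + 1) x + g (k + 1) x ≠ 0 := by
      rw [← two_mul]
      exact mul_ne_zero two_ne_zero hne
    have h7 := (hasDerivAt_iff_tendsto_slope.1 h1).div h5 h6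
    have h8 : HasDerivAt (g (k + 1)) (deriv (g k) x / (g (k + 1) x + g (k + 1) x)) x := by
      rw [hasDerivAt_iff_tendsto_slope]
      refine h7.congr' ?_
      filter_upwards [h5.eventually_ne h6, mem_nhdsWithin_of_mem_nhds hxN] with y hy hyN
      rw [Pi.div_apply, slope_def_field, slope_def_field]
      have h9 := h.inv k x (hNQ hx)
      have h10 := h.inv k y (hNQ hyN)
      rw [← h9, ← h10, f, f]
      have h11 : g (k + 1) y ^ 2 + c - (g (k + 1) x ^ 2 + c)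
          = (g (k + 1) y - g (k + 1) x) * (g (k + 1) y + g (k + 1) x) := by ring
      rw [h11]
      rcases eq_or_ne y x with hyx | hyx
      · rw [hyx]
        simp
      · have h12 : y - x ≠ 0 := sub_ne_zero.2 hyx
        field_simp
    exact h8.differentiableAt.differentiableWithinAt

end

end Pool.Agent.Helper66.QJ
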