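import Pool.Agent.Helper66.QJ.Contract

/-!
# Chains of sets (MP_a03adf_an)

`exists_chain_sets`: successive preimages of a continuum `L` in the closure of the basin of infinity, which converge to a
fixed point in `J`. `external`: the fixed point that is joined to infinity by a closed connected set outside `K`.
`internal`: a proper subcontinuum of `J` which contains `0` and a fixed point.
-/

set_option autoImplicit false

open Set Topology Metric Bornology Filter

namespace Pool.Agent.Helper66.QJ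

variable {c : ℂ}

/-- a sequence of preimages converging to the fixed point `b` -/
structure Conv (c : ℂ) (L : Set ℂ) (S : ℕ → Set ℂ) (b : ℂ) : Prop where
  zero : S 0 = L
  comp : ∀ n, IsCompact (S n)
  conn : ∀ n, IsPreconnected (S n)
  meet : ∀ n, (S n ∩ S (n + 1)).Nonempty
  down : ∀ n, ∀ x ∈ S (n + 1), f c x ∈ S n
  fix : f c b = b
  memJ : b ∈ J c
  lim : ∀ ε : ℝ, 0 < ε → ∀ᶠ n in atTop, ∀ x ∈ S n, ‖x - b‖ < ε

theorem exists_chain_sets {T L : Set ℂ} (hT : IsClosed T) (hTc : IsPreconnected T) (hTu : ¬ IsBounded T)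
    (hcT : ∀ k, (f c)^[k] c ∈ T) (hL : IsCompact L) (hLc : IsPreconnected L) (hLB : L ⊆ Bas c) (hd : Disjoint L T)
    {x0 q0 : ℂ} (hx0 : x0 ∈ L) (hq0 : q0 ∈ L) (hfq : f c q0 = x0) : ∃ (S : ℕ → Set ℂ) (b : ℂ), Conv c L S b := by
  obtain ⟨δ, hδ, hδT⟩ := hL.exists_cthickening_subset_open hT.isOpen_compl hd.subset_compl_right
  have hQ : IsCompact (cthickening δ L) := hL.cthickening
  have hQT : Disjoint (cthickening δ L) T := disjoint_left.2 fun x hx hxT => hδT hx hxT
  have hLQ : L ⊆ cthickening δ L := self_subset_cthickening L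
  obtain ⟨g, q, h, -⟩ := exists_chain hT hTc hTu hcT hQ hQT hLQ hx0 hq0 hfq
  have hNQ : thickening δ L ⊆ cthickening δ L := thickening_subset_cthickening δ L
  obtain ⟨b, hb, hbJ, hlim⟩ := fixed_limit h (isOpen_thickening (δ := δ) (E := L)) hNQ (self_subset_thickening hδ L) hQ
    (fun k hk => hδT (hNQ hk) (hcT k)) hL hLc hLB
  refine ⟨fun n => g n '' L, b, ⟨?_, fun n => hL.image_of_continuousOn ((h.cont n).mono hLQ),
    fun n => hLc.image _ ((h.cont n).mono hLQ), fun n => ⟨q n, h.mem n, h.mem' n⟩, ?_, hb, hbJ, ?_⟩⟩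
  · have h1 : g 0 = id := funext h.zero
    show g 0 '' L = L
    rw [h1, image_id]
  · rintro n _ ⟨x, hx, rfl⟩
    rw [h.inv n x (hLQ hx)]
    exact ⟨x, hx, rfl⟩
  · intro ε hε
    filter_upwards [hlim ε hε] with n hn
    rintro _ ⟨x, hx, rfl⟩
    exact hn x hx

section

variable {L : Set ℂ} {S : ℕ → Set ℂ} {b : ℂ}

theorem Conv.isClosed (h : Conv c L S b) : IsClosed ((⋃ n, S n) ∪ {b}) := isClosed_union_limit h.comp h.lim

theorem Conv.isPreconnected (h : Conv c L S b) : IsPreconnected ((⋃ n, S n) ∪ {b}) := by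
  have h1 : IsPreconnected (⋃ n, S n) := IsPreconnected.iUnion_of_chain h.conn fun n => h.meet n
  refine h1.subset_closure subset_union_left (union_subset subset_closure ?_)
  rw [singleton_subset_iff, Metric.mem_closure_iff]
  intro ε hε
  obtain ⟨n, hn⟩ := (h.lim ε hε).exists
  obtain ⟨x, hx, -⟩ := h.meet n
  refine ⟨x, Set.mem_iUnion.2 ⟨n, hx⟩, ?_⟩
  rw [dist_comm, dist_eq_norm]
  exact hn x hx

end

/-- a closed connected unbounded set which meets `J` only in a fixed point -/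
theorem external (h0 : (0 : ℂ) ∈ K c) : ∃ (b : ℂ) (R : Set ℂ), f c b = b ∧ b ∈ J c ∧ IsClosed R ∧ IsPreconnected R ∧
    ¬ IsBounded R ∧ b ∈ R ∧ R ∩ J c ⊆ {b} := by
  have hR0 : 2 ≤ R0 c := by
    have := norm_nonneg c
    rw [R0]
    linarith
  obtain ⟨M, hM⟩ : ∃ M : ℝ, M = (R0 c + 1) ^ 2 + ‖c‖ := ⟨_, rfl⟩
  have hMR : R0 c + 1 ≤ M := by
    have := norm_nonneg c
    nlinarith
  obtain ⟨z1, hz1, hz1re⟩ : ∃ z1 : ℂ, z1 ^ 2 = (M : ℂ) - c ∧ R0 c + 1 ≤ z1.re := by
    obtain ⟨z, hz⟩ := IsAlgClosed.exists_pow_nat_eq ((M : ℂ) - c) (n := 2) (by norm_num)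
    have h1 : z.re ^ 2 - z.im ^ 2 = M - c.re := by
      have := congrArg Complex.re hz
      rw [sq, Complex.mul_re, Complex.sub_re, Complex.ofReal_re] at this
      nlinarith
    have h2 : (R0 c + 1) ^ 2 ≤ z.re ^ 2 := by
      have h3 := Complex.re_le_norm c
      nlinarith [sq_nonneg z.im]
    rcases le_total 0 z.re with h3 | h3
    · exact ⟨z, hz, by
        have := abs_le_of_sq_le_sq' h2 h3
        linarith [this.2]⟩
    · refine ⟨-z, by rw [neg_sq, hz], ?_⟩
      rw [Complex.neg_re]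
      have := abs_le_of_sq_le_sq' (a := R0 c + 1) (b := -z.re) (by rw [neg_sq]; exact h2) (by linarith)
      linarith [this.2]
  have hre : ∀ z ∈ segment ℝ (M : ℂ) z1, R0 c + 1 ≤ z.re := by
    intro z hz
    have h1 : Convex ℝ {z : ℂ | R0 c + 1 ≤ z.re} := convex_halfSpace_re_ge (R0 c + 1)
    exact h1.segment_subset (show R0 c + 1 ≤ ((M : ℂ)).re by rwa [Complex.ofReal_re]) hz1re hz
  have hnK : ∀ z : ℂ, R0 c + 1 ≤ z.re → z ∉ K c := fun z hz =>
    not_mem_K_of_lt (by linarith [Complex.re_le_norm z])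
  -- the chain
  let T : Set ℂ := K c ∪ (fun x : ℝ => (x : ℂ)) '' Iic 0
  have hT : IsClosed T := (isClosed_K c).union
    (Complex.isometry_ofReal.isClosedEmbedding.isClosedMap _ isClosed_Iic)
  have hTc : IsPreconnected T := (isPreconnected_K h0).union 0 h0 ⟨0, mem_Iic.2 le_rfl, rfl⟩
    (isPreconnected_Iic.image _ Complex.continuous_ofReal.continuousOn)
  have hTu : ¬ IsBounded T := by
    intro hb
    obtain ⟨B, hB⟩ := hb.exists_norm_le
    have h1 := hB ((-(|B| + 1) : ℝ) : ℂ) (Or.inr ⟨_, mem_Iic.2 (by linarith [abs_nonneg B]), rfl⟩)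
    rw [Complex.norm_real, norm_neg, Real.norm_of_nonneg (by positivity)] at h1
    linarith [le_abs_self B]
  have hcT : ∀ k, (f c)^[k] c ∈ T := by
    intro k
    left
    have h1 : ∀ k, (f c)^[k] 0 ∈ K c := by
      intro k
      induction k with
      | zero => exact h0
      | succ k ih =>
        rw [Function.iterate_succ_apply']
        exact f_mem_K_iff.2 ih
    rw [c_iter]
    exact h1 _
  have hL : IsCompact (segment ℝ (M : ℂ) z1) := by
    rw [segment_eq_image_lineMap]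
    exact isCompact_Icc.image (by fun_prop)
  have hLc : IsPreconnected (segment ℝ (M : ℂ) z1) := (convex_segment _ _).isPreconnected
  have hLB : segment ℝ (M : ℂ) z1 ⊆ Bas c := fun z hz => subset_closure (hnK z (hre z hz))
  have hd : Disjoint (segment ℝ (M : ℂ) z1) T := by
    rw [disjoint_left]
    rintro z hz (hzK | ⟨x, hx, rfl⟩)
    · exact hnK z (hre z hz) hzK
    · have h1 := hre _ hz
      rw [Complex.ofReal_re] at h1
      linarith [mem_Iic.1 hx]
  obtain ⟨S, b, h⟩ := exists_chain_sets hT hTc hTu hcT hL hLc hLB hd (left_mem_segment ℝ _ _)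
    (right_mem_segment ℝ _ _) (show f c z1 = (M : ℂ) by
      rw [f, hz1]
      ring)
  have hSK : ∀ n, ∀ x ∈ S n, x ∉ K c := by
    intro n
    induction n with
    | zero =>
      intro x hx
      rw [h.zero] at hx
      exact hnK x (hre x hx)
    | succ n ih =>
      intro x hx hxK
      exact ih _ (h.down n x hx) (f_mem_K_iff.2 hxK)
  have hM0 : (M : ℂ) ∈ S 0 := by
    rw [h.zero]
    exact left_mem_segment ℝ _ _
  refine ⟨b, ((⋃ n, S n) ∪ {b}) ∪ (fun x : ℝ => (x : ℂ)) '' Ici M, h.fix, h.memJ, ?_, ?_, ?_, ?_, ?_⟩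
  · exact h.isClosed.union (Complex.isometry_ofReal.isClosedEmbedding.isClosedMap _ isClosed_Ici)
  · exact h.isPreconnected.union (M : ℂ) (Or.inl (mem_iUnion.2 ⟨0, hM0⟩)) ⟨M, mem_Ici.2 le_rfl, rfl⟩
      (isPreconnected_Ici.image _ Complex.continuous_ofReal.continuousOn)
  · intro hb
    obtain ⟨B, hB⟩ := hb.exists_norm_le
    have h1 := hB ((M + |B| + 1 : ℝ) : ℂ) (Or.inr ⟨_, mem_Ici.2 (by linarith [abs_nonneg B]), rfl⟩)
    rw [Complex.norm_real, Real.norm_of_nonneg (by linarith [abs_nonneg B])] at h1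
    linarith [le_abs_self B]
  · exact Or.inl (Or.inr rfl)
  · rintro z ⟨(hz | hz) | ⟨x, hx, rfl⟩, hzJ⟩
    · obtain ⟨n, hn⟩ := mem_iUnion.1 hz
      exact absurd (J_sub_K c hzJ) (hSK n z hn)
    · exact hz
    · refine absurd (J_sub_K c hzJ) (hnK _ ?_)
      show R0 c + 1 ≤ ((x : ℂ)).re
      rw [Complex.ofReal_re]
      linarith [mem_Ici.1 hx]

end Pool.Agent.Helper66.QJ
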