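import Mathlib

/-!
# Block QJ-COMB: the combinatorial part of Rogers' dichotomy (MP_a03adf_an)

`I t` is the impression of the prime end `exp (2 π i t)` of a Siegel disk, `X` the boundary, `F` the map, `p` the radial
limit at `t0` and its images (`t0 + n α + m`, `n` natural, `m` an integer).

PROOF. (1) There is a nonempty open arc whose impressions lie in a proper subset of `X`: of the infinitely many points
`p (t0 + n α)` (mod 1 pairwise different parameters, `α` irrational) infinitely many, so two, with parameters `t1 < t2 < t1 + 1`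
after a shift by integers, lie in `A1` or in `A2`, and `hsep2` with `M = A1` (or `A2`) gives an open interval `(a,b)` with
`I t ⊆ A1` for `t` in `(a,b)`. Hence NO `I t` is `X`: if `I t = X` then `I (t + n α) = F^n (I t) = X` (`F '' X = X` from `hF`
and `hX`), by `hclosed` and density of `t + n α + m` every `I s` is `X`.
(2) Suppose `I t ∩ I (t + d)` is nonempty for some `t` and `0 < d < 1`. By `hF` it is nonempty for `t + n α`, so for all `t`
(`hclosed`, density, compactness of `X`). `M_t = I t ∪ I (t + d)` is compact and connected. `hsep1` with `t1 = t`, `t2 = t + d`: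
(a) `I s ⊆ M_t` for all `s` in `(t, t + d)` or (b) the same for `s` in `(t + d, t + 1)`. Case (b) is case (a) for `t' = t + d`,
`d' = 1 - d`. So wlog (a) for one `t`; by `hF` it holds for `t + n α`, and by `hclosed` for all `t`.
(3) For `x` in `X` let `E_x = {s : x ∈ I s}`, closed, periodic, nonempty. If `s ∈ E_x` and `0 < u < d`: `s ∈ (s - u, s - u + d)`, so by
(a) `s - u ∈ E_x` or `s - u + d ∈ E_x`. So `(0,d) ⊆ (s - E_x) ∪ (s + d - E_x)` and for `s` in `[0,1)` the set `E_x ∩ [-1,2]` has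
measure at least `d/2`.
(4) Take `N` with `N d / 2 > 3` points `x_i = p (t0 + n_i α)` with pairwise different parameters mod 1. Two of the sets
`E_{x_i} ∩ [-1,2]` meet (total measure), so some `I s` contains `p (t_i)` and `p (t_j)` with `t_i ≠ t_j` mod 1. By `hsep2` with `M = I s`
there is an interval `(a,b)`, `a < b`, with `I u ⊆ I s` for `u` in `(a,b)`. Write `u = s + v`: `I (s + v) ⊆ I s` for `v` in
`(a - s, b - s)`. By `hF` and `hclosed` it holds for all `s`. Iterating `k` times, `I (s + v) ⊆ I s` for `v` in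
`(k (a - s), k (b - s))`, which for large `k` has length more than one. So `X ⊆ I s`, contradiction to (1).
-/

set_option autoImplicit false

open Set Topology Metric Bornology Filter MeasureTheory

namespace Pool.Agent.Helper66.QJ

/-- forward orbits of an irrational rotation are dense -/
theorem dense_fwd {α : ℝ} (hα : Irrational α) (t s : ℝ) {δ : ℝ} (hδ : 0 < δ) :
    ∃ (n : ℕ) (m : ℤ), |t + n * α + m - s| < δ := by
  obtain ⟨N, hN⟩ := exists_nat_one_div_lt hδ
  obtain ⟨k, hk0, -, hk⟩ := Real.exists_nat_abs_mul_sub_round_le α (Nat.succ_pos N)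
  obtain ⟨β, hβ⟩ : ∃ β : ℝ, β = k * α - round (k * α) := ⟨_, rfl⟩
  have hβ1 : |β| < δ := by
    rw [hβ]
    refine hk.trans_lt (lt_of_le_of_lt ?_ hN)
    have h1 : (0 : ℝ) < (N : ℝ) + 1 := by positivity
    push_cast
    exact one_div_le_one_div_of_le h1 (by linarith)
  have hβ0 : β ≠ 0 := by
    intro h0
    rw [hβ] at h0
    have h1 : Irrational ((k : ℝ) * α) := hα.natCast_mul hk0.ne'
    exact h1.ne_int (round (k * α)) (by linarith)
  -- steps of size `β`
  have key : ∀ β' x : ℝ, 0 < β' → β' < δ → ∃ (i : ℕ) (m : ℤ), |x + i * β' + m| < δ := by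
    intro β' x hβ' hβδ
    obtain ⟨m, hm⟩ : ∃ m : ℤ, x + m ≤ 0 := ⟨-⌈x⌉, by
      push_cast
      linarith [Int.le_ceil x]⟩
    refine ⟨⌈-(x + m) / β'⌉₊, m, ?_⟩
    have h1 : 0 ≤ -(x + m) / β' := div_nonneg (by linarith) hβ'.le
    have h2 := Nat.le_ceil (-(x + m) / β')
    have h3 := Nat.ceil_lt_add_one h1
    rw [div_le_iff₀ hβ'] at h2
    have h4 : (⌈-(x + m) / β'⌉₊ : ℝ) * β' < (-(x + m) / β' + 1) * β' := mul_lt_mul_of_pos_right h3 hβ'
    rw [add_mul, div_mul_cancel₀ _ hβ'.ne', one_mul] at h4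
    rw [abs_lt]
    constructor <;> linarith
  rcases lt_or_gt_of_ne hβ0 with h | h
  · obtain ⟨i, m, him⟩ := key (-β) (s - t) (by linarith) (by rw [abs_of_neg h] at hβ1; exact hβ1)
    refine ⟨i * k, -m - i * round (k * α), ?_⟩
    have h1 : t + ((i * k : ℕ) : ℝ) * α + ((-m - i * round (k * α) : ℤ) : ℝ) - s = -((s - t) + i * -β + m) := by
      rw [hβ]
      push_cast
      ring
    rw [h1, abs_neg]
    exact him
  · obtain ⟨i, m, him⟩ := key β (t - s) h (by rw [abs_of_pos h] at hβ1; exact hβ1)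
    refine ⟨i * k, m - i * round (k * α), ?_⟩
    have h1 : t + ((i * k : ℕ) : ℝ) * α + ((m - i * round (k * α) : ℤ) : ℝ) - s = (t - s) + i * β + m := by
      rw [hβ]
      push_cast
      ring
    rw [h1]
    exact him

/-- a closed property which is invariant under the rotation holds everywhere if it holds once -/
theorem transfer {α : ℝ} (hα : Irrational α) {Q : ℝ → Prop} (hQα : ∀ t, Q t → Q (t + α)) (hQ1 : ∀ t, ∀ m : ℤ, Q t → Q (t + m))
    (hQc : ∀ (u : ℕ → ℝ) (t : ℝ), (∀ k, Q (u k)) → Tendsto u atTop (𝓝 t) → Q t) {t : ℝ} (ht : Q t) (s : ℝ) : Q s := by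
  have hn : ∀ n : ℕ, Q (t + n * α) := by
    intro n
    induction n with
    | zero =>
      have h1 : t + ((0 : ℕ) : ℝ) * α = t := by push_cast; ring
      rwa [h1]
    | succ n ih =>
      have h1 : t + ((n + 1 : ℕ) : ℝ) * α = t + n * α + α := by push_cast; ring
      rw [h1]
      exact hQα _ ih
  choose n m hnm using fun k : ℕ => dense_fwd hα t s (δ := 1 / ((k : ℝ) + 1)) Nat.one_div_pos_of_nat
  refine hQc (fun k => t + n k * α + m k) s (fun k => hQ1 _ _ (hn _)) ?_
  rw [Metric.tendsto_atTop]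
  intro ε hε
  obtain ⟨N, hN⟩ := exists_nat_one_div_lt hε
  refine ⟨N, fun k hk => ?_⟩
  rw [Real.dist_eq]
  exact (hnm k).trans ((Nat.one_div_le_one_div hk).trans_lt hN)

theorem disjoint_imp {X : Set ℂ} {I : ℝ → Set ℂ} {F : ℂ → ℂ} {α t0 : ℝ} {p : ℝ → ℂ} (hα : Irrational α)
    (hper : ∀ t, I (t + 1) = I t) (hclosed : IsClosed {q : ℝ × ℂ | q.2 ∈ I q.1}) (hconn : ∀ t, IsConnected (I t))
    (hX : ⋃ t, I t = X) (hXc : IsCompact X) (hF : ∀ t, F '' I t = I (t + α))
    (hpI : ∀ t, p t ∈ I t) (hpper : ∀ t, p (t + 1) = p t)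
    (hsep1 : ∀ M : Set ℂ, IsCompact M → IsConnected M → M ⊆ X → ∀ t1 t2 : ℝ, t1 < t2 → t2 < t1 + 1 →
      I t1 ⊆ M → I t2 ⊆ M → (∀ t ∈ Ioo t1 t2, I t ⊆ M) ∨ ∀ t ∈ Ioo t2 (t1 + 1), I t ⊆ M)
    (hsep2 : ∀ M : Set ℂ, IsCompact M → IsConnected M → M ⊆ X → ∀ t1 t2 : ℝ, t1 < t2 → t2 < t1 + 1 →
      (∃ (n : ℕ) (m : ℤ), t1 = t0 + n * α + m) → (∃ (n : ℕ) (m : ℤ), t2 = t0 + n * α + m) → p t1 ∈ M → p t2 ∈ M →
      (∀ t ∈ Ioo t1 t2, I t ⊆ M) ∨ ∀ t ∈ Ioo t2 (t1 + 1), I t ⊆ M)
    {A1 A2 : Set ℂ} (hA : A1 ∪ A2 = X) (h1 : A1 ≠ X) (h2 : A2 ≠ X) (hA1 : IsCompact A1) (hA2 : IsCompact A2)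
    (hA1c : IsConnected A1) (hA2c : IsConnected A2) {t d : ℝ} (hd0 : 0 < d) (hd1 : d < 1) :
    Disjoint (I t) (I (t + d)) := by
  have hIX : ∀ t, I t ⊆ X := fun t => hX ▸ subset_iUnion I t
  have hIcl : ∀ t, IsClosed (I t) := fun t => hclosed.preimage (continuous_const.prodMk continuous_id)
  have hIc : ∀ t, IsCompact (I t) := fun t => hXc.of_isClosed_subset (hIcl t) (hIX t)
  have hperZ : ∀ (t : ℝ) (m : ℤ), I (t + m) = I t := by
    intro t m
    induction m with
    | zero => rw [Int.cast_zero, add_zero]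
    | succ m ih =>
      rw [← ih, ← hper (t + ((m : ℤ) : ℝ))]
      congr 1
      push_cast
      ring
    | pred m ih =>
      rw [← ih, ← hper (t + ((-(m : ℤ) - 1 : ℤ) : ℝ))]
      congr 1
      push_cast
      ring
  have hpperZ : ∀ (t : ℝ) (m : ℤ), p (t + m) = p t := by
    intro t m
    induction m with
    | zero => rw [Int.cast_zero, add_zero]
    | succ m ih =>
      rw [← ih, ← hpper (t + ((m : ℤ) : ℝ))]
      congr 1
      push_cast
      ring
    | pred m ih =>
      rw [← ih, ← hpper (t + ((-(m : ℤ) - 1 : ℤ) : ℝ))]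
      congr 1
      push_cast
      ring
  have hlim : ∀ (u : ℕ → ℝ) (x : ℕ → ℂ) (t : ℝ) (y : ℂ), (∀ k, x k ∈ I (u k)) → Tendsto u atTop (𝓝 t) →
      Tendsto x atTop (𝓝 y) → y ∈ I t := by
    intro u x t y hx hu hy
    have h3 : Tendsto (fun k => (u k, x k)) atTop (𝓝 (t, y)) := hu.prodMk_nhds hy
    exact hclosed.mem_of_tendsto h3 (Eventually.of_forall hx)
  have hlim' : ∀ (u : ℕ → ℝ) (t : ℝ) (y : ℂ), (∃ᶠ k in atTop, y ∈ I (u k)) → Tendsto u atTop (𝓝 t) → y ∈ I t := by
    intro u t y hy hu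
    obtain ⟨g, hg, hg2⟩ := extraction_of_frequently_atTop hy
    exact hlim (fun k => u (g k)) (fun _ => y) t y hg2 (hu.comp hg.tendsto_atTop) tendsto_const_nhds
  -- inclusions on arcs are transferred
  have hinc : ∀ {a b d' t : ℝ}, (∀ v ∈ Ioo a b, I (t + v) ⊆ I t ∪ I (t + d')) → ∀ s, ∀ v ∈ Ioo a b,
      I (s + v) ⊆ I s ∪ I (s + d') := by
    intro a b d' t ht s
    refine transfer hα (Q := fun t => ∀ v ∈ Ioo a b, I (t + v) ⊆ I t ∪ I (t + d')) (fun t ht v hv => ?_)
      (fun t m ht v hv => ?_) (fun u t hu htend v hv => ?_) ht s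
    · have h3 := image_mono (f := F) (ht v hv)
      rw [image_union, hF, hF, hF] at h3
      rwa [add_right_comm t α v, add_right_comm t α d']
    · rw [add_right_comm t _ v, hperZ, hperZ, add_right_comm t _ d', hperZ]
      exact ht v hv
    · intro x hx
      have h3 : Tendsto (fun k => t + v - u k) atTop (𝓝 v) := by
        have h4 := (tendsto_const_nhds (x := t + v)).sub htend
        rwa [add_sub_cancel_left] at h4
      have h4 : ∀ᶠ k in atTop, t + v - u k ∈ Ioo a b := h3.eventually (isOpen_Ioo.mem_nhds hv)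
      have h5 : ∀ᶠ k in atTop, x ∈ I (u k) ∨ x ∈ I (u k + d') := by
        filter_upwards [h4] with k hk
        refine hu k _ hk ?_
        rwa [add_sub_cancel]
      rcases Filter.frequently_or_distrib.1 h5.frequently with h6 | h6
      · exact Or.inl (hlim' u t x h6 htend)
      · exact Or.inr (hlim' (fun k => u k + d') (t + d') x h6 (htend.add_const d'))
  -- arcs from two points of the orbit
  have harc : ∀ M : Set ℂ, IsCompact M → IsConnected M → M ⊆ X → ∀ n1 n2 : ℕ, n1 ≠ n2 → p (t0 + n1 * α) ∈ M →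
      p (t0 + n2 * α) ∈ M → ∃ a b : ℝ, a < b ∧ ∀ t ∈ Ioo a b, I t ⊆ M := by
    intro M hM hMc hMX n1 n2 hn hp1 hp2
    obtain ⟨r, hr⟩ : ∃ r, r = Int.fract ((n2 : ℝ) * α - n1 * α) := ⟨_, rfl⟩
    have hr0 : 0 < r := by
      rcases (Int.fract_nonneg ((n2 : ℝ) * α - n1 * α)).lt_or_eq with h | h
      · rwa [hr]
      · exfalso
        have h3 := Int.self_sub_floor ((n2 : ℝ) * α - n1 * α)
        rw [← h] at h3
        have h4 : Irrational (((n2 : ℤ) - (n1 : ℤ) : ℤ) * α) :=
          hα.intCast_mul (sub_ne_zero.2 fun h5 => hn (by exact_mod_cast h5.symm))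
        refine h4.ne_int ⌊(n2 : ℝ) * α - n1 * α⌋ ?_
        push_cast
        linarith
    have hr1 : r < 1 := hr ▸ Int.fract_lt_one _
    have ht2 : t0 + n1 * α + r = t0 + n2 * α + ((-⌊(n2 : ℝ) * α - n1 * α⌋ : ℤ) : ℝ) := by
      have h3 := Int.self_sub_floor ((n2 : ℝ) * α - n1 * α)
      rw [← hr] at h3
      push_cast
      linarith
    rcases hsep2 M hM hMc hMX (t0 + n1 * α) (t0 + n1 * α + r) (by linarith) (by linarith) ⟨n1, 0, by push_cast; ring⟩
      ⟨n2, _, ht2⟩ hp1 (by rw [ht2, hpperZ]; exact hp2) with h | h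
    · exact ⟨_, _, by linarith, h⟩
    · exact ⟨_, _, by linarith, h⟩
  -- no impression is everything
  have hno : ∀ s, ¬ X ⊆ I s := by
    intro s hs
    have hall : ∀ s, X ⊆ I s := by
      intro s'
      refine transfer hα (Q := fun t => X ⊆ I t) (fun t ht => ?_) (fun t m ht => ?_) (fun u t hu htend x hx => ?_) hs s'
      · have h3 : F '' X = X := by
          rw [← hX, image_iUnion]
          apply Subset.antisymm
          · refine iUnion_subset fun t => ?_
            rw [hF]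
            exact subset_iUnion I (t + α)
          · refine iUnion_subset fun t => ?_
            have h4 := hF (t - α)
            rw [sub_add_cancel] at h4
            rw [← h4]
            exact subset_iUnion (fun t => F '' I t) (t - α)
        rw [← hF, ← h3]
        exact image_mono ht
      · rw [hperZ]
        exact ht
      · exact hlim u (fun _ => x) t x (fun k => hu k hx) htend tendsto_const_nhds
    have hpX : ∀ t, p t ∈ A1 ∨ p t ∈ A2 := fun t => by
      have h3 : p t ∈ A1 ∪ A2 := hA.symm ▸ hIX t (hpI t)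
      exact h3
    have hA1X : A1 ⊆ X := hA ▸ subset_union_left
    have hA2X : A2 ⊆ X := hA ▸ subset_union_right
    have hcase : (∃ n1 n2 : ℕ, n1 ≠ n2 ∧ p (t0 + n1 * α) ∈ A1 ∧ p (t0 + n2 * α) ∈ A1) ∨
        ∃ n1 n2 : ℕ, n1 ≠ n2 ∧ p (t0 + n1 * α) ∈ A2 ∧ p (t0 + n2 * α) ∈ A2 := by
      rcases hpX (t0 + ((0 : ℕ) : ℝ) * α) with a0 | a0 <;> rcases hpX (t0 + ((1 : ℕ) : ℝ) * α) with a1 | a1 <;>
        rcases hpX (t0 + ((2 : ℕ) : ℝ) * α) with a2 | a2
      · exact Or.inl ⟨0, 1, by norm_num, a0, a1⟩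
      · exact Or.inl ⟨0, 1, by norm_num, a0, a1⟩
      · exact Or.inl ⟨0, 2, by norm_num, a0, a2⟩
      · exact Or.inr ⟨1, 2, by norm_num, a1, a2⟩
      · exact Or.inl ⟨1, 2, by norm_num, a1, a2⟩
      · exact Or.inr ⟨0, 2, by norm_num, a0, a2⟩
      · exact Or.inr ⟨0, 1, by norm_num, a0, a1⟩
      · exact Or.inr ⟨0, 1, by norm_num, a0, a1⟩
    rcases hcase with ⟨n1, n2, hn, hp1, hp2⟩ | ⟨n1, n2, hn, hp1, hp2⟩
    · obtain ⟨a, b, hab, hI⟩ := harc A1 hA1 hA1c hA1X n1 n2 hn hp1 hp2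
      exact h1 (hA1X.antisymm ((hall ((a + b) / 2)).trans (hI _ ⟨by linarith, by linarith⟩)))
    · obtain ⟨a, b, hab, hI⟩ := harc A2 hA2 hA2c hA2X n1 n2 hn hp1 hp2
      exact h2 (hA2X.antisymm ((hall ((a + b) / 2)).trans (hI _ ⟨by linarith, by linarith⟩)))
  -- the contradiction
  rw [Set.disjoint_iff_inter_eq_empty]
  by_contra hne
  have hne' : (I t ∩ I (t + d)).Nonempty := Set.nonempty_iff_ne_empty.2 hne
  have hMc : IsConnected (I t ∪ I (t + d)) := by
    obtain ⟨x, hx1, hx2⟩ := hne'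
    exact IsConnected.union ⟨x, hx1, hx2⟩ (hconn t) (hconn (t + d))
  obtain ⟨D, hD0, hD1, hDinc⟩ : ∃ D : ℝ, 0 < D ∧ D < 1 ∧ ∀ s, ∀ v ∈ Ioo 0 D, I (s + v) ⊆ I s ∪ I (s + D) := by
    rcases hsep1 (I t ∪ I (t + d)) ((hIc t).union (hIc (t + d))) hMc (union_subset (hIX _) (hIX _)) t (t + d)
      (by linarith) (by linarith) subset_union_left subset_union_right with h | h
    · exact ⟨d, hd0, hd1, hinc (t := t) fun v hv => h _ ⟨by linarith [hv.1], by linarith [hv.2]⟩⟩
    · refine ⟨1 - d, by linarith, by linarith, hinc (t := t + d) fun v hv => ?_⟩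
      have h3 := h (t + d + v) ⟨by linarith [hv.1], by linarith [hv.2]⟩
      have h4 : I (t + d + (1 - d)) = I t := by
        rw [show t + d + (1 - d) = t + 1 by ring, hper]
      rw [h4, union_comm]
      exact h3
  -- the sets of parameters
  let E : ℂ → Set ℝ := fun x => {s | x ∈ I s} ∩ Icc (-1) 2
  have hEcl : ∀ x, IsClosed (E x) := fun x =>
    (hclosed.preimage (continuous_id.prodMk continuous_const)).inter isClosed_Icc
  have hEm : ∀ x, MeasurableSet (E x) := fun x => (hEcl x).measurableSet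
  have hEvol : ∀ x ∈ X, ENNReal.ofReal D ≤ 2 * volume (E x) := by
    intro x hx
    obtain ⟨s, hs0, hs1, hsx⟩ : ∃ s : ℝ, 0 ≤ s ∧ s < 1 ∧ x ∈ I s := by
      rw [← hX] at hx
      obtain ⟨s, hs⟩ := mem_iUnion.1 hx
      refine ⟨Int.fract s, Int.fract_nonneg s, Int.fract_lt_one s, ?_⟩
      have h3 : Int.fract s = s + ((-⌊s⌋ : ℤ) : ℝ) := by
        rw [Int.fract]
        push_cast
        ring
      rw [h3, hperZ]
      exact hs
    have hsub : Ioo 0 D ⊆ (fun u => s - u) ⁻¹' E x ∪ (fun u => s + D - u) ⁻¹' E x := by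
      intro u hu
      have h3 := hDinc (s - u) u hu (by rwa [sub_add_cancel])
      rcases h3 with h4 | h4
      · exact Or.inl ⟨h4, by linarith [hu.2], by linarith [hu.1]⟩
      · refine Or.inr ⟨?_, by linarith [hu.2], by linarith [hu.1]⟩
        show x ∈ I (s + D - u)
        rwa [show s + D - u = s - u + D by ring]
    calc ENNReal.ofReal D = volume (Ioo 0 D) := by rw [Real.volume_Ioo, sub_zero]
      _ ≤ volume ((fun u => s - u) ⁻¹' E x ∪ (fun u => s + D - u) ⁻¹' E x) := measure_mono hsub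
      _ ≤ volume ((fun u => s - u) ⁻¹' E x) + volume ((fun u => s + D - u) ⁻¹' E x) := measure_union_le _ _
      _ = 2 * volume (E x) := by
          rw [(Measure.measurePreserving_sub_left volume s).measure_preimage (hEm x).nullMeasurableSet,
            (Measure.measurePreserving_sub_left volume (s + D)).measure_preimage (hEm x).nullMeasurableSet, two_mul]
  obtain ⟨N, hN⟩ : ∃ N : ℕ, 6 < N * D := by
    obtain ⟨N, hN⟩ := exists_nat_gt (6 / D)
    exact ⟨N, by rwa [div_lt_iff₀ hD0] at hN⟩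
  obtain ⟨i, j, hij, s, hsi, hsj⟩ : ∃ i j : ℕ, i ≠ j ∧ ∃ s, s ∈ E (p (t0 + i * α)) ∧ s ∈ E (p (t0 + j * α)) := by
    by_contra hcon
    push Not at hcon
    have hdis : (↑(Finset.range N) : Set ℕ).PairwiseDisjoint fun i : ℕ => E (p (t0 + i * α)) := by
      intro i _ j _ hij
      exact disjoint_left.2 fun s hs hs' => hcon i j hij s hs hs'
    have h3 := measure_biUnion_finset (μ := volume) hdis fun i _ => hEm _
    have h4 : volume (⋃ i ∈ Finset.range N, E (p (t0 + i * α))) ≤ ENNReal.ofReal 3 := by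
      refine (measure_mono (iUnion₂_subset fun i _ => inter_subset_right)).trans ?_
      rw [Real.volume_Icc]
      norm_num
    have h5 : (N : ENNReal) * ENNReal.ofReal D ≤ 2 * ∑ i ∈ Finset.range N, volume (E (p (t0 + i * α))) := by
      rw [Finset.mul_sum]
      calc (N : ENNReal) * ENNReal.ofReal D = ∑ _i ∈ Finset.range N, ENNReal.ofReal D := by
            rw [Finset.sum_const, Finset.card_range, nsmul_eq_mul]
        _ ≤ _ := Finset.sum_le_sum fun i _ => hEvol _ (hIX _ (hpI _))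
    rw [← h3] at h5
    have h6 : (N : ENNReal) * ENNReal.ofReal D ≤ ENNReal.ofReal 6 := by
      refine h5.trans ((mul_le_mul_right h4 2).trans ?_)
      rw [show (2 : ENNReal) = ENNReal.ofReal 2 by norm_num, ← ENNReal.ofReal_mul (by norm_num)]
      norm_num
    rw [← ENNReal.ofReal_natCast, ← ENNReal.ofReal_mul (Nat.cast_nonneg N), ENNReal.ofReal_le_ofReal_iff (by norm_num)]
      at h6
    linarith
  obtain ⟨a, b, hab, hI⟩ := harc (I s) (hIc s) (hconn s) (hIX s) i j hij hsi.1 hsj.1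
  have hstep : ∀ s', ∀ v ∈ Ioo (a - s) (b - s), I (s' + v) ⊆ I s' := by
    intro s' v hv
    have h3 := hinc (a := a - s) (b := b - s) (d' := 0) (t := s) (fun v hv => by
      rw [add_zero, union_self]
      exact hI _ ⟨by linarith [hv.1], by linarith [hv.2]⟩) s' v hv
    rwa [add_zero, union_self] at h3
  have hiter : ∀ k : ℕ, ∀ s', ∀ v ∈ Ioo ((k + 1 : ℝ) * (a - s)) ((k + 1 : ℝ) * (b - s)), I (s' + v) ⊆ I s' := by
    intro k
    induction k with
    | zero =>
      intro s' v hv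
      refine hstep s' v ⟨?_, ?_⟩
      · have := hv.1
        push_cast at this
        linarith
      · have := hv.2
        push_cast at this
        linarith
    | succ k ih =>
      intro s' v hv
      obtain ⟨hv1, hv2⟩ := hv
      push_cast at hv1 hv2
      have hk : (0 : ℝ) < (k : ℝ) + 1 + 1 := by positivity
      have hk' : (0 : ℝ) < (k : ℝ) + 1 := by positivity
      obtain ⟨w, hw⟩ : ∃ w, w = v / ((k : ℝ) + 1 + 1) := ⟨_, rfl⟩
      have hvw : v = ((k : ℝ) + 1 + 1) * w := by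
        rw [hw]
        field_simp
      have hw1 : a - s < w := by
        rw [hvw] at hv1
        exact lt_of_mul_lt_mul_left hv1 hk.le
      have hw2 : w < b - s := by
        rw [hvw] at hv2
        exact lt_of_mul_lt_mul_left hv2 hk.le
      have h3 : s' + v = s' + ((k : ℝ) + 1) * w + w := by
        rw [hvw]
        ring
      rw [h3]
      refine (hstep _ w ⟨hw1, hw2⟩).trans (ih s' _ ⟨?_, ?_⟩)
      · exact mul_lt_mul_of_pos_left hw1 hk'
      · exact mul_lt_mul_of_pos_left hw2 hk'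
  obtain ⟨k, hk⟩ : ∃ k : ℕ, 1 < (k + 1 : ℝ) * ((b - s) - (a - s)) := by
    obtain ⟨k, hk⟩ := exists_nat_gt (1 / (b - a))
    refine ⟨k, ?_⟩
    have h3 : 0 < b - a := by linarith
    rw [div_lt_iff₀ h3] at hk
    have h4 : (k + 1 : ℝ) * ((b - s) - (a - s)) = k * (b - a) + (b - a) := by ring
    rw [h4]
    linarith
  refine hno s fun x hx => ?_
  rw [← hX] at hx
  obtain ⟨r, hr⟩ := mem_iUnion.1 hx
  -- shift `r` into the interval
  obtain ⟨L, hL⟩ : ∃ L, L = (k + 1 : ℝ) * (a - s) := ⟨_, rfl⟩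
  obtain ⟨L', hL'⟩ : ∃ L', L' = (k + 1 : ℝ) * (b - s) := ⟨_, rfl⟩
  have hLL : L + 1 < L' := by
    rw [hL, hL']
    rw [mul_sub] at hk
    linarith
  have h3 := hiter k s (r + ((⌊L - (r - s)⌋ + 1 : ℤ) : ℝ) - s) ⟨by
    rw [← hL]
    push_cast
    linarith [Int.lt_floor_add_one (L - (r - s))], by
    rw [← hL']
    push_cast
    linarith [Int.floor_le (L - (r - s))]⟩
  refine h3 ?_
  rw [add_sub_cancel, hperZ]
  exact hr

end Pool.Agent.Helper66.QJ
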