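import Pool.Agent.Helper66.QJ.Branch

/-!
# Contraction of inverse branches (MP_a03adf_an)

`contraction` and `fixed_limit`, see the file `Branch`.
-/

set_option autoImplicit false

open Set Topology Metric Bornology Filter

namespace Pool.Agent.Helper66.QJ

variable {c : ℂ} {L Q : Set ℂ} {g : ℕ → ℂ → ℂ} {q : ℕ → ℂ}

theorem contraction (h : Chain c L Q g q) {N : Set ℂ} (hN : IsOpen N) (hNQ : N ⊆ Q) (hLN : L ⊆ N) (hQ : IsCompact Q)
    (hc : ∀ k, (f c)^[k] c ∉ N) (hL : IsCompact L) (hLc : IsPreconnected L) (hLB : L ⊆ Bas c) {ε : ℝ} (hε : 0 < ε) :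
    ∀ᶠ n in atTop, ∀ x ∈ L, ∀ y ∈ L, ‖g n x - g n y‖ < ε := by
  classical
  by_contra hcon
  rw [not_eventually] at hcon
  obtain ⟨φ, hφ, hφ2⟩ := extraction_of_frequently_atTop hcon
  obtain ⟨M, hM⟩ := hQ.isBounded.exists_norm_le
  have hM0 : 0 ≤ max (R0 c) M := (R0_pos c).le.trans (le_max_left _ _)
  let G : ℕ → ℂ → ℂ := fun j z => if z ∈ N then g (φ j) z else 0
  have hG : ∀ j, ∀ z ∈ N, G j z = g (φ j) z := fun j z hz => if_pos hz
  have hGb : ∀ j z, ‖G j z‖ ≤ max (R0 c) M := by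
    intro j z
    by_cases hz : z ∈ N
    · rw [hG j z hz]
      exact h.bound hM _ (hNQ hz)
    · show ‖if z ∈ N then g (φ j) z else 0‖ ≤ _
      rw [if_neg hz, norm_zero]
      exact hM0
  have hGd : ∀ j, DifferentiableOn ℂ (G j) N := fun j => (h.diff hN hNQ hc (φ j)).congr (hG j)
  obtain ⟨l, k, hk, hl⟩ := Helper39.exists_subseq_tendstoLocallyUniformlyOn hN hGb (fun z hz => by
    obtain ⟨r, hr, hrN⟩ := Metric.isOpen_iff.1 hN z hz
    refine ⟨r / 2, by positivity, 2 * max (R0 c) M / (r / 2), Eventually.of_forall fun j => ?_⟩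
    refine Helper39.lipschitz_of_bounded (by positivity) ((hGd j).mono ?_) fun w _ => hGb j w
    rwa [show 2 * (r / 2) = r by ring])
  have hld : DifferentiableOn ℂ l N := hl.differentiableOn (Eventually.of_forall fun j => hGd (k j)) hN
  have hunif := (tendstoLocallyUniformlyOn_iff_forall_isCompact hN).1 hl
  -- the limit is not locally constant somewhere on `L`
  obtain ⟨x1, hx1, hx1f⟩ : ∃ x1 ∈ L, ∃ᶠ z in 𝓝 x1, l z ≠ l x1 := by
    by_contra hno
    push Not at hno
    have hconst : ∀ x ∈ L, ∀ y ∈ L, l x = l y := by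
      intro x hx y hy
      refine hLc.induction₂' (fun x y => l x = l y) (fun x hx => ?_) (fun x y z _ _ _ h1 h2 => h1.trans h2) hx hy
      have h1 : ∀ᶠ z in 𝓝 x, l z = l x := hno x hx
      filter_upwards [mem_nhdsWithin_of_mem_nhds h1] with z hz
      have hz' : l z = l x := hz
      exact ⟨hz'.symm, hz'⟩
    have h1 := Metric.tendstoUniformlyOn_iff.1 (hunif L hLN hL) (ε / 2) (by positivity)
    obtain ⟨j, hj⟩ := h1.exists
    apply hφ2 (k j)
    intro x hx y hy
    have h2 := hj x hx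
    have h3 := hj y hy
    rw [hG _ x (hLN hx), dist_comm, dist_eq_norm] at h2
    rw [hG _ y (hLN hy), dist_eq_norm] at h3
    calc ‖g (φ (k j)) x - g (φ (k j)) y‖ = ‖(g (φ (k j)) x - l x) + (l y - g (φ (k j)) y)‖ := by
          rw [hconst x hx y hy]
          congr 1
          ring
      _ ≤ ‖g (φ (k j)) x - l x‖ + ‖l y - g (φ (k j)) y‖ := norm_add_le _ _
      _ < ε := by linarith
  have hx1N : x1 ∈ N := hLN hx1
  have han : AnalyticAt ℂ l x1 := hld.analyticAt (hN.mem_nhds hx1N)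
  have hiso : ∀ᶠ z in 𝓝[≠] x1, l z ≠ l x1 := by
    rcases han.eventually_eq_or_eventually_ne (g := fun _ => l x1) analyticAt_const with h1 | h1
    · exact absurd hx1f (by
        rw [not_frequently]
        filter_upwards [h1] with z hz
        exact not_not.2 hz)
    · exact h1
  obtain ⟨r1, hr1, hr1N⟩ := Metric.isOpen_iff.1 hN x1 hx1N
  obtain ⟨r2, hr2, hr2l⟩ := Metric.mem_nhdsWithin_iff.1 hiso
  obtain ⟨r, hr, hrr1, hrr2⟩ : ∃ r : ℝ, 0 < r ∧ r < r1 ∧ r < r2 :=
    ⟨min r1 r2 / 2, by positivity, by linarith [min_le_left r1 r2, lt_min hr1 hr2], by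
      linarith [min_le_right r1 r2, lt_min hr1 hr2]⟩
  have hcb : closedBall x1 r ⊆ N := (closedBall_subset_ball hrr1).trans hr1N
  have hsph : ∀ z ∈ sphere x1 r, l z ≠ l x1 := fun z hz => hr2l
    ⟨mem_ball.2 ((mem_sphere.1 hz).trans_lt hrr2), fun h => by
      rw [mem_singleton_iff.1 h, mem_sphere, dist_self] at hz
      exact hr.ne hz⟩
  obtain ⟨m, hm, hml⟩ : ∃ m : ℝ, 0 < m ∧ ∀ z ∈ sphere x1 r, m ≤ ‖l z - l x1‖ := by
    have hcont : ContinuousOn (fun z => ‖l z - l x1‖) (sphere x1 r) :=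
      ((hld.continuousOn.mono (sphere_subset_closedBall.trans hcb)).sub continuousOn_const).norm
    obtain ⟨z0, hz0, hmin⟩ := (isCompact_sphere x1 r).exists_isMinOn
      (NormedSpace.sphere_nonempty.2 hr.le) hcont
    exact ⟨‖l z0 - l x1‖, norm_pos_iff.2 (sub_ne_zero.2 (hsph z0 hz0)), fun z hz => hmin hz⟩
  have hu := Metric.tendstoUniformlyOn_iff.1 (hunif _ hcb (isCompact_closedBall x1 r)) (m / 8) (by positivity)
  have hlB : l x1 ∈ Bas c := by
    refine isClosed_closure.mem_of_tendsto ((hunif _ hcb (isCompact_closedBall x1 r)).tendsto_at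
      (mem_closedBall_self hr.le)) (Eventually.of_forall fun j => ?_)
    rw [hG _ x1 hx1N]
    exact (h.mem_Bas _ (hNQ hx1N)).2 (hLB hx1)
  obtain ⟨a, ha, hal⟩ := Metric.mem_closure_iff.1 hlB (m / 8) (by positivity)
  obtain ⟨N0, hN0⟩ := escape (c := c) ha M
  have hN0' := hN0.self_of_nhds
  have hlarge : ∀ᶠ j in atTop, N0 ≤ φ (k j) := (hφ.comp hk).tendsto_atTop.eventually_ge_atTop N0
  obtain ⟨j, hj, hjN⟩ := (hu.and hlarge).exists
  have hx1c : dist (l x1) (G (k j) x1) < m / 8 := hj x1 (mem_closedBall_self hr.le)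
  have hsub : ball (G (k j) x1) (m / 2 / 2) ⊆ G (k j) '' closedBall x1 r := by
    refine DiffContOnCl.ball_subset_image_closedBall ((hGd (k j)).diffContOnCl_ball hcb) hr (fun z hz => ?_) ?_
    · have h1 := hml z hz
      have h2 := hj z (sphere_subset_closedBall hz)
      rw [dist_eq_norm] at h2
      rw [dist_comm, dist_eq_norm] at hx1c
      have h3 : ‖l z - l x1‖ ≤ ‖l z - G (k j) z‖ + ‖G (k j) z - G (k j) x1‖ + ‖G (k j) x1 - l x1‖ := by
        have : l z - l x1 = (l z - G (k j) z) + (G (k j) z - G (k j) x1) + (G (k j) x1 - l x1) := by ring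
        rw [this]
        exact norm_add₃_le
      linarith
    · have h1 : ∃ᶠ z in 𝓝 x1, z ≠ x1 := by
        have : (𝓝[≠] x1).NeBot := inferInstance
        exact frequently_mem_iff_neBot.2 this
      have h2 : ∀ᶠ z in 𝓝 x1, z ∈ N := hN.mem_nhds hx1N
      refine (h1.and_eventually h2).mono fun z hz => ?_
      rw [hG _ z hz.2, hG _ x1 hx1N]
      exact fun h3 => hz.1 (h.inj _ (hNQ hz.2) (hNQ hx1N) h3)
  obtain ⟨y, hy, hya⟩ := hsub (show a ∈ ball (G (k j) x1) (m / 2 / 2) by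
    rw [mem_ball]
    calc dist a (G (k j) x1) ≤ dist a (l x1) + dist (l x1) (G (k j) x1) := dist_triangle _ _ _
      _ < m / 8 + m / 8 := by
          rw [dist_comm] at hal
          exact add_lt_add hal hx1c
      _ = m / 2 / 2 := by ring)
  have hyN : y ∈ N := hcb hy
  rw [hG _ y hyN] at hya
  have h1 := h.iter (φ (k j)) (hNQ hyN)
  rw [hya] at h1
  have h2 := hN0' _ hjN
  rw [h1] at h2
  exact absurd (hM y (hNQ hyN)) (not_le.2 h2)

theorem fixed_limit (h : Chain c L Q g q) {N : Set ℂ} (hN : IsOpen N) (hNQ : N ⊆ Q) (hLN : L ⊆ N) (hQ : IsCompact Q)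
    (hc : ∀ k, (f c)^[k] c ∉ N) (hL : IsCompact L) (hLc : IsPreconnected L) (hLB : L ⊆ Bas c) :
    ∃ b, f c b = b ∧ b ∈ J c ∧ ∀ ε : ℝ, 0 < ε → ∀ᶠ n in atTop, ∀ x ∈ L, ‖g n x - b‖ < ε := by
  have hcon : ∀ {ε : ℝ}, 0 < ε → ∀ᶠ n in atTop, ∀ x ∈ L, ∀ y ∈ L, ‖g n x - g n y‖ < ε :=
    fun hε => contraction h hN hNQ hLN hQ hc hL hLc hLB hε
  have hstep : ∀ {ε : ℝ}, 0 < ε → ∀ᶠ n in atTop, ‖q (n + 1) - q n‖ < ε := by
    intro ε hε
    have h1 := (tendsto_add_atTop_nat 1).eventually (hcon hε)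
    filter_upwards [h1] with n hn
    obtain ⟨x, hx, hxq⟩ := h.mem (n + 1)
    obtain ⟨y, hy, hyq⟩ := h.mem' n
    rw [← hxq, ← hyq]
    exact hn x hx y hy
  -- the fixed points
  obtain ⟨s, hs⟩ := IsAlgClosed.exists_pow_nat_eq (1 - 4 * c) (n := 2) (by norm_num)
  obtain ⟨b1, b2, hb1, hb2, hfac⟩ : ∃ b1 b2 : ℂ, f c b1 = b1 ∧ f c b2 = b2 ∧ ∀ z, f c z - z = (z - b1) * (z - b2) := by
    refine ⟨(1 + s) / 2, (1 - s) / 2, ?_, ?_, fun z => ?_⟩
    · rw [f]
      linear_combination (1 / 4 : ℂ) * hs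
    · rw [f]
      linear_combination (1 / 4 : ℂ) * hs
    · rw [f]
      linear_combination (1 / 4 : ℂ) * hs
  have hprod : ∀ {ε : ℝ}, 0 < ε → ∀ᶠ n in atTop, ‖q n - b1‖ * ‖q n - b2‖ < ε := by
    intro ε hε
    obtain ⟨n0, hn0⟩ := eventually_atTop.1 (hstep hε)
    rw [eventually_atTop]
    refine ⟨n0 + 1, fun n hn => ?_⟩
    obtain ⟨m, rfl⟩ : ∃ m, n = m + 1 := ⟨n - 1, by omega⟩
    have h1 := hn0 m (by omega)
    rw [← norm_mul, ← hfac, h.fq, norm_sub_rev]
    exact h1
  have hqlim : ∃ b, f c b = b ∧ ∀ ε : ℝ, 0 < ε → ∀ᶠ n in atTop, ‖q n - b‖ < ε := by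
    by_cases hb : b1 = b2
    · refine ⟨b1, hb1, fun ε hε => ?_⟩
      filter_upwards [hprod (ε := ε ^ 2) (by positivity)] with n hn
      rw [← hb, ← sq] at hn
      exact lt_of_pow_lt_pow_left₀ 2 hε.le hn
    · have hd : 0 < ‖b1 - b2‖ := norm_pos_iff.2 (sub_ne_zero.2 hb)
      obtain ⟨d, hd0⟩ : ∃ d, d = ‖b1 - b2‖ := ⟨_, rfl⟩
      rw [← hd0] at hd
      obtain ⟨n0, hn0⟩ := eventually_atTop.1 ((hprod (ε := (d / 4) * (d / 4)) (by positivity)).and
        (hstep (ε := d / 4) (by positivity)))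
      have hor : ∀ n, n0 ≤ n → ‖q n - b1‖ < d / 4 ∨ ‖q n - b2‖ < d / 4 := by
        intro n hn
        by_contra hcon2
        push Not at hcon2
        have h1 := (hn0 n hn).1
        have h2 := mul_le_mul hcon2.1 hcon2.2 (by positivity) (norm_nonneg _)
        linarith
      -- staying near one of the two fixed points
      have hstay : ∀ a b : ℂ, ‖a - b‖ = d → (∀ n, n0 ≤ n → ‖q n - a‖ < d / 4 ∨ ‖q n - b‖ < d / 4) →
          ‖q n0 - a‖ < d / 4 → ∀ n, n0 ≤ n → ‖q n - a‖ < d / 4 := by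
        intro a b hab hor ha n hn
        induction n, hn using Nat.le_induction with
        | base => exact ha
        | succ n hn ih =>
          rcases hor (n + 1) (by omega) with h1 | h1
          · exact h1
          · exfalso
            have h2 := (hn0 n hn).2
            have h3 : ‖a - b‖ ≤ ‖q n - a‖ + ‖q (n + 1) - q n‖ + ‖q (n + 1) - b‖ := by
              have : a - b = -(q n - a) + -(q (n + 1) - q n) + (q (n + 1) - b) := by ring
              rw [this]
              refine norm_add₃_le.trans ?_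
              rw [norm_neg, norm_neg]
            rw [hab] at h3
            linarith
      have hlim : ∀ a b : ℂ, ‖a - b‖ = d → (∀ {ε : ℝ}, 0 < ε → ∀ᶠ n in atTop, ‖q n - a‖ * ‖q n - b‖ < ε) →
          (∀ n, n0 ≤ n → ‖q n - a‖ < d / 4) → ∀ ε : ℝ, 0 < ε → ∀ᶠ n in atTop, ‖q n - a‖ < ε := by
        intro a b hab hpr hst ε hε
        filter_upwards [hpr (ε := ε * (d / 2)) (by positivity), eventually_ge_atTop n0] with n hn hnn
        have h1 := hst n hnn
        have h2 : ‖a - b‖ ≤ ‖q n - a‖ + ‖q n - b‖ := by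
          have : a - b = -(q n - a) + (q n - b) := by ring
          rw [this]
          refine (norm_add_le _ _).trans ?_
          rw [norm_neg]
        rw [hab] at h2
        by_contra hcon3
        push Not at hcon3
        have h3 : d / 2 ≤ ‖q n - b‖ := by linarith
        have h4 := mul_le_mul hcon3 h3 (by positivity) (norm_nonneg _)
        linarith
      rcases hor n0 le_rfl with h1 | h1
      · exact ⟨b1, hb1, hlim b1 b2 hd0.symm hprod (hstay b1 b2 hd0.symm hor h1)⟩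
      · have hab : ‖b2 - b1‖ = d := by rw [norm_sub_rev, hd0]
        refine ⟨b2, hb2, hlim b2 b1 hab (fun hε => ?_) (hstay b2 b1 hab (fun n hn => (hor n hn).symm) h1)⟩
        filter_upwards [hprod hε] with n hn
        rwa [mul_comm]
  obtain ⟨b, hfb, hb⟩ := hqlim
  refine ⟨b, hfb, ?_, fun ε hε => ?_⟩
  · rw [mem_J_iff]
    constructor
    · show IsBounded (range fun n : ℕ => (f c)^[n] b)
      have h1 : (range fun n : ℕ => (f c)^[n] b) ⊆ {b} := by
        rintro _ ⟨n, rfl⟩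
        exact Function.iterate_fixed hfb n
      exact isBounded_singleton.subset h1
    · have ht : Tendsto q atTop (𝓝 b) := by
        rw [Metric.tendsto_nhds]
        intro ε hε
        filter_upwards [hb ε hε] with n hn
        rwa [dist_eq_norm]
      refine isClosed_closure.mem_of_tendsto ht (Eventually.of_forall fun n => ?_)
      obtain ⟨x, hx, hxq⟩ := h.mem n
      rw [← hxq]
      exact (h.mem_Bas n (hNQ (hLN hx))).2 (hLB hx)
  · filter_upwards [hb (ε / 2) (by positivity), hcon (ε := ε / 2) (by positivity)] with n h1 h2 x hx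
    obtain ⟨y, hy, hyq⟩ := h.mem n
    have h3 := h2 x hx y hy
    rw [hyq] at h3
    calc ‖g n x - b‖ = ‖(g n x - q n) + (q n - b)‖ := by
          congr 1
          ring
      _ ≤ ‖g n x - q n‖ + ‖q n - b‖ := norm_add_le _ _
      _ < ε := by linarith

/-- a sequence of compact sets converging to a point, together with the point, is closed -/
theorem isClosed_union_limit {A : ℕ → Set ℂ} (hA : ∀ n, IsCompact (A n)) {b : ℂ}
    (hb : ∀ ε : ℝ, 0 < ε → ∀ᶠ n in atTop, ∀ x ∈ A n, ‖x - b‖ < ε) : IsClosed ((⋃ n, A n) ∪ {b}) := by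
  rw [← isOpen_compl_iff, Metric.isOpen_iff]
  intro z hz
  have hzb : z ≠ b := fun h => hz (Or.inr h)
  have hd : 0 < dist z b := dist_pos.2 hzb
  obtain ⟨n0, hn0⟩ := eventually_atTop.1 (hb (dist z b / 2) (by positivity))
  have hfin : IsClosed (⋃ n ∈ Finset.range n0, A n) :=
    (Finset.range n0).finite_toSet.isClosed_biUnion fun n _ => (hA n).isClosed
  have hzf : z ∈ (⋃ n ∈ Finset.range n0, A n)ᶜ := fun h => hz (Or.inl (by
    obtain ⟨n, -, hn⟩ := Set.mem_iUnion₂.1 h
    exact Set.mem_iUnion.2 ⟨n, hn⟩))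
  obtain ⟨r, hr, hrs⟩ := Metric.isOpen_iff.1 hfin.isOpen_compl z hzf
  refine ⟨min r (dist z b / 2), lt_min hr (by positivity), fun y hy hyA => ?_⟩
  rw [mem_ball] at hy
  rcases hyA with hyA | hyA
  · obtain ⟨n, hn⟩ := Set.mem_iUnion.1 hyA
    by_cases hnn : n < n0
    · exact hrs (mem_ball.2 (hy.trans_le (min_le_left _ _))) (Set.mem_iUnion₂.2 ⟨n, Finset.mem_range.2 hnn, hn⟩)
    · have h1 := hn0 n (not_lt.1 hnn) y hn
      rw [← dist_eq_norm] at h1
      have h2 := dist_triangle_left z b y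
      have h3 := hy.trans_le (min_le_right r (dist z b / 2))
      linarith
  · rw [mem_singleton_iff.1 hyA, dist_comm] at hy
    have h3 := hy.trans_le (min_le_right r (dist z b / 2))
    linarith

end Pool.Agent.Helper66.QJ
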