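import Pool.Agent.Helper66.QJ.Plane

/-!
# Quadratic Julia sets: elementary facts (MP_a03adf_an)

`f c z = z ^ 2 + c`, `K c` the points with bounded orbit, `J c` its frontier. For `0 ∈ K c` the sets `K c`, its complement and
`J c` are connected (`J` by unicoherence of the plane). `exists_far`: every point outside `K` lies in a closed connected
unbounded set outside `K`.
-/

set_option autoImplicit false

open Set Topology Metric Bornology

namespace Pool.Agent.Helper66.QJ

/-- the map `z ^ 2 + c` -/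
def f (c z : ℂ) : ℂ := z ^ 2 + c

/-- the filled Julia set -/
def K (c : ℂ) : Set ℂ := {z | IsBounded (range fun n : ℕ => (f c)^[n] z)}

/-- the Julia set -/
def J (c : ℂ) : Set ℂ := frontier (K c)

/-- an escape radius -/
noncomputable def R0 (c : ℂ) : ℝ := ‖c‖ + 2

variable {c : ℂ}

theorem continuous_f (c : ℂ) : Continuous (f c) := by
  unfold f
  fun_prop

theorem f_neg (c z : ℂ) : f c (-z) = f c z := by
  unfold f
  ring

theorem f_eq_iff {x y : ℂ} : f c x = f c y ↔ x = y ∨ x = -y := by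
  unfold f
  rw [add_left_inj]
  exact sq_eq_sq_iff_eq_or_eq_neg

theorem isClosedMap_f (c : ℂ) : IsClosedMap (f c) :=
  (Homeomorph.addRight c).isClosedMap.comp (isClosedMap_pow ℂ 2)

theorem isOpenMap_f (c : ℂ) : IsOpenMap (f c) := by
  have h1 : AnalyticOnNhd ℂ (f c) univ := by
    have h2 : Differentiable ℂ (f c) := by
      unfold f
      fun_prop
    exact h2.differentiableOn.analyticOnNhd isOpen_univ
  rcases h1.is_constant_or_isOpenMap with ⟨w, hw⟩ | h
  · exfalso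
    have h3 := hw 0
    have h4 := hw 1
    unfold f at h3 h4
    rw [← h3] at h4
    simp at h4
  · exact h

theorem surj_f (c y : ℂ) : ∃ z, f c z = y := by
  obtain ⟨z, hz⟩ := IsAlgClosed.exists_pow_nat_eq (y - c) (n := 2) (by norm_num)
  exact ⟨z, by rw [f, hz]; ring⟩

theorem R0_pos (c : ℂ) : 0 < R0 c := by
  unfold R0
  positivity

theorem norm_f_ge {z : ℂ} (hz : R0 c ≤ ‖z‖) : 2 * ‖z‖ ≤ ‖f c z‖ := by
  have h1 : ‖z‖ ^ 2 - ‖c‖ ≤ ‖f c z‖ := by
    have := norm_sub_norm_le (z ^ 2) (-c)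
    rw [norm_neg, norm_pow, sub_neg_eq_add] at this
    exact this
  have h2 : (‖c‖ + 2) * ‖z‖ ≤ ‖z‖ ^ 2 := by
    rw [sq]
    exact mul_le_mul_of_nonneg_right hz (norm_nonneg z)
  have h3 : (1 : ℝ) ≤ ‖z‖ := by
    unfold R0 at hz
    linarith [norm_nonneg c]
  nlinarith [norm_nonneg c]

theorem iter_ge {z : ℂ} (hz : R0 c ≤ ‖z‖) (n : ℕ) : 2 ^ n * ‖z‖ ≤ ‖(f c)^[n] z‖ := by
  induction n with
  | zero => simp
  | succ n ih =>
    rw [Function.iterate_succ_apply']
    have h1 : R0 c ≤ ‖(f c)^[n] z‖ := by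
      refine hz.trans (le_trans ?_ ih)
      exact le_mul_of_one_le_left (norm_nonneg z) (one_le_pow₀ (by norm_num))
    have h2 := norm_f_ge h1
    rw [pow_succ]
    linarith

theorem iter_tendsto (c : ℂ) (M : ℝ) : ∃ N : ℕ, ∀ n, N ≤ n → ∀ y : ℂ, R0 c ≤ ‖y‖ → M < ‖(f c)^[n] y‖ := by
  obtain ⟨N, hN⟩ := pow_unbounded_of_one_lt (M / R0 c) (by norm_num : (1 : ℝ) < 2)
  refine ⟨N, fun n hn y hy => ?_⟩
  have h1 := iter_ge hy n
  have h2 : (2 : ℝ) ^ N ≤ 2 ^ n := pow_le_pow_right₀ (by norm_num) hn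
  have h3 := R0_pos c
  have h4 : M < 2 ^ N * R0 c := by rwa [div_lt_iff₀ h3] at hN
  have h5 : (2 : ℝ) ^ N * R0 c ≤ 2 ^ n * ‖y‖ := mul_le_mul h2 hy h3.le (by positivity)
  linarith

theorem mem_K_iff {z : ℂ} : z ∈ K c ↔ ∀ n, ‖(f c)^[n] z‖ ≤ R0 c := by
  constructor
  · intro hz n
    by_contra hcon
    push Not at hcon
    obtain ⟨C, hC⟩ := IsBounded.exists_norm_le (s := range fun n : ℕ => (f c)^[n] z) hz
    obtain ⟨N, hN⟩ := iter_tendsto c C
    have h1 := hN N le_rfl _ hcon.le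
    have h2 := hC ((f c)^[N + n] z) ⟨N + n, rfl⟩
    rw [Function.iterate_add_apply] at h2
    linarith
  · intro h
    show IsBounded (range fun n : ℕ => (f c)^[n] z)
    refine isBounded_iff_forall_norm_le.2 ⟨R0 c, ?_⟩
    rintro _ ⟨n, rfl⟩
    exact h n

theorem f_mem_K_iff {z : ℂ} : f c z ∈ K c ↔ z ∈ K c := by
  rw [mem_K_iff, mem_K_iff]
  constructor
  · intro h n
    cases n with
    | zero =>
      by_contra hcon
      push Not at hcon
      have h1 := norm_f_ge (c := c) (z := z) (by simpa using hcon.le)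
      have h2 := h 0
      simp only [Function.iterate_zero, id_eq] at h2 hcon
      have h3 := R0_pos c
      linarith
    | succ n =>
      rw [Function.iterate_succ_apply]
      exact h n
  · intro h n
    have := h (n + 1)
    rwa [Function.iterate_succ_apply] at this

theorem norm_le_of_mem_K {z : ℂ} (hz : z ∈ K c) : ‖z‖ ≤ R0 c := mem_K_iff.1 hz 0

theorem not_mem_K_of_lt {z : ℂ} (hz : R0 c < ‖z‖) : z ∉ K c := fun h => absurd (norm_le_of_mem_K h) (not_le.2 hz)

/-- the closed sets decreasing to `K` -/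
def Bn (c : ℂ) (n : ℕ) : Set ℂ := {z | ‖(f c)^[n] z‖ ≤ R0 c}

theorem K_eq (c : ℂ) : K c = ⋂ n, Bn c n := by
  ext z
  rw [mem_K_iff, mem_iInter]
  rfl

theorem isClosed_Bn (c : ℂ) (n : ℕ) : IsClosed (Bn c n) :=
  isClosed_le ((continuous_f c).iterate n).norm continuous_const

theorem isClosed_K (c : ℂ) : IsClosed (K c) := by
  rw [K_eq]
  exact isClosed_iInter fun n => isClosed_Bn c n

theorem Bn_anti (c : ℂ) (n : ℕ) : Bn c (n + 1) ⊆ Bn c n := by
  intro z hz
  show ‖(f c)^[n] z‖ ≤ R0 c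
  by_contra hcon
  push Not at hcon
  have h1 := norm_f_ge hcon.le
  have h2 : ‖(f c)^[n + 1] z‖ ≤ R0 c := hz
  rw [Function.iterate_succ_apply'] at h2
  have h3 := R0_pos c
  linarith

theorem Bn_anti' (c : ℂ) {m n : ℕ} (h : m ≤ n) : Bn c n ⊆ Bn c m := by
  induction n, h using Nat.le_induction with
  | base => exact subset_rfl
  | succ n _ ih => exact (Bn_anti c n).trans ih

theorem isCompact_Bn (c : ℂ) (n : ℕ) : IsCompact (Bn c n) := by
  refine (isCompact_closedBall (0 : ℂ) (R0 c)).of_isClosed_subset (isClosed_Bn c n) fun z hz => ?_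
  have : z ∈ Bn c 0 := Bn_anti' c (Nat.zero_le n) hz
  exact mem_closedBall_zero_iff.2 this

theorem isCompact_K (c : ℂ) : IsCompact (K c) := by
  refine (isCompact_Bn c 0).of_isClosed_subset (isClosed_K c) ?_
  rw [K_eq]
  exact iInter_subset _ 0

/-- the preimage of a connected set is connected if some point of it has all its preimages in a connected subset -/
theorem preimage_conn {E S : Set ℂ} (hE : IsPreconnected E) (hS : IsPreconnected S) (hSE : S ⊆ f c ⁻¹' E)
    {y : ℂ} (hy : y ∈ E) (hyS : ∀ z, f c z = y → z ∈ S) : IsPreconnected (f c ⁻¹' E) := by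
  intro u v hu hv huv hneu hnev
  by_contra hemp
  rw [Set.not_nonempty_iff_eq_empty] at hemp
  have hdis : ∀ z, f c z ∈ E → z ∈ u → z ∈ v → False := by
    intro z h1 h2 h3
    have : z ∈ f c ⁻¹' E ∩ (u ∩ v) := ⟨h1, h2, h3⟩
    rw [hemp] at this
    exact this
  -- the essential case
  have main : ∀ u v : Set ℂ, IsOpen u → IsOpen v → f c ⁻¹' E ⊆ u ∪ v → (f c ⁻¹' E ∩ v).Nonempty →
      (∀ z, f c z ∈ E → z ∈ u → z ∈ v → False) → S ⊆ u → False := by
    intro u v hu hv huv hnev hdis hSu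
    have hW1 : IsOpen (f c '' uᶜ)ᶜ := (isClosedMap_f c _ hu.isClosed_compl).isOpen_compl
    have hW2 : IsOpen (f c '' v) := isOpenMap_f c _ hv
    obtain ⟨q, hq, hqv⟩ := hnev
    have h1 : (E ∩ (f c '' uᶜ)ᶜ).Nonempty := by
      refine ⟨y, hy, ?_⟩
      rintro ⟨z, hz, hzy⟩
      exact hz (hSu (hyS z hzy))
    have h2 : (E ∩ f c '' v).Nonempty := ⟨f c q, hq, q, hqv, rfl⟩
    obtain ⟨w, hwE, hw1, z, hzv, hzw⟩ := hE _ _ hW1 hW2 (fun w hw => by
      by_cases h : w ∈ f c '' uᶜ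
      · obtain ⟨z, hz, hzw⟩ := h
        refine Or.inr ⟨z, ?_, hzw⟩
        exact (huv (show f c z ∈ E from hzw ▸ hw)).resolve_left hz
      · exact Or.inl h) h1 h2
    have hzu : z ∈ u := by
      by_contra h
      exact hw1 ⟨z, h, hzw⟩
    exact hdis z (hzw ▸ hwE) hzu hzv
  have h3 : S ⊆ u ∨ S ⊆ v := by
    by_contra hcon
    push Not at hcon
    obtain ⟨⟨a, ha, hau⟩, ⟨b, hb, hbv⟩⟩ := And.imp Set.not_subset.1 Set.not_subset.1 hcon
    obtain ⟨z, hz, hz2⟩ := hS u v hu hv (hSE.trans huv) ⟨b, hb, (huv (hSE hb)).resolve_right hbv⟩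
      ⟨a, ha, (huv (hSE ha)).resolve_left hau⟩
    exact hdis z (hSE hz) hz2.1 hz2.2
  rcases h3 with h3 | h3
  · exact main u v hu hv huv hnev hdis h3
  · exact main v u hv hu (by rwa [union_comm]) hneu (fun z h1 h2 h3 => hdis z h1 h3 h2) h3

theorem preimage_conn0 {E : Set ℂ} (hE : IsPreconnected E) (hc : c ∈ E) : IsPreconnected (f c ⁻¹' E) := by
  refine preimage_conn (S := {0}) (y := c) hE isPreconnected_singleton ?_ hc fun z hz => ?_
  · rintro z hz
    rw [mem_singleton_iff.1 hz]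
    show f c 0 ∈ E
    rw [f]
    simpa using hc
  · unfold f at hz
    simpa using hz

theorem preimage_iter_conn {E : Set ℂ} (hE : IsPreconnected E) (n : ℕ)
    (hc : ∀ k, k < n → (f c)^[k] c ∈ E) : IsPreconnected ((f c)^[n] ⁻¹' E) := by
  induction n with
  | zero => simpa using hE
  | succ n ih =>
    have h1 : (f c)^[n + 1] ⁻¹' E = f c ⁻¹' ((f c)^[n] ⁻¹' E) := by
      rw [Function.iterate_succ, preimage_comp]
    rw [h1]
    exact preimage_conn0 (ih fun k hk => hc k (hk.trans (Nat.lt_succ_self n))) (hc n (Nat.lt_succ_self n))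

/-- nested intersections of compact connected sets -/
theorem iInter_conn {B : ℕ → Set ℂ} (hB : ∀ n, IsCompact (B n)) (hBc : ∀ n, IsPreconnected (B n))
    (ha : ∀ {m n : ℕ}, m ≤ n → B n ⊆ B m) : IsPreconnected (⋂ n, B n) := by
  rw [isPreconnected_closed_iff]
  intro t t' ht ht' hsub ⟨p, hp, hpt⟩ ⟨q, hq, hqt⟩
  by_contra hemp
  rw [Set.not_nonempty_iff_eq_empty] at hemp
  have hcl : IsClosed (⋂ n, B n) := isClosed_iInter fun n => (hB n).isClosed
  obtain ⟨U, V, hU, hV, htU, htV, hUV⟩ := normal_separation (hcl.inter ht) (hcl.inter ht') (by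
    rw [Set.disjoint_iff_inter_eq_empty, ← hemp]
    ext z
    simp only [mem_inter_iff]
    tauto)
  have hex : ∃ n, B n \ (U ∪ V) = ∅ := by
    by_contra hcon
    push Not at hcon
    obtain ⟨z, hz⟩ := IsCompact.nonempty_iInter_of_directed_nonempty_isCompact_isClosed (fun n => B n \ (U ∪ V))
      (fun m n => ⟨max m n, fun z hz => ⟨ha (le_max_left m n) hz.1, hz.2⟩,
        fun z hz => ⟨ha (le_max_right m n) hz.1, hz.2⟩⟩)
      (fun n => hcon n) (fun n => (hB n).diff (hU.union hV))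
      (fun n => (hB n).isClosed.sdiff (hU.union hV))
    rw [mem_iInter] at hz
    have hzB : z ∈ ⋂ n, B n := mem_iInter.2 fun n => (hz n).1
    have hzn := (hz 0).2
    rcases hsub hzB with h | h
    · exact hzn (Or.inl (htU ⟨hzB, h⟩))
    · exact hzn (Or.inr (htV ⟨hzB, h⟩))
  obtain ⟨n, hn⟩ := hex
  obtain ⟨z, -, hz⟩ := hBc n U V hU hV (fun z hz => by
    by_contra h
    have : z ∈ B n \ (U ∪ V) := ⟨hz, h⟩
    rw [hn] at this
    exact this) ⟨p, mem_iInter.1 hp n, htU ⟨hp, hpt⟩⟩ ⟨q, mem_iInter.1 hq n, htV ⟨hq, hqt⟩⟩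
  exact Set.disjoint_left.1 hUV hz.1 hz.2

theorem c_iter (c : ℂ) (n : ℕ) : (f c)^[n] c = (f c)^[n + 1] 0 := by
  rw [Function.iterate_succ_apply]
  congr 1
  unfold f
  ring

theorem isPreconnected_K (h0 : (0 : ℂ) ∈ K c) : IsPreconnected (K c) := by
  rw [K_eq]
  refine iInter_conn (isCompact_Bn c) (fun n => ?_) (Bn_anti' c)
  have h1 : Bn c n = (f c)^[n] ⁻¹' closedBall 0 (R0 c) := by
    ext z
    simp [Bn]
  rw [h1]
  refine preimage_iter_conn (isConnected_closedBall (R0_pos c).le).isPreconnected n fun k _ => ?_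
  rw [c_iter, mem_closedBall_zero_iff]
  exact mem_K_iff.1 h0 (k + 1)

/-- the neighbourhood of infinity -/
def Far (c : ℂ) : Set ℂ := {z | R0 c < ‖z‖}

theorem isPreconnected_Far (c : ℂ) : IsPreconnected (Far c) := by
  have h1 : Far c = (fun p : ℝ × ℝ => (p.1 : ℂ) * Complex.exp (p.2 * Complex.I)) '' (Ioi (R0 c) ×ˢ univ) := by
    ext z
    constructor
    · intro hz
      exact ⟨(‖z‖, Complex.arg z), ⟨hz, mem_univ _⟩, Complex.norm_mul_exp_arg_mul_I z⟩
    · rintro ⟨⟨r, t⟩, ⟨hr, -⟩, rfl⟩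
      show R0 c < ‖(r : ℂ) * Complex.exp (t * Complex.I)‖
      rw [norm_mul, Complex.norm_exp_ofReal_mul_I, mul_one, Complex.norm_real]
      exact lt_of_lt_of_le hr (le_abs_self r)
  rw [h1]
  exact (isPreconnected_Ioi.prod isPreconnected_univ).image _ (by fun_prop)

theorem isPreconnected_compl_K (c : ℂ) : IsPreconnected (K c)ᶜ := by
  have hmono : ∀ n, Far c ⊆ (f c)^[n] ⁻¹' Far c := by
    intro n z hz
    have h1 := iter_ge (c := c) (le_of_lt hz) n
    show R0 c < _
    refine lt_of_lt_of_le hz (le_trans ?_ h1)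
    exact le_mul_of_one_le_left (norm_nonneg z) (one_le_pow₀ (by norm_num))
  have hconn : ∀ n, IsPreconnected ((f c)^[n] ⁻¹' Far c) := by
    intro n
    induction n with
    | zero => simpa using isPreconnected_Far c
    | succ n ih =>
      have h1 : (f c)^[n + 1] ⁻¹' Far c = f c ⁻¹' ((f c)^[n] ⁻¹' Far c) := by
        rw [Function.iterate_succ, preimage_comp]
      rw [h1]
      -- a far point with far preimages
      have h2 : ∀ z : ℂ, f c z = ((R0 c + 1) ^ 2 + ‖c‖ : ℝ) → z ∈ Far c := by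
        intro z hz
        by_contra hcon
        have h3 : ‖z‖ ≤ R0 c := not_lt.1 hcon
        have h4 : ‖f c z‖ ≤ ‖z‖ ^ 2 + ‖c‖ := by
          rw [f, ← norm_pow]
          exact norm_add_le _ _
        rw [hz, Complex.norm_real, Real.norm_of_nonneg (by positivity)] at h4
        have h5 := R0_pos c
        nlinarith [norm_nonneg z]
      refine preimage_conn (S := Far c) (y := ((R0 c + 1) ^ 2 + ‖c‖ : ℝ)) ih (isPreconnected_Far c) ?_ ?_ h2
      · intro z hz
        have := hmono (n + 1) hz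
        rwa [h1] at this
      · apply hmono n
        show R0 c < ‖(((R0 c + 1) ^ 2 + ‖c‖ : ℝ) : ℂ)‖
        rw [Complex.norm_real, Real.norm_of_nonneg (by positivity)]
        have h5 := R0_pos c
        nlinarith [norm_nonneg c]
  have h1 : (K c)ᶜ = ⋃ n, (f c)^[n] ⁻¹' Far c := by
    ext z
    rw [mem_compl_iff, mem_K_iff, mem_iUnion]
    push Not
    rfl
  rw [h1]
  refine isPreconnected_iUnion ⟨((R0 c + 1 : ℝ) : ℂ), mem_iInter.2 fun n => hmono n ?_⟩ hconn
  show R0 c < ‖((R0 c + 1 : ℝ) : ℂ)‖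
  rw [Complex.norm_real, Real.norm_of_nonneg (by linarith [R0_pos c])]
  linarith

theorem J_sub_K (c : ℂ) : J c ⊆ K c := (isClosed_K c).frontier_subset

theorem isCompact_J (c : ℂ) : IsCompact (J c) := (isCompact_K c).of_isClosed_subset isClosed_frontier (J_sub_K c)

theorem isPreconnected_J (h0 : (0 : ℂ) ∈ K c) : IsPreconnected (J c) := by
  rw [J, frontier_eq_closure_inter_closure, (isClosed_K c).closure_eq]
  refine unicoherent (isClosed_K c) isClosed_closure (isPreconnected_K h0) (isPreconnected_compl_K c).closure ?_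
  refine eq_univ_of_forall fun z => ?_
  by_cases hz : z ∈ K c
  · exact Or.inl hz
  · exact Or.inr (subset_closure hz)

theorem f_mem_J_iff {z : ℂ} : f c z ∈ J c ↔ z ∈ J c := by
  have h1 := (isOpenMap_f c).preimage_frontier_eq_frontier_preimage (continuous_f c) (K c)
  have h2 : f c ⁻¹' K c = K c := by
    ext z
    exact f_mem_K_iff
  rw [h2] at h1
  have h3 : z ∈ f c ⁻¹' J c ↔ z ∈ J c := by
    rw [J, h1]
  exact h3

theorem neg_mem_J {z : ℂ} (hz : z ∈ J c) : -z ∈ J c := by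
  rw [← f_mem_J_iff, f_neg, f_mem_J_iff]
  exact hz

/-- points near a point outside `K` escape uniformly -/
theorem escape {z : ℂ} (hz : z ∉ K c) (M : ℝ) : ∃ N : ℕ, ∀ᶠ y in 𝓝 z, ∀ n, N ≤ n → M < ‖(f c)^[n] y‖ := by
  rw [mem_K_iff] at hz
  push Not at hz
  obtain ⟨m, hm⟩ := hz
  obtain ⟨N, hN⟩ := iter_tendsto c M
  refine ⟨m + N, ?_⟩
  have h1 : ContinuousAt (fun y => ‖(f c)^[m] y‖) z := (((continuous_f c).iterate m).norm).continuousAt
  filter_upwards [h1.eventually (lt_mem_nhds hm)] with y hy n hn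
  obtain ⟨k, rfl⟩ := Nat.exists_eq_add_of_le hn
  have h2 := hN (N + k) (Nat.le_add_right N k) _ hy.le
  rw [← Function.iterate_add_apply] at h2
  rwa [show m + N + k = N + k + m by ring]

/-- every point outside `K` lies in a closed connected unbounded set outside `K` -/
theorem exists_far {a : ℂ} (ha : a ∉ K c) : ∃ E : Set ℂ, IsClosed E ∧ IsPreconnected E ∧ ¬ IsBounded E ∧ a ∈ E ∧
    Disjoint E (K c) := by
  have hM : ((R0 c + 1 : ℝ) : ℂ) ∈ (K c)ᶜ := by
    apply not_mem_K_of_lt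
    rw [Complex.norm_real, Real.norm_of_nonneg (by linarith [R0_pos c])]
    linarith
  have hpc : IsPathConnected (K c)ᶜ :=
    (isClosed_K c).isOpen_compl.isConnected_iff_isPathConnected.1 ⟨⟨a, ha⟩, isPreconnected_compl_K c⟩
  obtain ⟨γ, hγ⟩ := hpc.joinedIn a ha _ hM
  have hray : ∀ t : ℝ, R0 c + 1 ≤ t → R0 c < ‖(t : ℂ)‖ := by
    intro t ht
    rw [Complex.norm_real]
    exact lt_of_lt_of_le (by linarith) (le_abs_self t)
  refine ⟨range γ ∪ (fun t : ℝ => (t : ℂ)) '' Ici (R0 c + 1), ?_, ?_, ?_, Or.inl ⟨0, γ.source⟩, ?_⟩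
  · exact (isCompact_range γ.continuous).isClosed.union
      (Complex.isometry_ofReal.isClosedEmbedding.isClosedMap _ isClosed_Ici)
  · exact (isPreconnected_range γ.continuous).union ((R0 c + 1 : ℝ) : ℂ) ⟨1, γ.target⟩ ⟨R0 c + 1, mem_Ici.2 le_rfl, rfl⟩
      (isPreconnected_Ici.image _ Complex.continuous_ofReal.continuousOn)
  · intro hb
    obtain ⟨C, hC⟩ := hb.exists_norm_le
    have h1 := hC ((max (R0 c + 1) (C + 1) : ℝ) : ℂ) (Or.inr ⟨_, mem_Ici.2 (le_max_left _ _), rfl⟩)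
    rw [Complex.norm_real] at h1
    have h2 := le_abs_self (max (R0 c + 1) (C + 1))
    have h3 := le_max_right (R0 c + 1) (C + 1)
    rw [Real.norm_eq_abs] at h1
    linarith
  · rw [Set.disjoint_left]
    rintro z (⟨t, rfl⟩ | ⟨t, ht, rfl⟩)
    · exact hγ t
    · exact not_mem_K_of_lt (hray t ht)

end Pool.Agent.Helper66.QJ
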