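import Pool.Agent.Helper66.QJ.Sep3
import Pool.Agent.Helper66.QJ.Dyn

/-!
# Impressions of prime ends (MP_a03adf_an)
-/

set_option autoImplicit false

open Set Topology Metric Bornology Filter

namespace Pool.Agent.Helper66.QJ

/-- the impression of the prime end with parameter `t` -/
def Imp (φ : ℂ → ℂ) (t : ℝ) : Set ℂ :=
  ⋂ n : ℕ, closure (φ '' (ball 0 1 ∩ ball (e t) (1 / ((n : ℝ) + 1))))

variable {φ : ℂ → ℂ}

theorem pos_n (n : ℕ) : 0 < 1 / ((n : ℝ) + 1) := Nat.one_div_pos_of_nat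

theorem ball_anti {x : ℂ} {m n : ℕ} (h : m ≤ n) : ball x (1 / ((n : ℝ) + 1)) ⊆ ball x (1 / ((m : ℝ) + 1)) :=
  ball_subset_ball (Nat.one_div_le_one_div h)

theorem Imp_anti {t : ℝ} {m n : ℕ} (h : m ≤ n) : closure (φ '' (ball 0 1 ∩ ball (e t) (1 / ((n : ℝ) + 1)))) ⊆
    closure (φ '' (ball 0 1 ∩ ball (e t) (1 / ((m : ℝ) + 1)))) :=
  closure_mono (image_mono (inter_subset_inter_right _ (ball_anti h)))

/-- small neighbourhoods are enough -/
theorem Imp_sub {t δ : ℝ} (hδ : 0 < δ) : Imp φ t ⊆ closure (φ '' (ball 0 1 ∩ ball (e t) δ)) := by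
  intro x hx
  obtain ⟨n, hn⟩ := exists_nat_one_div_lt hδ
  exact closure_mono (image_mono (inter_subset_inter_right _ (ball_subset_ball hn.le))) (mem_iInter.1 hx n)

theorem mem_Imp {t : ℝ} {x : ℂ} (h : ∀ δ : ℝ, 0 < δ → x ∈ closure (φ '' (ball 0 1 ∩ ball (e t) δ))) : x ∈ Imp φ t :=
  mem_iInter.2 fun n => h _ (pos_n n)

theorem Imp_closed (t : ℝ) : IsClosed (Imp φ t) := isClosed_iInter fun _ => isClosed_closure

theorem Imp_compact {B : ℝ} (hb : ∀ z ∈ ball (0 : ℂ) 1, ‖φ z‖ ≤ B) (t : ℝ) (n : ℕ) :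
    IsCompact (closure (φ '' (ball 0 1 ∩ ball (e t) (1 / ((n : ℝ) + 1))))) := by
  refine (isCompact_closedBall (0 : ℂ) B).of_isClosed_subset isClosed_closure (closure_minimal ?_ isClosed_closedBall)
  rintro _ ⟨w, hw, rfl⟩
  exact mem_closedBall_zero_iff.2 (hb w hw.1)

theorem isCompact_Imp {B : ℝ} (hb : ∀ z ∈ ball (0 : ℂ) 1, ‖φ z‖ ≤ B) (t : ℝ) : IsCompact (Imp φ t) :=
  (Imp_compact hb t 0).of_isClosed_subset (Imp_closed t) (iInter_subset _ 0)

theorem exists_near (t : ℝ) {δ : ℝ} (hδ : 0 < δ) : (ball (0 : ℂ) 1 ∩ ball (e t) δ).Nonempty := by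
  obtain ⟨r, hr1, hr2⟩ := exists_between (show max 0 (1 - δ) < 1 from max_lt one_pos (by linarith))
  have hr0 : 0 ≤ r := (le_max_left _ _).trans hr1.le
  refine ⟨(r : ℂ) * e t, ?_, ?_⟩
  · rw [mem_ball_zero_iff, norm_re hr0]
    exact hr2
  · rw [mem_ball, dist_eq_norm, show (r : ℂ) * e t - e t = ((r - 1 : ℝ) : ℂ) * e t by push_cast; ring, norm_mul, norm_e,
      mul_one, Complex.norm_real, Real.norm_eq_abs, abs_lt]
    constructor
    · linarith [(le_max_right 0 (1 - δ)).trans_lt hr1]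
    · linarith

theorem isConnected_Imp (hd : DifferentiableOn ℂ φ (ball 0 1)) {B : ℝ} (hb : ∀ z ∈ ball (0 : ℂ) 1, ‖φ z‖ ≤ B) (t : ℝ) :
    IsConnected (Imp φ t) := by
  constructor
  · refine IsCompact.nonempty_iInter_of_sequence_nonempty_isCompact_isClosed _ (fun n => ?_) (fun n => ?_)
      (Imp_compact hb t 0) (fun n => isClosed_closure)
    · exact Imp_anti (Nat.le_succ n)
    · exact ((exists_near t (pos_n n)).image φ).closure
  · refine iInter_conn (fun n => Imp_compact hb t n) (fun n => ?_) fun h => Imp_anti h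
    refine IsPreconnected.closure (IsPreconnected.image ?_ _ (hd.continuousOn.mono inter_subset_left))
    exact ((convex_ball _ _).inter (convex_ball _ _)).isPreconnected

theorem Imp_disjoint (hd : DifferentiableOn ℂ φ (ball 0 1)) (hi : InjOn φ (ball 0 1)) (t : ℝ) {x : ℂ}
    (hx : x ∈ Imp φ t) : x ∉ φ '' ball 0 1 := by
  rintro ⟨w, hw, rfl⟩
  have hwe : 0 < dist w (e t) := dist_pos.2 fun h => by
    rw [h, mem_ball_zero_iff, norm_e] at hw
    exact lt_irrefl _ hw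
  have h1 := Imp_sub (half_pos hwe) hx
  -- the image of a relatively closed set
  have h2 : φ w ∈ closure (φ '' (ball 0 1 ∩ closedBall (e t) (dist w (e t) / 2))) :=
    closure_mono (image_mono (inter_subset_inter_right _ ball_subset_closedBall)) h1
  have h3 := closure_img hd hi inter_subset_left (fun v hv hvc => ⟨hv, by
    have h4 : closure (ball (0 : ℂ) 1 ∩ closedBall (e t) (dist w (e t) / 2)) ⊆ closedBall (e t) (dist w (e t) / 2) :=
      closure_minimal inter_subset_right isClosed_closedBall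
    exact h4 hvc⟩) hw h2
  have h5 := mem_closedBall.1 h3.2
  linarith

theorem Imp_sub_closure (t : ℝ) : Imp φ t ⊆ closure (φ '' ball 0 1) := fun _ hx =>
  closure_mono (image_mono inter_subset_left) (mem_iInter.1 hx 0)

theorem Imp_period (t : ℝ) : Imp φ (t + 1) = Imp φ t := by
  have h1 : e (t + 1) = e t := e_eq_iff.2 ⟨1, by push_cast; ring⟩
  rw [Imp, Imp, h1]

theorem Imp_graph : IsClosed {q : ℝ × ℂ | q.2 ∈ Imp φ q.1} := by
  rw [← isOpen_compl_iff, isOpen_iff_mem_nhds]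
  rintro ⟨t, x⟩ hx
  have hx' : ∃ n : ℕ, x ∉ closure (φ '' (ball 0 1 ∩ ball (e t) (1 / ((n : ℝ) + 1)))) := by
    by_contra hcon
    push Not at hcon
    exact hx (mem_iInter.2 hcon)
  obtain ⟨n, hn⟩ := hx'
  have hU : (closure (φ '' (ball 0 1 ∩ ball (e t) (1 / ((n : ℝ) + 1)))))ᶜ ∈ 𝓝 x := isClosed_closure.isOpen_compl.mem_nhds hn
  have hV : {s : ℝ | dist (e s) (e t) < 1 / ((n : ℝ) + 1) / 2} ∈ 𝓝 t :=
    (isOpen_lt (continuous_e.dist continuous_const) continuous_const).mem_nhds (by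
      show dist (e t) (e t) < 1 / ((n : ℝ) + 1) / 2
      rw [dist_self]
      exact half_pos (pos_n n))
  filter_upwards [prod_mem_nhds hV hU] with q hq
  intro hqI
  have h1 := Imp_sub (half_pos (pos_n n)) (show q.2 ∈ Imp φ q.1 from hqI)
  refine hq.2 (closure_mono (image_mono (inter_subset_inter_right _ ?_)) h1)
  intro y hy
  have h2 : dist (e q.1) (e t) < 1 / ((n : ℝ) + 1) / 2 := hq.1
  rw [mem_ball] at hy ⊢
  linarith [dist_triangle y (e q.1) (e t)]

theorem iUnion_Imp (hd : DifferentiableOn ℂ φ (ball 0 1)) (hi : InjOn φ (ball 0 1)) :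
    ⋃ t, Imp φ t = frontier (φ '' ball 0 1) := by
  have hopen : IsOpen (φ '' ball 0 1) := open_img hd hi isOpen_ball Subset.rfl
  ext x
  rw [mem_iUnion, frontier, hopen.interior_eq]
  constructor
  · rintro ⟨t, ht⟩
    exact ⟨Imp_sub_closure t ht, Imp_disjoint hd hi t ht⟩
  · rintro ⟨hx, hxφ⟩
    obtain ⟨u, hu, hux⟩ := mem_closure_iff_seq_limit.1 hx
    choose w hw hwu using hu
    obtain ⟨w0, hw0, k, hk, hlim⟩ := (isCompact_closedBall (0 : ℂ) 1).tendsto_subseq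
      (fun n => ball_subset_closedBall (hw n))
    have hux' : Tendsto (fun n => φ (w (k n))) atTop (𝓝 x) := by
      have h1 : (fun n => φ (w (k n))) = fun n => u (k n) := funext fun n => hwu (k n)
      rw [h1]
      exact hux.comp hk.tendsto_atTop
    have hnorm : ‖w0‖ = 1 := by
      refine le_antisymm (mem_closedBall_zero_iff.1 hw0) (not_lt.1 fun hlt => hxφ ⟨w0, mem_ball_zero_iff.2 hlt, ?_⟩)
      have h2 : Tendsto (fun n => φ (w (k n))) atTop (𝓝 (φ w0)) :=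
        ((hd.continuousOn.continuousAt (isOpen_ball.mem_nhds (mem_ball_zero_iff.2 hlt))).tendsto.comp hlim)
      exact tendsto_nhds_unique h2 hux'
    obtain ⟨t, ht⟩ : ∃ t : ℝ, e t = w0 := by
      refine ⟨Complex.arg w0 / (2 * Real.pi), ?_⟩
      have h3 := Complex.norm_mul_exp_arg_mul_I w0
      rw [hnorm, Complex.ofReal_one, one_mul] at h3
      rw [← h3, e]
      congr 1
      rw [h3]
      push_cast
      field_simp
    refine ⟨t, mem_Imp fun δ hδ => ?_⟩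
    rw [mem_closure_iff_seq_limit]
    obtain ⟨N, hN⟩ := eventually_atTop.1 (hlim.eventually (Metric.ball_mem_nhds w0 hδ))
    refine ⟨fun n => φ (w (k (n + N))), fun n => ⟨w (k (n + N)), ⟨hw _, ?_⟩, rfl⟩,
      hux'.comp (tendsto_add_atTop_nat N)⟩
    rw [ht]
    exact hN (n + N) (by omega)

theorem Imp_rotate {α B : ℝ} {F : ℂ → ℂ} (hF : Continuous F) (hb : ∀ z ∈ ball (0 : ℂ) 1, ‖φ z‖ ≤ B)
    (hsemi : ∀ w ∈ ball (0 : ℂ) 1, F (φ w) = φ (e α * w)) (t : ℝ) : F '' Imp φ t = Imp φ (t + α) := by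
  have hball : ∀ δ : ℝ, F '' (φ '' (ball 0 1 ∩ ball (e t) δ)) = φ '' (ball 0 1 ∩ ball (e (t + α)) δ) := by
    intro δ
    have hdist : ∀ w : ℂ, dist (e α * w) (e (t + α)) = dist w (e t) := by
      intro w
      rw [dist_eq_norm, dist_eq_norm, add_comm t α, e_add, ← mul_sub, norm_mul, norm_e, one_mul]
    ext y
    constructor
    · rintro ⟨_, ⟨w, ⟨hw, hwt⟩, rfl⟩, rfl⟩
      refine ⟨e α * w, ⟨?_, ?_⟩, (hsemi w hw).symm⟩
      · rw [mem_ball_zero_iff, norm_mul, norm_e, one_mul]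
        exact mem_ball_zero_iff.1 hw
      · rw [mem_ball, hdist]
        exact hwt
    · rintro ⟨v, ⟨hv, hvt⟩, rfl⟩
      have hv' : e α * ((e α)⁻¹ * v) = v := mul_inv_cancel_left₀ (e_ne_zero α) v
      have hvb : (e α)⁻¹ * v ∈ ball (0 : ℂ) 1 := by
        rw [mem_ball_zero_iff, norm_mul, norm_inv, norm_e, inv_one, one_mul]
        exact mem_ball_zero_iff.1 hv
      refine ⟨φ ((e α)⁻¹ * v), ⟨(e α)⁻¹ * v, ⟨hvb, ?_⟩, rfl⟩, ?_⟩
      · rw [mem_ball, ← hdist, hv']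
        exact hvt
      · rw [hsemi _ hvb, hv']
  apply Subset.antisymm
  · rintro _ ⟨x, hx, rfl⟩
    refine mem_Imp fun δ hδ => ?_
    rw [← hball δ]
    exact hF.continuousOn.image_closure ⟨x, Imp_sub hδ hx, rfl⟩
  · intro y hy
    -- nested compact sets of preimages
    obtain ⟨x, hx⟩ : (⋂ n : ℕ, closure (φ '' (ball 0 1 ∩ ball (e t) (1 / ((n : ℝ) + 1)))) ∩ F ⁻¹' {y}).Nonempty := by
      have hcl : ∀ n : ℕ, IsCompact (closure (φ '' (ball 0 1 ∩ ball (e t) (1 / ((n : ℝ) + 1)))) ∩ F ⁻¹' {y}) := fun n =>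
        (Imp_compact hb t n).inter_right (isClosed_singleton.preimage hF)
      refine IsCompact.nonempty_iInter_of_sequence_nonempty_isCompact_isClosed _ (fun n => ?_) (fun n => ?_) (hcl 0)
        (fun n => (hcl n).isClosed)
      · exact inter_subset_inter_left _ (Imp_anti (Nat.le_succ n))
      · have h1 : y ∈ closure (F '' (φ '' (ball 0 1 ∩ ball (e t) (1 / ((n : ℝ) + 1))))) := by
          rw [hball]
          exact mem_iInter.1 hy n
        have h2 : closure (F '' (φ '' (ball 0 1 ∩ ball (e t) (1 / ((n : ℝ) + 1))))) ⊆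
            F '' closure (φ '' (ball 0 1 ∩ ball (e t) (1 / ((n : ℝ) + 1)))) :=
          closure_minimal (image_mono subset_closure) ((Imp_compact hb t n).image hF).isClosed
        obtain ⟨x, hx, hxy⟩ := h2 h1
        exact ⟨x, hx, hxy⟩
    exact ⟨x, mem_iInter.2 fun n => (mem_iInter.1 hx n).1, (mem_iInter.1 hx 0).2⟩

/-- the closure of a ray -/
theorem closure_Rad (hd : DifferentiableOn ℂ φ (ball 0 1)) (hi : InjOn φ (ball 0 1)) {t : ℝ} {M : Set ℂ}
    (hM : ∀ x, (∀ s, 0 ≤ s → s < 1 → x ∈ closure (φ '' Rad t s)) → x ∈ M) :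
    closure (φ '' Rad t 0) ⊆ φ '' Rad t 0 ∪ M := by
  intro x hx
  by_cases hxφ : x ∈ φ '' ball 0 1
  · obtain ⟨w, hw, rfl⟩ := hxφ
    exact Or.inl ⟨w, closure_img hd hi (Rad_sub le_rfl) (Rad_closed le_rfl) hw hx, rfl⟩
  · refine Or.inr (hM x fun s hs hs1 => ?_)
    -- the compact part of the ray is in the image
    have h1 : Rad t 0 ⊆ (fun r : ℝ => (r : ℂ) * e t) '' Icc 0 s ∪ Rad t s := by
      rintro _ ⟨r, hr, rfl⟩
      rcases le_total r s with h | h
      · exact Or.inl ⟨r, ⟨hr.1, h⟩, rfl⟩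
      · exact Or.inr ⟨r, ⟨h, hr.2⟩, rfl⟩
    have hsub : (fun r : ℝ => (r : ℂ) * e t) '' Icc 0 s ⊆ ball 0 1 := by
      rintro _ ⟨r, hr, rfl⟩
      rw [mem_ball_zero_iff]
      show ‖(r : ℂ) * e t‖ < 1
      rw [norm_re hr.1]
      exact hr.2.trans_lt hs1
    have h2 : IsClosed (φ '' ((fun r : ℝ => (r : ℂ) * e t) '' Icc 0 s)) :=
      ((isCompact_Icc.image (by fun_prop)).image_of_continuousOn (hd.continuousOn.mono hsub)).isClosed
    have h3 : closure (φ '' Rad t 0) ⊆ φ '' ((fun r : ℝ => (r : ℂ) * e t) '' Icc 0 s) ∪ closure (φ '' Rad t s) := by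
      refine closure_minimal ?_ (h2.union isClosed_closure)
      refine (image_mono h1).trans ?_
      rw [image_union]
      exact union_subset_union_right _ subset_closure
    rcases h3 hx with h4 | h4
    · exact absurd (image_mono hsub h4) hxφ
    · exact h4

theorem end_mem_Imp {t : ℝ} {x : ℂ} (hx : ∀ s, 0 ≤ s → s < 1 → x ∈ closure (φ '' Rad t s)) : x ∈ Imp φ t := by
  refine mem_Imp fun δ hδ => ?_
  have h1 := hx (max 0 (1 - δ / 2)) (le_max_left _ _) (max_lt one_pos (by linarith))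
  refine closure_mono (image_mono ?_) h1
  rintro _ ⟨r, hr, rfl⟩
  have hr0 : 0 ≤ r := (le_max_left _ _).trans hr.1
  have hr1 : 1 - δ / 2 ≤ r := (le_max_right _ _).trans hr.1
  refine ⟨?_, ?_⟩
  · rw [mem_ball_zero_iff]
    show ‖(r : ℂ) * e t‖ < 1
    rw [norm_re hr0]
    exact hr.2
  · rw [mem_ball, dist_eq_norm]
    show ‖(r : ℂ) * e t - e t‖ < δ
    rw [show (r : ℂ) * e t - e t = ((r - 1 : ℝ) : ℂ) * e t by push_cast; ring, norm_mul, norm_e, mul_one,
      Complex.norm_real, Real.norm_eq_abs, abs_lt]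
    constructor <;> linarith [hr.2]

/-- separation for impressions: every point outside `M` is accessible from the open connected set `A` -/
theorem sep_Imp (hd : DifferentiableOn ℂ φ (ball 0 1)) (hi : InjOn φ (ball 0 1)) {B : ℝ}
    (hb : ∀ z ∈ ball (0 : ℂ) 1, ‖φ z‖ ≤ B) {A : Set ℂ} (hAo : IsOpen A) (hAc : IsPreconnected A) (hAφ : Disjoint A (φ '' ball 0 1))
    (hXA : frontier (φ '' ball 0 1) ⊆ closure A) {M : Set ℂ} (hM : IsCompact M) (hMc : IsPreconnected M)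
    (hMX : M ⊆ frontier (φ '' ball 0 1)) {t1 t2 : ℝ} (h12 : t1 < t2) (h21 : t2 < t1 + 1)
    (hR1 : ∀ x, (∀ s, 0 ≤ s → s < 1 → x ∈ closure (φ '' Rad t1 s)) → x ∈ M)
    (hR2 : ∀ x, (∀ s, 0 ≤ s → s < 1 → x ∈ closure (φ '' Rad t2 s)) → x ∈ M) :
    (∀ t ∈ Ioo t1 t2, Imp φ t ⊆ M) ∨ ∀ t ∈ Ioo t2 (t1 + 1), Imp φ t ⊆ M := by
  by_contra hcon
  push Not at hcon
  obtain ⟨⟨s1, hs1, hn1⟩, s2, hs2, hn2⟩ := hcon
  obtain ⟨x1, hx1, hx1M⟩ := not_subset.1 hn1
  obtain ⟨x2, hx2, hx2M⟩ := not_subset.1 hn2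
  have hopen : IsOpen (φ '' ball 0 1) := open_img hd hi isOpen_ball Subset.rfl
  have hfr : frontier (φ '' ball 0 1) = closure (φ '' ball 0 1) \ φ '' ball 0 1 := by
    rw [frontier, hopen.interior_eq]
  have hMφ : Disjoint M (φ '' ball 0 1) := disjoint_left.2 fun x hx h => by
    have h1 := hMX hx
    rw [hfr] at h1
    exact h1.2 h
  have hc1 := closure_Rad hd hi hR1
  have hc2 := closure_Rad hd hi hR2
  -- the closed set
  have hG : IsClosed (M ∪ (φ '' Rad t1 0 ∪ φ '' Rad t2 0)) := by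
    have h1 : M ∪ (φ '' Rad t1 0 ∪ φ '' Rad t2 0) = M ∪ (closure (φ '' Rad t1 0) ∪ closure (φ '' Rad t2 0)) := by
      apply Subset.antisymm
      · exact union_subset_union_right _ (union_subset_union subset_closure subset_closure)
      · refine union_subset (fun z hz => Or.inl hz) (union_subset (fun z hz => ?_) fun z hz => ?_)
        · rcases hc1 hz with h | h
          · exact Or.inr (Or.inl h)
          · exact Or.inl h
        · rcases hc2 hz with h | h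
          · exact Or.inr (Or.inr h)
          · exact Or.inl h
    rw [h1]
    exact hM.isClosed.union (isClosed_closure.union isClosed_closure)
  have hnotG : ∀ x, x ∉ φ '' ball 0 1 → x ∉ M → x ∉ M ∪ (φ '' Rad t1 0 ∪ φ '' Rad t2 0) := by
    rintro x hxφ hxM (h | h | h)
    · exact hxM h
    · exact hxφ (image_mono (Rad_sub le_rfl) h)
    · exact hxφ (image_mono (Rad_sub le_rfl) h)
  have hXof : ∀ {t : ℝ} {x : ℂ}, x ∈ Imp φ t → x ∈ frontier (φ '' ball 0 1) := fun {t x} hx => by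
    rw [← iUnion_Imp hd hi]
    exact mem_iUnion.2 ⟨t, hx⟩
  obtain ⟨ε1, hε1, hb1⟩ := Metric.isOpen_iff.1 hG.isOpen_compl x1 (hnotG x1 (Imp_disjoint hd hi _ hx1) hx1M)
  obtain ⟨ε2, hε2, hb2⟩ := Metric.isOpen_iff.1 hG.isOpen_compl x2 (hnotG x2 (Imp_disjoint hd hi _ hx2) hx2M)
  obtain ⟨a1, ha1, hxa1⟩ := Metric.mem_closure_iff.1 (hXA (hXof hx1)) ε1 hε1
  obtain ⟨a2, ha2, hxa2⟩ := Metric.mem_closure_iff.1 (hXA (hXof hx2)) ε2 hε2
  have hAp : IsPathConnected A := (hAo.isConnected_iff_isPathConnected).1 ⟨⟨a1, ha1⟩, hAc⟩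
  have hball : ∀ (x : ℂ) {ε : ℝ}, 0 < ε → IsPathConnected (ball x ε) := fun x ε hε =>
    (convex_ball x ε).isPathConnected ⟨x, mem_ball_self hε⟩
  have hZ : IsPathConnected ((ball x1 ε1 ∪ A) ∪ ball x2 ε2) := by
    refine ((hball x1 hε1).union hAp ⟨a1, by rwa [mem_ball, dist_comm], ha1⟩).union (hball x2 hε2) ⟨a2, Or.inr ha2, ?_⟩
    rwa [mem_ball, dist_comm]
  have hAG : Disjoint A (M ∪ (φ '' Rad t1 0 ∪ φ '' Rad t2 0)) := by
    rw [disjoint_left]
    rintro z hz (h | h | h)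
    · -- `A` is open and disjoint from the image, so from its closure
      have h1 : z ∈ closure (φ '' ball 0 1) := by
        have h2 := hMX h
        rw [hfr] at h2
        exact h2.1
      obtain ⟨y, hy, hy'⟩ := mem_closure_iff.1 h1 A hAo hz
      exact disjoint_left.1 hAφ hy hy'
    · exact disjoint_left.1 hAφ hz (image_mono (Rad_sub le_rfl) h)
    · exact disjoint_left.1 hAφ hz (image_mono (Rad_sub le_rfl) h)
  have hZd : Disjoint ((ball x1 ε1 ∪ A) ∪ ball x2 ε2) (M ∪ (φ '' Rad t1 0 ∪ φ '' Rad t2 0)) := by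
    rw [disjoint_left]
    rintro z ((h | h) | h) hzG
    · exact hb1 h hzG
    · exact disjoint_left.1 hAG h hzG
    · exact hb2 h hzG
  obtain ⟨δ1, hδ1, hδ1'⟩ := near_Sec hs1.1 hs1.2
  obtain ⟨δ2, hδ2, hδ2'⟩ := near_Sec hs2.1 hs2.2
  obtain ⟨y1, ⟨w1, hw1, hwy1⟩, hy1⟩ := Metric.mem_closure_iff.1 (Imp_sub hδ1 hx1) ε1 hε1
  obtain ⟨y2, ⟨w2, hw2, hwy2⟩, hy2⟩ := Metric.mem_closure_iff.1 (Imp_sub hδ2 hx2) ε2 hε2
  refine sep_main hd hi hb hM hMc hMφ h12 h21 hc1 hc2 hZ hZd (hδ1' w1 hw1.1 hw1.2) (hδ2' w2 hw2.1 hw2.2) ?_ ?_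
  · rw [hwy1]
    exact Or.inl (Or.inl (by rwa [mem_ball, dist_comm]))
  · rw [hwy2]
    exact Or.inr (by rwa [mem_ball, dist_comm])

end Pool.Agent.Helper66.QJ
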