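import Pool.Agent.Helper66.QJ.ChainSets

/-!
# The internal chain (MP_a03adf_an)

`dec_of_wanderer`: if `X` is a proper subcontinuum of `J` with `0 ∈ X` and `f X ⊆ X`, and a continuum `L ⊆ J` outside `X`
meets `f L` and an iterated preimage of `X`, then `J` is decomposable (if at most one fixed point is in `J`).
`dec_of_invariant`: the case `f X = X`, where a continuum `I ⊆ X` contains `Y = X ∩ -X` and is disjoint from `f Y`.
-/

set_option autoImplicit false

open Set Topology Metric Bornology Filter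

namespace Pool.Agent.Helper66.QJ

variable {c : ℂ}

/-- a point of `J` can be joined to infinity outside a closed set which does not contain it -/
theorem exists_tail {y : ℂ} (hy : y ∈ J c) {A : Set ℂ} (hA : IsClosed A) (hAK : A ⊆ K c) (hyA : y ∉ A) :
    ∃ T : Set ℂ, IsClosed T ∧ IsPreconnected T ∧ ¬ IsBounded T ∧ y ∈ T ∧ Disjoint T A := by
  obtain ⟨r, hr, hrA⟩ := Metric.isOpen_iff.1 hA.isOpen_compl y hyA
  obtain ⟨a, ha, hya⟩ := Metric.mem_closure_iff.1 (mem_J_iff.1 hy).2 (r / 2) (by positivity)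
  obtain ⟨E, hE, hEc, hEu, haE, hEK⟩ := exists_far (c := c) ha
  refine ⟨closedBall y (r / 2) ∪ E, isClosed_closedBall.union hE,
    (convex_closedBall y (r / 2)).isPreconnected.union a ?_ haE hEc, fun h => hEu (h.subset subset_union_right),
    Or.inl (mem_closedBall_self (by positivity)), ?_⟩
  · rw [mem_closedBall, dist_comm]
    exact hya.le
  · rw [disjoint_left]
    rintro z (hz | hz) hzA
    · exact hrA (mem_ball.2 ((mem_closedBall.1 hz).trans_lt (by linarith))) hzA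
    · exact disjoint_left.1 hEK hz (hAK hzA)

/-- `0` is in the interior of the filled Julia set of `z ^ 2` -/
theorem zero_not_mem_J_zero : (0 : ℂ) ∉ J 0 := by
  intro h
  have hsub : ball (0 : ℂ) 1 ⊆ K 0 := by
    intro z hz
    rw [mem_ball_zero_iff] at hz
    have h1 : ∀ n, ‖(f 0)^[n] z‖ ≤ 1 := by
      intro n
      induction n with
      | zero => exact hz.le
      | succ n ih =>
        rw [Function.iterate_succ_apply', f, add_zero, norm_pow]
        exact pow_le_one₀ (norm_nonneg _) ih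
    show IsBounded (range fun n : ℕ => (f 0)^[n] z)
    rw [isBounded_iff_forall_norm_le]
    refine ⟨1, ?_⟩
    rintro _ ⟨n, rfl⟩
    exact h1 n
  obtain ⟨a, ha, hya⟩ := Metric.mem_closure_iff.1 (mem_J_iff.1 h).2 1 one_pos
  rw [dist_comm] at hya
  exact ha (hsub (mem_ball.2 hya))

/-- the union of two proper subcontinua with a common point is proper if `J` is not decomposable -/
theorem union_ne (hnd : ¬ Dec (J c)) {A B : Set ℂ} (hA : IsCompact A) (hB : IsCompact B) (hAc : IsPreconnected A)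
    (hBc : IsPreconnected B) (hAJ : A ⊆ J c) (hBJ : B ⊆ J c) (hAn : A ≠ J c) (hBn : B ≠ J c)
    (hAB : (A ∩ B).Nonempty) : A ∪ B ≠ J c := fun h =>
  hnd ⟨A, B, hAJ, hBJ, hAn, hBn, hA, ⟨hAB.mono inter_subset_left, hAc⟩, hB, ⟨hAB.mono inter_subset_right, hBc⟩, h⟩

theorem c_ne_zero (h : (0 : ℂ) ∈ J c) : c ≠ 0 := by
  rintro rfl
  exact zero_not_mem_J_zero h

theorem f_zero (c : ℂ) : f c 0 = c := by
  rw [f]
  ring

theorem c_mem_J (h : (0 : ℂ) ∈ J c) : c ∈ J c := by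
  have h1 : f c 0 ∈ J c := f_mem_J_iff.2 h
  rwa [f_zero] at h1

theorem dec_of_wanderer {X L : Set ℂ} (hX : IsCompact X) (hXc : IsPreconnected X) (hXJ : X ⊆ J c) (hXn : X ≠ J c)
    (h0 : (0 : ℂ) ∈ X) (hfm : ∀ x ∈ X, f c x ∈ X) (hL : IsCompact L) (hLc : IsPreconnected L) (hLJ : L ⊆ J c)
    (hLX : ∀ x ∈ L, x ∉ X) {q0 : ℂ} (hq0 : q0 ∈ L) (hfq0 : f c q0 ∈ L) {n : ℕ} {y : ℂ} (hy : y ∈ L)
    (hyX : (f c)^[n] y ∈ X) (huniq : ∀ a b : ℂ, a ∈ J c → b ∈ J c → f c a = a → f c b = b → a = b) :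
    Dec (J c) := by
  by_contra hnd
  have h0J : (0 : ℂ) ∈ J c := hXJ h0
  have h0K : (0 : ℂ) ∈ K c := J_sub_K c h0J
  have hcX : c ∈ X := f_zero c ▸ hfm 0 h0
  have hcL : c ∉ L := fun h => hLX c h hcX
  obtain ⟨T, hT, hTc, hTu, hcT, hTX⟩ := exists_tail (hXJ hcX) hL.isClosed (hLJ.trans (J_sub_K c)) hcL
  have horb : ∀ k, (f c)^[k] c ∈ X := by
    intro k
    induction k with
    | zero => exact hcX
    | succ k ih =>
      rw [Function.iterate_succ_apply']
      exact hfm _ ih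
  obtain ⟨S, b, h⟩ := exists_chain_sets (c := c) (T := X ∪ T) (L := L) (hX.isClosed.union hT)
    (hXc.union c hcX hcT hTc) (fun hb => hTu (hb.subset subset_union_right)) (fun k => Or.inl (horb k)) hL hLc
    (fun z hz => (mem_J_iff.1 (hLJ hz)).2) (by
      rw [disjoint_left]
      rintro z hz (hz' | hz')
      · exact hLX z hz hz'
      · exact disjoint_left.1 hTX hz' hz)
    (x0 := f c q0) (q0 := q0) hfq0 hq0 rfl
  have hSJ : ∀ n, S n ⊆ J c := by
    intro n
    induction n with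
    | zero =>
      rw [h.zero]
      exact hLJ
    | succ n ih =>
      intro x hx
      exact f_mem_J_iff.1 (ih (h.down n x hx))
  have hXS : ∀ n, ∀ x ∈ S n, x ∉ X := by
    intro n
    induction n with
    | zero =>
      rw [h.zero]
      exact hLX
    | succ n ih =>
      intro x hx hxX
      exact ih _ (h.down n x hx) (hfm x hxX)
  have hUJ : (⋃ n, S n) ∪ {b} ⊆ J c := union_subset (iUnion_subset hSJ) (singleton_subset_iff.2 h.memJ)
  have hUn : (⋃ n, S n) ∪ {b} ≠ J c := by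
    intro heq
    have h1 : (0 : ℂ) ∈ (⋃ n, S n) ∪ {b} := heq.symm ▸ h0J
    rcases h1 with h1 | h1
    · obtain ⟨m, hm⟩ := mem_iUnion.1 h1
      exact hXS m 0 hm h0
    · have h2 := h.fix
      rw [← mem_singleton_iff.1 h1, f_zero] at h2
      exact c_ne_zero h0J h2
  have hUc : IsCompact ((⋃ n, S n) ∪ {b}) := (isCompact_J c).of_isClosed_subset h.isClosed hUJ
  -- the iterated preimage of `X`
  have hPJ : (f c)^[n] ⁻¹' X ⊆ J c := by
    intro x hx
    have h1 : ∀ m, ∀ x, (f c)^[m] x ∈ J c → x ∈ J c := by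
      intro m
      induction m with
      | zero => exact fun x hx => hx
      | succ m ih => exact fun x hx => f_mem_J_iff.1 (ih _ hx)
    exact h1 n x (hXJ hx)
  have hPcl : IsClosed ((f c)^[n] ⁻¹' X) := hX.isClosed.preimage ((continuous_f c).iterate n)
  have hPc : IsPreconnected ((f c)^[n] ⁻¹' X) := preimage_iter_conn hXc n fun k _ => horb k
  have hP0 : (0 : ℂ) ∈ (f c)^[n] ⁻¹' X := by
    show (f c)^[n] 0 ∈ X
    rcases n with _ | n
    · exact h0
    · rw [← c_iter]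
      exact horb n
  have hPn : (f c)^[n] ⁻¹' X ≠ J c := by
    intro heq
    apply hXn
    refine hXJ.antisymm fun z hz => ?_
    have hsurj1 : Function.Surjective (f c) := surj_f c
    have hsurj : Function.Surjective ((f c)^[n]) := hsurj1.iterate n
    obtain ⟨x, hx⟩ := hsurj z
    have h1 : ∀ m, ∀ x, (f c)^[m] x ∈ J c → x ∈ J c := by
      intro m
      induction m with
      | zero => exact fun x hx => hx
      | succ m ih => exact fun x hx => f_mem_J_iff.1 (ih _ hx)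
    have h2 : x ∈ (f c)^[n] ⁻¹' X := heq.symm ▸ h1 n x (hx.symm ▸ hz)
    exact hx ▸ h2
  have hCn := union_ne hnd ((isCompact_J c).of_isClosed_subset hPcl hPJ) hUc hPc h.isPreconnected hPJ hUJ hPn hUn
    ⟨y, hyX, Or.inl (mem_iUnion.2 ⟨0, h.zero.symm ▸ hy⟩)⟩
  obtain ⟨b', R, hb', hbJ', hR, hRc, hRu, hbR, hRJ⟩ := external h0K
  obtain rfl := huniq b b' h.memJ hbJ' h.fix hb'
  have hbC : b ∈ (f c)^[n] ⁻¹' X ∪ ((⋃ n, S n) ∪ {b}) := Or.inr (Or.inr rfl)
  refine hnd (core (isCompact_J c) (isPreconnected_J h0K) (fun z hz => neg_mem_J hz)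
    ((isCompact_J c).of_isClosed_subset (hPcl.union h.isClosed) (union_subset hPJ hUJ))
    (hPc.union y hyX (Or.inl (mem_iUnion.2 ⟨0, h.zero.symm ▸ hy⟩)) h.isPreconnected) (union_subset hPJ hUJ) hCn
    (Or.inl hP0) hR hRc hRu (hRJ.trans (singleton_subset_iff.2 hbC)) ⟨b, hbR, hbC⟩)

theorem dec_of_invariant {X I : Set ℂ} (hX : IsCompact X) (hXc : IsPreconnected X) (hXJ : X ⊆ J c) (h0 : (0 : ℂ) ∈ X)
    (hfX : f c '' X = X) (hI : IsCompact I) (hIc : IsPreconnected I) (hIX : I ⊆ X)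
    (hYI : ∀ y ∈ X, -y ∈ X → y ∈ I) (hYf : ∀ y ∈ X, -y ∈ X → f c y ∉ I)
    (huniq : ∀ a b : ℂ, a ∈ J c → b ∈ J c → f c a = a → f c b = b → a = b) : Dec (J c) := by
  have hfm : ∀ x ∈ X, f c x ∈ X := fun x hx => hfX ▸ mem_image_of_mem _ hx
  have hcX : c ∈ X := f_zero c ▸ hfm 0 h0
  have h0' : -(0 : ℂ) ∈ X := by rwa [neg_zero]
  have hcI : c ∉ I := by
    have h1 := hYf 0 h0 h0'
    rwa [f_zero] at h1
  have hcX' : -c ∉ X := fun h => hcI (hYI c hcX h)
  have hXn : X ≠ J c := fun heq => hcX' (heq.symm ▸ neg_mem_J (hXJ hcX))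
  -- the symmetric copy
  let X1 : Set ℂ := (fun z => -z) '' X
  have hX1 : IsCompact X1 := hX.image continuous_neg
  have hX1c : IsPreconnected X1 := hXc.image _ continuous_neg.continuousOn
  have hX1m : ∀ z, z ∈ X1 ↔ -z ∈ X := fun z =>
    ⟨by rintro ⟨x, hx, rfl⟩; rwa [neg_neg], fun h => ⟨-z, h, neg_neg z⟩⟩
  have hX1J : X1 ⊆ J c := by
    rintro _ ⟨x, hx, rfl⟩
    exact neg_mem_J (hXJ hx)
  have h01 : (0 : ℂ) ∈ X1 := (hX1m 0).2 h0'
  have hcX1 : c ∉ X1 := fun h => hcX' ((hX1m c).1 h)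
  have hpre : ∀ z, f c z ∈ X → z ∈ X ∨ z ∈ X1 := by
    intro z hz
    rw [← hfX] at hz
    obtain ⟨x, hx, hxz⟩ := hz
    rcases f_eq_iff.1 hxz with h | h
    · exact Or.inl (h ▸ hx)
    · refine Or.inr ((hX1m z).2 ?_)
      rw [← h]
      exact hx
  -- a section which maps `I` outside `X`
  obtain ⟨s, hs, hfs, hsI⟩ : ∃ s : ℂ → ℂ, ContinuousOn s (X1 ∪ I) ∧ (∀ z ∈ X1 ∪ I, f c (s z) = z) ∧
      ∀ z ∈ I, s z ∉ X := by
    have hcl : IsCompact (X1 ∪ I) := hX1.union hI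
    obtain ⟨T, hT, hTc, hTu, hcT, hTX⟩ := exists_tail (A := X1 ∪ I) (hXJ hcX) hcl.isClosed
      ((union_subset hX1J (hIX.trans hXJ)).trans (J_sub_K c)) (fun h => h.elim hcX1 hcI)
    obtain ⟨r, hr, hr2⟩ := exists_sqrt hT hTc hTu hcT hcl hTX.symm
    have hfr : ∀ z ∈ X1 ∪ I, f c (r z) = z := fun z hz => by
      rw [f, hr2 z hz]
      ring
    have himg : IsPreconnected (r '' I) := hIc.image _ (hr.mono subset_union_right)
    have hor : (∀ z ∈ I, r z ∉ X) ∨ ∀ z ∈ I, r z ∉ X1 := by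
      by_contra hcon
      push Not at hcon
      obtain ⟨⟨u, hu, huX⟩, v, hv, hvX⟩ := hcon
      obtain ⟨p, ⟨z, hz, hzp⟩, hpX, hpX1⟩ := (isPreconnected_closed_iff.1 himg) X X1 hX.isClosed hX1.isClosed (by
        rintro _ ⟨z, hz, rfl⟩
        exact hpre _ (by
          rw [hfr z (Or.inr hz)]
          exact hIX hz)) ⟨_, ⟨u, hu, rfl⟩, huX⟩ ⟨_, ⟨v, hv, rfl⟩, hvX⟩
      have h1 := hYf p hpX ((hX1m p).1 hpX1)
      rw [← hzp, hfr z (Or.inr hz)] at h1
      exact h1 hz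
    rcases hor with hor | hor
    · exact ⟨r, hr, hfr, hor⟩
    · refine ⟨fun z => -r z, hr.neg, fun z hz => by rw [f_neg, hfr z hz], fun z hz h3 => ?_⟩
      exact hor z hz ((hX1m _).2 h3)
  have hs0 : s 0 ∈ X1 := by
    rcases hpre (s 0) (by rw [hfs 0 (Or.inl h01)]; exact h0) with h | h
    · exact absurd h (hsI 0 (hYI 0 h0 h0'))
    · exact h
  have hs1 : ContinuousOn s X1 := hs.mono subset_union_left
  refine dec_of_wanderer (L := s '' X1) hX hXc hXJ hXn h0 hfm (hX1.image_of_continuousOn hs1) (hX1c.image _ hs1) ?_ ?_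
    (q0 := s (s 0)) ⟨s 0, hs0, rfl⟩ ?_ (n := 1) (y := s 0) ⟨0, h01, rfl⟩ ?_ huniq
  · rintro _ ⟨z, hz, rfl⟩
    exact f_mem_J_iff.1 (by
      rw [hfs z (Or.inl hz)]
      exact hX1J hz)
  · rintro _ ⟨z, hz, rfl⟩ hX'
    have h1 := hfm _ hX'
    rw [hfs z (Or.inl hz)] at h1
    exact hsI z (hYI z h1 ((hX1m z).1 hz)) hX'
  · rw [hfs _ (Or.inl hs0)]
    exact ⟨0, h01, rfl⟩
  · show f c (s 0) ∈ X
    rw [hfs 0 (Or.inl h01)]
    exact h0

end Pool.Agent.Helper66.QJ
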