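import Mathlib

/-!
# Plane topology for quadratic Julia sets (MP_a03adf_an)

`unicoherent`: two closed connected sets covering the plane have connected intersection. `exists_sqrt`: a continuous
square root of `z - a` on a compact set disjoint from a closed connected unbounded set containing `a`.
`no_sym`: in the complement of a closed connected unbounded symmetric set containing `0` no component is symmetric.
`core`: a symmetric continuum `J` is decomposable if a proper subcontinuum containing `0` can be joined to infinity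
outside `J`.
-/

set_option autoImplicit false

open Set Topology Metric Bornology

namespace Pool.Agent.Helper66.QJ

/-- `J` is the union of two proper subcontinua -/
def Dec (J : Set ℂ) : Prop :=
  ∃ A B : Set ℂ, A ⊆ J ∧ B ⊆ J ∧ A ≠ J ∧ B ≠ J ∧ IsCompact A ∧ IsConnected A ∧ IsCompact B ∧ IsConnected B ∧ A ∪ B = J

/-- the plane is unicoherent -/
theorem unicoherent {A B : Set ℂ} (hA : IsClosed A) (hB : IsClosed B) (hAc : IsPreconnected A)
    (hBc : IsPreconnected B) (hAB : A ∪ B = univ) : IsPreconnected (A ∩ B) := by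
  rw [isPreconnected_closed_iff]
  intro t t' ht ht' hsub ⟨p, hp, hpt⟩ ⟨q, hq, hqt⟩
  by_contra hemp
  rw [Set.not_nonempty_iff_eq_empty] at hemp
  obtain ⟨f, hf0, hf1, -⟩ := exists_continuous_zero_one_of_isClosed (s := A ∩ B ∩ t) (t := A ∩ B ∩ t')
    ((hA.inter hB).inter ht) ((hA.inter hB).inter ht') (by
      rw [Set.disjoint_iff_inter_eq_empty]
      rw [← hemp]
      ext z
      simp only [mem_inter_iff]
      tauto)
  -- the map to the punctured plane
  classical
  let u : ℂ → ℂ := fun z => if z ∈ A then Complex.exp (Real.pi * Complex.I * f z)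
    else Complex.exp (-(Real.pi * Complex.I * f z))
  have huA : ∀ z ∈ A, u z = Complex.exp (Real.pi * Complex.I * f z) := fun z hz => if_pos hz
  have huB : ∀ z ∈ B, u z = Complex.exp (-(Real.pi * Complex.I * f z)) := by
    intro z hz
    by_cases hzA : z ∈ A
    · rw [huA z hzA]
      rcases hsub ⟨hzA, hz⟩ with h | h
      · have h1 : f z = 0 := hf0 ⟨⟨hzA, hz⟩, h⟩
        rw [h1]
        simp
      · have h1 : f z = 1 := hf1 ⟨⟨hzA, hz⟩, h⟩
        rw [h1, Complex.ofReal_one, mul_one, Complex.exp_neg, Complex.exp_pi_mul_I]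
        norm_num
    · exact if_neg hzA
  have hu0 : ∀ z, u z ≠ 0 := by
    intro z
    by_cases hzA : z ∈ A
    · rw [huA z hzA]
      exact Complex.exp_ne_zero _
    · rw [huB z (by
        have : z ∈ A ∪ B := by rw [hAB]; trivial
        exact this.resolve_left hzA)]
      exact Complex.exp_ne_zero _
  have hcf : Continuous fun z => (Real.pi * Complex.I * f z : ℂ) :=
    continuous_const.mul (Complex.continuous_ofReal.comp f.continuous)
  have hcu : Continuous u := by
    rw [← continuousOn_univ, ← hAB]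
    refine ContinuousOn.union_of_isClosed ?_ ?_ hA hB
    · exact (Complex.continuous_exp.comp hcf).continuousOn.congr huA
    · exact (Complex.continuous_exp.comp hcf.neg).continuousOn.congr huB
  let U : C(ℂ, {z : ℂ // z ≠ 0}) := ⟨fun z => ⟨u z, hu0 z⟩, by fun_prop⟩
  obtain ⟨e0, he0⟩ : ∃ e : ℂ, Complex.exp e = u 0 := ⟨Complex.log (u 0), Complex.exp_log (hu0 0)⟩
  obtain ⟨F, ⟨-, hF⟩, -⟩ := Complex.isCoveringMap_exp.existsUnique_continuousMap_lifts U 0 e0 (Subtype.ext he0)
  have hF' : ∀ z, Complex.exp (F z) = u z := fun z => congrArg Subtype.val (congrFun hF z)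
  have hdisc : IsDiscrete ((AddSubgroup.zmultiples (2 * Real.pi * Complex.I) : AddSubgroup ℂ) : Set ℂ) :=
    ⟨NormedSpace.discreteTopology_zmultiples _⟩
  have hmem : ∀ w : ℂ, Complex.exp w = 1 → w ∈ ((AddSubgroup.zmultiples (2 * Real.pi * Complex.I) : AddSubgroup ℂ) : Set ℂ) := by
    intro w hw
    obtain ⟨k, hk⟩ := Complex.exp_eq_one_iff.1 hw
    refine AddSubgroup.mem_zmultiples_iff.2 ⟨k, ?_⟩
    rw [hk, zsmul_eq_mul]
  have h1 : F p - Real.pi * Complex.I * f p = F q - Real.pi * Complex.I * f q := by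
    refine hAc.constant_of_mapsTo hdisc (f := fun z => F z - Real.pi * Complex.I * f z)
      (F.continuous.sub hcf).continuousOn (fun z hz => hmem _ ?_) hp.1 hq.1
    rw [Complex.exp_sub, hF' z, huA z hz, div_self (Complex.exp_ne_zero _)]
  have h2 : F p + Real.pi * Complex.I * f p = F q + Real.pi * Complex.I * f q := by
    refine hBc.constant_of_mapsTo hdisc (f := fun z => F z + Real.pi * Complex.I * f z)
      (F.continuous.add hcf).continuousOn (fun z hz => hmem _ ?_) hp.2 hq.2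
    rw [Complex.exp_add, hF' z, huB z hz, ← Complex.exp_add, neg_add_cancel, Complex.exp_zero]
  have hp0 : f p = 0 := hf0 ⟨hp, hpt⟩
  have hq1 : f q = 1 := hf1 ⟨hq, hqt⟩
  rw [hp0, hq1] at h1 h2
  have h3 : (Real.pi * Complex.I : ℂ) = 0 := by
    have h4 : (2 : ℂ) * (Real.pi * Complex.I) = 0 := by
      push_cast at h1 h2
      linear_combination h1 - h2
    simp at h4
  simp at h3

/-- square roots of `z - a` on a compact set which does not separate `a` from infinity -/
theorem exists_sqrt {T Q : Set ℂ} (hT : IsClosed T) (hTc : IsPreconnected T) (hTu : ¬ IsBounded T) {a : ℂ} (ha : a ∈ T)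
    (hQ : IsCompact Q) (hd : Disjoint Q T) : ∃ r : ℂ → ℂ, ContinuousOn r Q ∧ ∀ z ∈ Q, r z ^ 2 = z - a := by
  have h2 : (2 : ℕ) ≠ 0 := by norm_num
  obtain ⟨δ, hδ, hδ2⟩ := Metric.exists_pos_forall_lt_edist hQ hT hd
  have hδ3 : ∀ z ∈ Q, ∀ b ∈ T, (δ : ℝ) < ‖z - b‖ := by
    intro z hz b hb
    have := hδ2 z hz b hb
    rw [edist_dist, dist_eq_norm, ← ENNReal.ofReal_coe_nnreal] at this
    exact (ENNReal.ofReal_lt_ofReal_iff_of_nonneg δ.2).1 this
  have hne : ∀ z ∈ Q, ∀ b ∈ T, z - b ≠ 0 := fun z hz b hb => norm_pos_iff.1 (δ.2.trans_lt (hδ3 z hz b hb))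
  have key : ∀ b ∈ T, ∃ r : ℂ → ℂ, ContinuousOn r Q ∧ ∀ z ∈ Q, r z ^ 2 = (z - a) / (z - b) := by
    intro b hb
    refine hTc.induction₂' (fun x y => ∃ r : ℂ → ℂ, ContinuousOn r Q ∧ ∀ z ∈ Q, r z ^ 2 = (z - x) / (z - y)) ?_ ?_ ha hb
    · intro x hx
      have key2 : ∀ x ∈ T, ∀ y ∈ T, ‖x - y‖ < δ → ∃ r : ℂ → ℂ, ContinuousOn r Q ∧
          ∀ z ∈ Q, r z ^ 2 = (z - x) / (z - y) := by
        intro x hx y hy hxy
        refine ⟨fun z => ((z - x) / (z - y)) ^ (((2 : ℕ) : ℂ)⁻¹), ?_, fun z _ => Complex.cpow_nat_inv_pow _ h2⟩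
        refine ContinuousOn.cpow ?_ continuousOn_const fun z hz => ?_
        · exact ((continuousOn_id.sub continuousOn_const).div (continuousOn_id.sub continuousOn_const)
            fun z hz => hne z hz y hy)
        · have h3 : (z - x) / (z - y) = 1 + (y - x) / (z - y) := by
            field_simp [hne z hz y hy]
            ring
          rw [h3]
          apply Complex.mem_slitPlane_of_norm_lt_one
          rw [norm_div, div_lt_one (norm_pos_iff.2 (hne z hz y hy)), norm_sub_rev]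
          exact hxy.trans (hδ3 z hz y hy)
      have h4 : ∀ᶠ y in 𝓝[T] x, ‖x - y‖ < δ ∧ y ∈ T := by
        refine Filter.Eventually.and ?_ self_mem_nhdsWithin
        have h5 : Filter.Tendsto (fun y => ‖x - y‖) (𝓝[T] x) (𝓝 0) := by
          have h6 : Continuous fun y : ℂ => ‖x - y‖ := by fun_prop
          have h7 := h6.tendsto x
          simp only [sub_self, norm_zero] at h7
          exact h7.mono_left nhdsWithin_le_nhds
        exact h5.eventually (gt_mem_nhds (by exact_mod_cast hδ))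
      filter_upwards [h4] with y hy
      exact ⟨key2 x hx y hy.2 hy.1, key2 y hy.2 x hx (by rw [norm_sub_rev]; exact hy.1)⟩
    · rintro x y z hx hy hz ⟨r1, hr1, hr1'⟩ ⟨r2, hr2, hr2'⟩
      refine ⟨fun w => r1 w * r2 w, hr1.mul hr2, fun w hw => ?_⟩
      rw [mul_pow, hr1' w hw, hr2' w hw]
      have h3 := hne w hw y hy
      have h4 := hne w hw z hz
      field_simp
  -- a far point
  obtain ⟨R, hR⟩ : ∃ R : ℝ, ∀ z ∈ Q, ‖z‖ ≤ R := hQ.isBounded.exists_norm_le
  obtain ⟨b, hb, hbR⟩ : ∃ b ∈ T, max R 0 < ‖b‖ := by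
    by_contra hcon
    push Not at hcon
    exact hTu (isBounded_iff_forall_norm_le.2 ⟨_, hcon⟩)
  obtain ⟨r, hr, hr'⟩ := key b hb
  have hb0 : b ≠ 0 := norm_pos_iff.1 ((le_max_right _ _).trans_lt hbR)
  refine ⟨fun z => r z * ((-b) ^ (((2 : ℕ) : ℂ)⁻¹) * (1 + -z / b) ^ (((2 : ℕ) : ℂ)⁻¹)), ?_, fun z hz => ?_⟩
  · refine hr.mul (continuousOn_const.mul (ContinuousOn.cpow (by fun_prop) continuousOn_const fun z hz => ?_))
    apply Complex.mem_slitPlane_of_norm_lt_one
    rw [norm_div, norm_neg, div_lt_one (norm_pos_iff.2 hb0)]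
    exact ((hR z hz).trans (le_max_left _ _)).trans_lt hbR
  · rw [mul_pow, mul_pow, Complex.cpow_nat_inv_pow _ h2, Complex.cpow_nat_inv_pow _ h2, hr' z hz]
    have h3 := hne z hz b hb
    field_simp
    ring

theorem no_sym {G : Set ℂ} (hG : IsClosed G) (hGc : IsPreconnected G) (hGu : ¬ IsBounded G) (h0 : (0 : ℂ) ∈ G)
    (hs : ∀ z ∈ G, -z ∈ G) {x : ℂ} (hx : x ∉ G) : -x ∉ connectedComponentIn Gᶜ x := by
  intro hcon
  have hopen : IsOpen (connectedComponentIn Gᶜ x) := hG.isOpen_compl.connectedComponentIn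
  have hxm : x ∈ connectedComponentIn Gᶜ x := mem_connectedComponentIn hx
  have hcn : IsConnected (connectedComponentIn Gᶜ x) := ⟨⟨x, hxm⟩, isPreconnected_connectedComponentIn⟩
  have hpc : IsPathConnected (connectedComponentIn Gᶜ x) := hopen.isConnected_iff_isPathConnected.1 hcn
  obtain ⟨γ, hγ⟩ := hpc.joinedIn x hxm (-x) hcon
  have hγG : ∀ t, γ t ∉ G := fun t => connectedComponentIn_subset _ _ (hγ t)
  have hγ0 : ∀ t, γ t ≠ 0 := fun t h => hγG t (h ▸ h0)
  have hT : IsClosed ((fun z : ℂ => z ^ 2) '' G) := isClosedMap_pow ℂ 2 _ hG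
  have hTc : IsPreconnected ((fun z : ℂ => z ^ 2) '' G) := hGc.image _ (by fun_prop)
  have hTu : ¬ IsBounded ((fun z : ℂ => z ^ 2) '' G) := by
    intro hb
    obtain ⟨C, hC⟩ := hb.exists_norm_le
    apply hGu
    rw [isBounded_iff_forall_norm_le]
    refine ⟨C + 1, fun z hz => ?_⟩
    have h1 := hC _ ⟨z, hz, rfl⟩
    simp only [norm_pow] at h1
    nlinarith [norm_nonneg z, sq_nonneg (‖z‖ - 1)]
  have hQ : IsCompact (range fun t => (γ t) ^ 2) := isCompact_range (by fun_prop)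
  have hd : Disjoint (range fun t => (γ t) ^ 2) ((fun z : ℂ => z ^ 2) '' G) := by
    rw [Set.disjoint_left]
    rintro _ ⟨t, rfl⟩ ⟨g, hg, hgt⟩
    rcases sq_eq_sq_iff_eq_or_eq_neg.1 hgt with h | h
    · exact hγG t (h ▸ hg)
    · have h1 : γ t = -g := by rw [h, neg_neg]
      exact hγG t (h1 ▸ hs g hg)
  obtain ⟨r, hr, hr'⟩ := exists_sqrt hT hTc hTu (a := 0) ⟨0, h0, by norm_num⟩ hQ hd
  have hr2 : Continuous fun t => r ((γ t) ^ 2) :=
    hr.comp_continuous (by fun_prop) fun t => ⟨t, rfl⟩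
  have h1 := (isPreconnected_univ (α := unitInterval)).eq_or_eq_neg_of_sq_eq (f := fun t => r ((γ t) ^ 2))
    (g := fun t => γ t) hr2.continuousOn (by fun_prop) (fun t _ => by
      have h2 := hr' ((γ t) ^ 2) ⟨t, rfl⟩
      simpa using h2) (fun {t} _ => hγ0 t)
  have hx0 : x ≠ 0 := fun h => hx (h ▸ h0)
  rcases h1 with h1 | h1
  · have h2 := h1 (mem_univ (0 : unitInterval))
    have h3 := h1 (mem_univ (1 : unitInterval))
    simp only [γ.source, γ.target, neg_sq] at h2 h3
    rw [h2] at h3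
    exact hx0 (self_eq_neg.1 h3)
  · have h2 := h1 (mem_univ (0 : unitInterval))
    have h3 := h1 (mem_univ (1 : unitInterval))
    simp only [γ.source, γ.target, neg_sq, Pi.neg_apply, neg_neg] at h2 h3
    rw [h2] at h3
    exact hx0 (neg_eq_self.1 h3)

/-- a continuum minus one side of a separation by a subcontinuum is connected -/
theorem conn_part {J C U V : Set ℂ} (hJ : IsClosed J) (hJc : IsPreconnected J) (hC : IsConnected C) (hCJ : C ⊆ J)
    (hU : IsOpen U) (hV : IsOpen V) (hcov : J ⊆ C ∪ (U ∪ V)) (hUV : Disjoint U V) (hCV : Disjoint C V) :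
    IsConnected (J \ V) := by
  have hCsub : C ⊆ J \ V := fun z hz => ⟨hCJ hz, fun h => Set.disjoint_left.1 hCV hz h⟩
  refine ⟨hC.nonempty.mono hCsub, ?_⟩
  rw [isPreconnected_closed_iff]
  -- the essential case
  have main : ∀ t t' : Set ℂ, IsClosed t → IsClosed t' → J \ V ⊆ t ∪ t' → ((J \ V) ∩ t').Nonempty →
      C ⊆ t → Disjoint C t' → ((J \ V) ∩ (t ∩ t')).Nonempty := by
    intro t t' ht ht' hsub hne' hCt hCt'
    obtain ⟨q, hq, hqt⟩ := hne'
    obtain ⟨p, hp⟩ := hC.nonempty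
    have h1 := isPreconnected_closed_iff.1 hJc ((t ∩ (J \ V)) ∪ (J \ U)) (t' ∩ (J \ V))
      ((ht.inter (hJ.sdiff hV)).union (hJ.sdiff hU)) (ht'.inter (hJ.sdiff hV)) (fun z hz => by
        by_cases hzU : z ∈ U
        · have hzV : z ∉ V := fun h => Set.disjoint_left.1 hUV hzU h
          rcases hsub ⟨hz, hzV⟩ with h | h
          · exact Or.inl (Or.inl ⟨h, hz, hzV⟩)
          · exact Or.inr ⟨h, hz, hzV⟩
        · exact Or.inl (Or.inr ⟨hz, hzU⟩))
      ⟨p, hCJ hp, Or.inl ⟨hCt hp, hCsub hp⟩⟩ ⟨q, hq.1, hqt, hq⟩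
    obtain ⟨z, hz, hz1, hz2⟩ := h1
    rcases hz1 with hz1 | hz1
    · exact ⟨z, hz2.2, hz1.1, hz2.1⟩
    · exfalso
      rcases hcov hz with h | h | h
      · exact Set.disjoint_left.1 hCt' h hz2.1
      · exact hz1.2 h
      · exact hz2.2.2 h
  intro t t' ht ht' hsub hne hne'
  by_cases h1 : (C ∩ t).Nonempty
  · by_cases h2 : (C ∩ t').Nonempty
    · obtain ⟨z, hz, hz2⟩ := isPreconnected_closed_iff.1 hC.isPreconnected t t' ht ht' (hCsub.trans hsub) h1 h2
      exact ⟨z, hCsub hz, hz2⟩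
    · have h3 : Disjoint C t' := Set.disjoint_iff_inter_eq_empty.2 (Set.not_nonempty_iff_eq_empty.1 h2)
      exact main t t' ht ht' hsub hne' (fun z hz => (hsub (hCsub hz)).resolve_right
        fun h => Set.disjoint_left.1 h3 hz h) h3
  · have h3 : Disjoint C t := Set.disjoint_iff_inter_eq_empty.2 (Set.not_nonempty_iff_eq_empty.1 h1)
    have h4 := main t' t ht' ht (by rwa [union_comm]) hne (fun z hz => (hsub (hCsub hz)).resolve_left
        fun h => Set.disjoint_left.1 h3 hz h) h3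
    rwa [inter_comm t' t] at h4

/-- the core lemma -/
theorem core {J : Set ℂ} (hJ : IsCompact J) (hJc : IsPreconnected J) (hs : ∀ z ∈ J, -z ∈ J) {C : Set ℂ}
    (hC : IsCompact C) (hCc : IsPreconnected C) (hCJ : C ⊆ J) (hne : C ≠ J) (h0 : (0 : ℂ) ∈ C) {R : Set ℂ}
    (hR : IsClosed R) (hRc : IsPreconnected R) (hRu : ¬ IsBounded R) (hRJ : R ∩ J ⊆ C) (hRC : (R ∩ C).Nonempty) :
    Dec J := by
  have hneg : ∀ S : Set ℂ, -S = (fun z : ℂ => -z) '' S := fun S => (Set.image_neg_eq_neg).symm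
  have hnC : IsCompact (-C) := by rw [hneg]; exact hC.image continuous_neg
  have hnCc : IsPreconnected (-C) := by rw [hneg]; exact hCc.image _ continuous_neg.continuousOn
  have hnR : IsClosed (-R) := by
    have : IsClosed ((fun z : ℂ => -z) ⁻¹' R) := hR.preimage continuous_neg
    exact this
  have hnRc : IsPreconnected (-R) := by rw [hneg]; exact hRc.image _ continuous_neg.continuousOn
  have hnCJ : -C ⊆ J := fun z hz => by
    have := hs _ (hCJ hz)
    rwa [neg_neg] at this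
  have h0' : (0 : ℂ) ∈ -C := by
    rw [Set.mem_neg, neg_zero]
    exact h0
  have hnne : -C ≠ J := by
    intro h
    apply hne
    refine Set.Subset.antisymm hCJ fun z hz => ?_
    have h1 : -z ∈ -C := by rw [h]; exact hs z hz
    rwa [Set.mem_neg, neg_neg] at h1
  have hC'c : IsConnected (C ∪ -C) := ⟨⟨0, Or.inl h0⟩, hCc.union 0 h0 h0' hnCc⟩
  by_cases hC' : C ∪ -C = J
  · exact ⟨C, -C, hCJ, hnCJ, hne, hnne, hC, ⟨⟨0, h0⟩, hCc⟩, hnC, ⟨⟨0, h0'⟩, hnCc⟩, hC'⟩
  -- the separating set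
  obtain ⟨p, hpR, hpC⟩ := hRC
  set G : Set ℂ := (C ∪ -C) ∪ (R ∪ -R) with hG
  have hGcl : IsClosed G := (hC.isClosed.union hnC.isClosed).union (hR.union hnR)
  have hGc : IsPreconnected G := by
    have h1 : IsPreconnected ((C ∪ -C) ∪ R) := hC'c.isPreconnected.union p (Or.inl hpC) hpR hRc
    have h2 : IsPreconnected (((C ∪ -C) ∪ R) ∪ -R) := h1.union (-p) (Or.inl (Or.inr (by
      rw [Set.mem_neg, neg_neg]; exact hpC))) (by rw [Set.mem_neg, neg_neg]; exact hpR) hnRc
    rwa [union_assoc] at h2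
  have hGu : ¬ IsBounded G := fun h => hRu (h.subset fun z hz => Or.inr (Or.inl hz))
  have hGs : ∀ z ∈ G, -z ∈ G := by
    rintro z ((h | h) | (h | h))
    · exact Or.inl (Or.inr (by rw [Set.mem_neg, neg_neg]; exact h))
    · exact Or.inl (Or.inl h)
    · exact Or.inr (Or.inr (by rw [Set.mem_neg, neg_neg]; exact h))
    · exact Or.inr (Or.inl h)
  have hGJ : G ∩ J ⊆ C ∪ -C := by
    rintro z ⟨h | (h | h), hz⟩
    · exact h
    · exact Or.inl (hRJ ⟨h, hz⟩)
    · refine Or.inr ?_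
      exact hRJ ⟨h, hs z hz⟩
  obtain ⟨x, hxJ, hxC⟩ : ∃ x ∈ J, x ∉ C ∪ -C := by
    by_contra hcon
    push Not at hcon
    exact hC' (Set.Subset.antisymm (Set.union_subset hCJ hnCJ) hcon)
  have hxG : x ∉ G := fun h => hxC (hGJ ⟨h, hxJ⟩)
  have hnxG : -x ∉ G := fun h => hxG (by simpa using hGs _ h)
  have hsym := no_sym hGcl hGc hGu (Or.inl (Or.inl h0)) hGs hxG
  set U : Set ℂ := connectedComponentIn Gᶜ x with hU
  set V : Set ℂ := ⋃ y ∈ {y | y ∉ G ∧ y ∉ U}, connectedComponentIn Gᶜ y with hV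
  have hUo : IsOpen U := hGcl.isOpen_compl.connectedComponentIn
  have hVo : IsOpen V := isOpen_biUnion fun y _ => hGcl.isOpen_compl.connectedComponentIn
  have hUV : Disjoint U V := by
    rw [Set.disjoint_left]
    intro z hz hzV
    obtain ⟨y, hy, hzy⟩ := Set.mem_iUnion₂.1 hzV
    have h1 : connectedComponentIn Gᶜ x = connectedComponentIn Gᶜ z := connectedComponentIn_eq hz
    have h2 : connectedComponentIn Gᶜ y = connectedComponentIn Gᶜ z := connectedComponentIn_eq hzy
    apply hy.2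
    rw [hU, h1, ← h2]
    exact mem_connectedComponentIn hy.1
  have hUG : Disjoint G U := by
    rw [Set.disjoint_left]
    exact fun z hz hzU => connectedComponentIn_subset _ _ hzU hz
  have hVG : Disjoint G V := by
    rw [Set.disjoint_left]
    intro z hz hzV
    obtain ⟨y, hy, hzy⟩ := Set.mem_iUnion₂.1 hzV
    exact connectedComponentIn_subset _ _ hzy hz
  have hcov : J ⊆ (C ∪ -C) ∪ (U ∪ V) := by
    intro z hz
    by_cases hzG : z ∈ G
    · exact Or.inl (hGJ ⟨hzG, hz⟩)
    · by_cases hzU : z ∈ U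
      · exact Or.inr (Or.inl hzU)
      · exact Or.inr (Or.inr (Set.mem_iUnion₂.2 ⟨z, ⟨hzG, hzU⟩, mem_connectedComponentIn hzG⟩))
  have hCJ' : C ∪ -C ⊆ J := Set.union_subset hCJ hnCJ
  have hCG : C ∪ -C ⊆ G := fun z hz => Or.inl hz
  have hA := conn_part hJ.isClosed hJc hC'c hCJ' hUo hVo hcov hUV (hVG.mono_left hCG)
  have hB := conn_part hJ.isClosed hJc hC'c hCJ' hVo hUo (by rwa [union_comm V U]) hUV.symm (hUG.mono_left hCG)
  have hxU : x ∈ U := mem_connectedComponentIn hxG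
  have hnxV : -x ∈ V := Set.mem_iUnion₂.2 ⟨-x, ⟨hnxG, hsym⟩, mem_connectedComponentIn hnxG⟩
  refine ⟨J \ V, J \ U, sdiff_subset, sdiff_subset, fun h => ?_, fun h => ?_, hJ.diff hVo, hA, hJ.diff hUo, hB, ?_⟩
  · have h1 : -x ∈ J \ V := by rw [h]; exact hs x hxJ
    exact h1.2 hnxV
  · have h1 : x ∈ J \ U := by rw [h]; exact hxJ
    exact h1.2 hxU
  · refine Set.Subset.antisymm (Set.union_subset sdiff_subset sdiff_subset) fun z hz => ?_
    by_cases hzU : z ∈ U
    · exact Or.inl ⟨hz, fun h => Set.disjoint_left.1 hUV hzU h⟩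
    · exact Or.inr ⟨hz, hzU⟩

end Pool.Agent.Helper66.QJ
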