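import Mathlib

/-!
# Block QJ-RAD: one radial limit of a bounded injective holomorphic function (MP_a03adf_an)

PROOF (length and area). The image of the disk is bounded, so `∫ |φ'| ^ 2` over the disk is at most the area of
`closedBall 0 M`, finite (change of variables for the injective map: `MeasureTheory.lintegral_abs_det_fderiv_eq_addHaar_image`,
the determinant of the real derivative of a holomorphic map is the squared norm of the complex derivative). In polar
coordinates (`Complex.lintegral_comp_polarCoord_symm`), for almost every angle `t` the integral over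
`1/2 < r < 1` of `|φ'(r e^{it})| ^ 2` is finite. Fix one such `t`. By `|φ'| ≤ 1 + |φ'| ^ 2` the integral
of `|φ'(r e^{it})|` is finite, so `r ↦ φ (r e^{it})` has a limit as `r → 1-`.
-/

set_option autoImplicit false

open Set Topology Metric Bornology Filter MeasureTheory

namespace Pool.Agent.Helper66.QJ

/-- the determinant of the real derivative of a holomorphic map -/
theorem rad_det (w : ℂ) :
    ((ContinuousLinearMap.toSpanSingleton ℂ w : ℂ →L[ℂ] ℂ).restrictScalars ℝ).det = ‖w‖ ^ 2 := by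
  have : ((ContinuousLinearMap.toSpanSingleton ℂ w : ℂ →L[ℂ] ℂ).restrictScalars ℝ).det =
      Algebra.norm ℝ w := by
    rw [ContinuousLinearMap.det, ContinuousLinearMap.coe_restrictScalars, LinearMap.det_restrictScalars]
    congr 1
    simp
  rw [this, Algebra.norm_complex_apply, Complex.normSq_eq_norm_sq]

/-- the area integral is finite -/
theorem rad_area {φ : ℂ → ℂ} (hd : DifferentiableOn ℂ φ (ball 0 1)) (hi : InjOn φ (ball 0 1)) {M : ℝ}
    (hb : ∀ z ∈ ball (0 : ℂ) 1, ‖φ z‖ ≤ M) :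
    ∫⁻ z in ball (0 : ℂ) 1, ENNReal.ofReal (‖deriv φ z‖ ^ 2) ≠ ⊤ := by
  have h1 : ∀ z ∈ ball (0 : ℂ) 1, HasFDerivWithinAt φ
      ((ContinuousLinearMap.toSpanSingleton ℂ (deriv φ z) : ℂ →L[ℂ] ℂ).restrictScalars ℝ) (ball 0 1) z := by
    intro z hz
    have h2 : HasDerivAt φ (deriv φ z) z := (hd.differentiableAt (isOpen_ball.mem_nhds hz)).hasDerivAt
    exact (h2.hasFDerivAt.restrictScalars ℝ).hasFDerivWithinAt
  have h2 := lintegral_abs_det_fderiv_eq_addHaar_image volume measurableSet_ball h1 hi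
  have h3 : ∫⁻ z in ball (0 : ℂ) 1, ENNReal.ofReal (‖deriv φ z‖ ^ 2) = volume (φ '' ball (0 : ℂ) 1) := by
    rw [← h2]
    refine setLIntegral_congr_fun measurableSet_ball (fun z _ => ?_)
    simp only [rad_det]
    rw [abs_of_nonneg (by positivity)]
  rw [h3]
  have h4 : φ '' ball (0 : ℂ) 1 ⊆ closedBall 0 M := by
    rintro _ ⟨z, hz, rfl⟩
    simpa using hb z hz
  exact ((measure_mono h4).trans_lt measure_closedBall_lt_top).ne

/-- one angle with finite length integral -/
theorem rad_angle {g : ℂ → ENNReal} (hg : Measurable g) (hfin : ∫⁻ z in ball (0 : ℂ) 1, g z ≠ ⊤) :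
    ∃ t : ℝ, ∫⁻ r in Ioo (1 / 2 : ℝ) 1, g (r * Complex.exp (t * Complex.I)) ≠ ⊤ := by
  have h1 : ∫⁻ z, (ball (0 : ℂ) 1).indicator g z ≠ ⊤ := by
    rwa [lintegral_indicator measurableSet_ball]
  rw [← Complex.lintegral_comp_polarCoord_symm] at h1
  have hm : Measurable (fun p : ℝ × ℝ => ENNReal.ofReal p.1 • (ball (0 : ℂ) 1).indicator g (Complex.polarCoord.symm p)) := by
    have hm1 : Measurable (fun p : ℝ × ℝ => Complex.polarCoord.symm p) := by
      simp only [Complex.polarCoord_symm_apply]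
      fun_prop
    exact (ENNReal.measurable_ofReal.comp measurable_fst).smul ((hg.indicator measurableSet_ball).comp hm1)
  have ht : polarCoord.target = Ioi (0 : ℝ) ×ˢ Ioo (-Real.pi) Real.pi := rfl
  rw [ht, Measure.volume_eq_prod, ← Measure.prod_restrict, lintegral_prod_symm' _ hm] at h1
  have h2 := ae_lt_top (hm.lintegral_prod_left') h1
  have h3 : (volume.restrict (Ioo (-Real.pi) Real.pi)) ≠ 0 := by
    intro h
    rw [Measure.restrict_eq_zero, Real.volume_Ioo] at h
    simp at h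
    linarith [Real.pi_pos]
  have : NeBot (ae (volume.restrict (Ioo (-Real.pi) Real.pi))) := ae_neBot.2 h3
  obtain ⟨t, ht⟩ := h2.exists
  refine ⟨t, ?_⟩
  have h4 : ∫⁻ r in Ioo (1 / 2 : ℝ) 1, g (r * Complex.exp (t * Complex.I)) ≤
      2 * ∫⁻ r in Ioi (0 : ℝ), ENNReal.ofReal r • (ball (0 : ℂ) 1).indicator g (Complex.polarCoord.symm (r, t)) := by
    rw [← lintegral_const_mul' _ _ (by simp)]
    have hsub : Ioo (1 / 2 : ℝ) 1 ⊆ Ioi 0 := fun r hr => by
      simp only [mem_Ioi]; linarith [hr.1]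
    refine le_trans ?_ (lintegral_mono_set hsub)
    refine setLIntegral_mono' measurableSet_Ioo (fun r hr => ?_)
    have hpc : Complex.polarCoord.symm (r, t) = r * Complex.exp (t * Complex.I) := by
      rw [Complex.polarCoord_symm_apply, Complex.exp_mul_I]
      simp
    have hball : (r * Complex.exp (t * Complex.I) : ℂ) ∈ ball (0 : ℂ) 1 := by
      rw [mem_ball_zero_iff, norm_mul, Complex.norm_exp_ofReal_mul_I, mul_one, Complex.norm_real, Real.norm_eq_abs,
        abs_of_nonneg (by linarith [hr.1])]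
      exact hr.2
    rw [hpc, indicator_of_mem hball, smul_eq_mul, ← mul_assoc]
    have h5 : (1 : ENNReal) ≤ 2 * ENNReal.ofReal r := by
      have : (2 : ENNReal) * ENNReal.ofReal r = ENNReal.ofReal (2 * r) := by
        rw [ENNReal.ofReal_mul (by norm_num)]; simp
      rw [this]
      rw [ENNReal.one_le_ofReal]
      linarith [hr.1]
    calc g (r * Complex.exp (t * Complex.I)) = 1 * g (r * Complex.exp (t * Complex.I)) := (one_mul _).symm
      _ ≤ _ := by gcongr
  exact (h4.trans_lt (ENNReal.mul_lt_top (by simp) ht)).ne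

/-- a function with integrable derivative has a limit -/
theorem rad_lim {g g' : ℝ → ℂ} (hg : ∀ r ∈ Ioo (0 : ℝ) 1, HasDerivAt g (g' r) r)
    (hint : IntegrableOn g' (Ioo (1 / 2 : ℝ) 1)) : ∃ x : ℂ, Tendsto g (𝓝[<] 1) (𝓝 x) := by
  have hint' : IntegrableOn g' (Icc (1 / 2 : ℝ) 1) := by
    rwa [integrableOn_Icc_iff_integrableOn_Ioo]
  have hint2 : IntegrableOn g' (uIcc (1 / 2 : ℝ) 1) := by rwa [uIcc_of_le (by norm_num)]
  have hc := intervalIntegral.continuousOn_primitive_interval hint2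
  rw [uIcc_of_le (by norm_num)] at hc
  have hc1 : Tendsto (fun x => ∫ t in (1 / 2 : ℝ)..x, g' t) (𝓝[Icc (1 / 2 : ℝ) 1] 1)
      (𝓝 (∫ t in (1 / 2 : ℝ)..1, g' t)) := hc 1 ⟨by norm_num, le_refl _⟩
  have hc2 : Tendsto (fun x => ∫ t in (1 / 2 : ℝ)..x, g' t) (𝓝[<] 1)
      (𝓝 (∫ t in (1 / 2 : ℝ)..1, g' t)) := by
    refine hc1.mono_left ?_
    rw [← nhdsWithin_Ioo_eq_nhdsLT (show (1 / 2 : ℝ) < 1 by norm_num)]
    exact nhdsWithin_mono _ Ioo_subset_Icc_self
  refine ⟨g (1 / 2) + ∫ t in (1 / 2 : ℝ)..1, g' t, ?_⟩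
  refine (tendsto_const_nhds.add hc2).congr' ?_
  have hev : ∀ᶠ x : ℝ in 𝓝[<] 1, x ∈ Ioo (1 / 2 : ℝ) 1 := Ioo_mem_nhdsLT (by norm_num)
  filter_upwards [hev] with x hx
  have hle : (1 / 2 : ℝ) ≤ x := hx.1.le
  rw [intervalIntegral.integral_eq_sub_of_hasDerivAt (f := g)]
  · ring
  · intro y hy
    rw [uIcc_of_le hle] at hy
    exact hg y ⟨by linarith [hy.1], by linarith [hy.2, hx.2]⟩
  · rw [intervalIntegrable_iff_integrableOn_Icc_of_le hle]
    exact hint'.mono_set (Icc_subset_Icc le_rfl hx.2.le)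

theorem exists_radial {φ : ℂ → ℂ} (hd : DifferentiableOn ℂ φ (ball 0 1)) (hi : InjOn φ (ball 0 1)) {M : ℝ}
    (hb : ∀ z ∈ ball (0 : ℂ) 1, ‖φ z‖ ≤ M) :
    ∃ t : ℝ, ∃ x : ℂ, Tendsto (fun r : ℝ => φ (r * Complex.exp (t * Complex.I))) (𝓝[<] 1) (𝓝 x) := by
  have hmd : Measurable (deriv φ) := measurable_deriv φ
  have hmg : Measurable (fun z => ENNReal.ofReal (‖deriv φ z‖ ^ 2)) :=
    ENNReal.measurable_ofReal.comp (hmd.norm.pow_const 2)
  obtain ⟨t, ht⟩ := rad_angle hmg (rad_area hd hi hb)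
  refine ⟨t, ?_⟩
  set e : ℂ := Complex.exp (t * Complex.I) with he
  have hne : ‖e‖ = 1 := Complex.norm_exp_ofReal_mul_I t
  have hme : Measurable (fun r : ℝ => deriv φ (r * e) * e) := by
    have : Measurable (fun r : ℝ => (r * e : ℂ)) := by fun_prop
    exact (hmd.comp this).mul_const e
  refine rad_lim (g := fun r : ℝ => φ (r * e)) (g' := fun r : ℝ => deriv φ (r * e) * e) ?_ ?_
  · intro r hr
    have hball : (r * e : ℂ) ∈ ball (0 : ℂ) 1 := by
      rw [mem_ball_zero_iff, norm_mul, hne, mul_one, Complex.norm_real, Real.norm_eq_abs,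
        abs_of_nonneg hr.1.le]
      exact hr.2
    have h2 : HasDerivAt φ (deriv φ (r * e)) (r * e) :=
      (hd.differentiableAt (isOpen_ball.mem_nhds hball)).hasDerivAt
    have h3 : HasDerivAt (fun z : ℂ => z * e) e (r : ℂ) := by
      simpa using (hasDerivAt_id (r : ℂ)).mul_const e
    have h4 : HasDerivAt (fun z : ℂ => φ (z * e)) (deriv φ (r * e) * e) (r : ℂ) := h2.comp (r : ℂ) h3
    exact h4.comp_ofReal
  · refine ⟨hme.aestronglyMeasurable, ?_⟩
    rw [hasFiniteIntegral_iff_enorm]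
    have h5 : ∫⁻ r in Ioo (1 / 2 : ℝ) 1, ‖deriv φ (r * e) * e‖ₑ ≤
        ∫⁻ r in Ioo (1 / 2 : ℝ) 1, (1 + ENNReal.ofReal (‖deriv φ (r * e)‖ ^ 2)) := by
      refine lintegral_mono (fun r => ?_)
      have : ‖deriv φ (r * e) * e‖ₑ = ENNReal.ofReal ‖deriv φ (r * e)‖ := by
        rw [enorm_mul, ← ofReal_norm, ← ofReal_norm, hne]; simp
      rw [this]
      have h1 : (1 : ENNReal) = ENNReal.ofReal 1 := by simp
      rw [h1, ← ENNReal.ofReal_add zero_le_one (by positivity)]
      apply ENNReal.ofReal_le_ofReal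
      nlinarith [sq_nonneg (‖deriv φ (r * e)‖ - 1), norm_nonneg (deriv φ (r * e))]
    refine h5.trans_lt ?_
    rw [lintegral_add_left measurable_const]
    refine ENNReal.add_lt_top.2 ⟨?_, ht.lt_top⟩
    simp

end Pool.Agent.Helper66.QJ
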