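import Pool.Agent.Helper66.QJ.Internal

/-!
# Siegel disks whose linearisation extends to the boundary (MP_a03adf_an)

`dec_of_tame`: if the conformal conjugacy of a Siegel disk `S` to a rotation extends continuously to the closure of `S` and
`0` is in the boundary of `S`, then the Julia set is decomposable.
-/

set_option autoImplicit false

open Set Topology Metric Bornology Filter

namespace Pool.Agent.Helper66.QJ

variable {c : ℂ}

/-- away from the critical point, `f` is injective on the closure of a connected subset of `K` -/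
theorem no_pair {W : Set ℂ} (hWK : W ⊆ K c) (hWc : IsPreconnected W) (h0 : (0 : ℂ) ∉ closure W) (hcJ : c ∈ J c) {z : ℂ}
    (hz : z ∈ closure W) : -z ∉ closure W := by
  intro hz'
  have hPK : closure W ⊆ K c := closure_minimal hWK (isClosed_K c)
  have hP : IsCompact (closure W) := (isCompact_K c).of_isClosed_subset isClosed_closure hPK
  have hPc : IsPreconnected (closure W) := hWc.closure
  have hQ : IsCompact (f c '' closure W) := hP.image (continuous_f c)
  have hQK : f c '' closure W ⊆ K c := by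
    rintro _ ⟨x, hx, rfl⟩
    exact f_mem_K_iff.2 (hPK hx)
  have hcQ : c ∉ f c '' closure W := by
    rintro ⟨x, hx, hxc⟩
    have h1 : f c x = f c 0 := by rw [hxc, f_zero]
    rcases f_eq_iff.1 h1 with h | h
    · exact h0 (h ▸ hx)
    · rw [neg_zero] at h
      exact h0 (h ▸ hx)
  obtain ⟨T, hT, hTc, hTu, hcT, hTQ⟩ := exists_tail hcJ hQ.isClosed hQK hcQ
  obtain ⟨r, hr, hr2⟩ := exists_sqrt hT hTc hTu hcT hQ hTQ.symm
  have hfr : ∀ x ∈ closure W, f c (r (f c x)) = f c x := fun x hx => by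
    have h1 := hr2 _ (mem_image_of_mem (f c) hx)
    rw [f, h1]
    ring
  have hcont : ContinuousOn (fun x => r (f c x)) (closure W) :=
    hr.comp (continuous_f c).continuousOn (mapsTo_image _ _)
  have hA : IsClosed {x | x ∈ closure W ∧ r (f c x) - x = 0} := by
    have h1 := (hcont.sub continuousOn_id).preimage_isClosed_of_isClosed isClosed_closure (isClosed_singleton (x := (0 : ℂ)))
    exact h1
  have hB : IsClosed {x | x ∈ closure W ∧ r (f c x) + x = 0} := by
    have h1 := (hcont.add continuousOn_id).preimage_isClosed_of_isClosed isClosed_closure (isClosed_singleton (x := (0 : ℂ)))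
    exact h1
  have hcov : closure W ⊆ {x | x ∈ closure W ∧ r (f c x) - x = 0} ∪ {x | x ∈ closure W ∧ r (f c x) + x = 0} := by
    intro x hx
    rcases f_eq_iff.1 (hfr x hx) with h | h
    · exact Or.inl ⟨hx, sub_eq_zero.2 h⟩
    · exact Or.inr ⟨hx, by rw [h]; ring⟩
  have hne : (closure W ∩ {x | x ∈ closure W ∧ r (f c x) - x = 0}).Nonempty ∧
      (closure W ∩ {x | x ∈ closure W ∧ r (f c x) + x = 0}).Nonempty := by
    rcases f_eq_iff.1 (hfr z hz) with h | h
    · refine ⟨⟨z, hz, hz, sub_eq_zero.2 h⟩, ⟨-z, hz', hz', ?_⟩⟩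
      rw [f_neg, h]
      ring
    · refine ⟨⟨-z, hz', hz', ?_⟩, ⟨z, hz, hz, ?_⟩⟩
      · rw [f_neg, h]
        ring
      · rw [h]
        ring
  obtain ⟨x, hx, ⟨-, h1⟩, -, h2⟩ := (isPreconnected_closed_iff.1 hPc) _ _ hA hB hcov hne.1 hne.2
  have h3 : x = 0 := by
    have h4 : (2 : ℂ) * x = 0 := by linear_combination h2 - h1
    exact (mul_eq_zero.1 h4).resolve_left two_ne_zero
  exact h0 (h3 ▸ hx)

section

variable {S : Set ℂ} {ψ : ℂ → ℂ}

/-- preimages of connected sets under a holomorphic bijection are connected -/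
theorem conn_preimage (hSo : IsOpen S) (hSc : IsPreconnected S) (hψd : DifferentiableOn ℂ ψ S)
    (hψb : BijOn ψ S (ball 0 1)) {V : Set ℂ} (hV : IsPreconnected V) (hVb : V ⊆ ball 0 1) :
    IsPreconnected (S ∩ ψ ⁻¹' V) := by
  have han : AnalyticOnNhd ℂ ψ S := hψd.analyticOnNhd hSo
  have hopen : ∀ s ⊆ S, IsOpen s → IsOpen (ψ '' s) := by
    rcases han.is_constant_or_isOpen hSc with ⟨w, hw⟩ | h
    · exfalso
      obtain ⟨x, hx, hx0⟩ := hψb.surjOn (show (0 : ℂ) ∈ ball (0 : ℂ) 1 from mem_ball_self one_pos)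
      obtain ⟨y, hy, hy0⟩ := hψb.surjOn (show (1 / 2 : ℂ) ∈ ball (0 : ℂ) 1 by
        rw [mem_ball_zero_iff]
        norm_num)
      rw [hw x hx] at hx0
      rw [hw y hy, hx0] at hy0
      norm_num at hy0
    · exact h
  have hinj : Function.Injective (S.domRestrict ψ) := hψb.injOn.injective
  have hom : IsOpenMap (S.domRestrict ψ) := by
    intro U hU
    have h1 : IsOpen (Subtype.val '' U : Set ℂ) := hSo.isOpenMap_subtype_val U hU
    have h2 := hopen _ (by rintro _ ⟨x, -, rfl⟩; exact x.2) h1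
    have h3 : S.domRestrict ψ '' U = ψ '' (Subtype.val '' U) := by
      rw [image_image]
      rfl
    rw [h3]
    exact h2
  have hrange : V ⊆ range (S.domRestrict ψ) := by
    intro v hv
    obtain ⟨x, hx, hxv⟩ := hψb.surjOn (hVb hv)
    exact ⟨⟨x, hx⟩, hxv⟩
  have h4 : IsPreconnected (S.domRestrict ψ ⁻¹' V) := hV.preimage_of_isOpenMap hinj hom hrange
  have h5 : S ∩ ψ ⁻¹' V = Subtype.val '' (S.domRestrict ψ ⁻¹' V) := by
    ext x
    constructor
    · rintro ⟨hx, hxV⟩
      exact ⟨⟨x, hx⟩, hxV, rfl⟩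
    · rintro ⟨⟨y, hy⟩, hyV, rfl⟩
      exact ⟨hy, hyV⟩
  rw [h5]
  exact h4.image _ continuous_subtype_val.continuousOn

/-- a boundary point is mapped to the unit circle -/
theorem norm_eq_one (hSo : IsOpen S) (hSc : IsPreconnected S) (hψ : ContinuousOn ψ (closure S))
    (hψd : DifferentiableOn ℂ ψ S) (hψb : BijOn ψ S (ball 0 1)) {x : ℂ} (hx : x ∈ closure S) (hxS : x ∉ S) :
    ‖ψ x‖ = 1 := by
  have hle : ‖ψ x‖ ≤ 1 := by
    have h1 : ψ x ∈ closure (ψ '' S) := (hψ.image_closure) ⟨x, hx, rfl⟩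
    have h2 : closure (ψ '' S) ⊆ closedBall 0 1 := by
      rw [hψb.image_eq]
      exact closure_ball_subset_closedBall
    exact mem_closedBall_zero_iff.1 (h2 h1)
  refine le_antisymm hle (not_lt.1 fun hlt => ?_)
  obtain ⟨y, hy, hyx⟩ := hψb.surjOn (mem_ball_zero_iff.2 hlt)
  have hxy : y ≠ x := fun h => hxS (h ▸ hy)
  obtain ⟨r, hr, hrS⟩ := Metric.isOpen_iff.1 hSo y hy
  obtain ⟨d, hd, hdr, hdx⟩ : ∃ d : ℝ, 0 < d ∧ d < r ∧ d < dist y x := by
    have h1 : 0 < dist y x := dist_pos.2 hxy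
    exact ⟨min r (dist y x) / 2, by positivity, by linarith [min_le_left r (dist y x), lt_min hr h1], by
      linarith [min_le_right r (dist y x), lt_min hr h1]⟩
  -- the complement of the closed ball in `S` stays away from `ψ x`
  have hsub : ball y d ⊆ S := (ball_subset_ball hdr.le).trans hrS
  have hopen : IsOpen (ψ '' ball y d) := by
    have han : AnalyticOnNhd ℂ ψ S := hψd.analyticOnNhd hSo
    rcases han.is_constant_or_isOpen hSc with ⟨w, hw⟩ | h
    · exfalso
      obtain ⟨u, hu, hu0⟩ := hψb.surjOn (show (0 : ℂ) ∈ ball (0 : ℂ) 1 from mem_ball_self one_pos)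
      obtain ⟨v, hv, hv0⟩ := hψb.surjOn (show (1 / 2 : ℂ) ∈ ball (0 : ℂ) 1 by
        rw [mem_ball_zero_iff]
        norm_num)
      rw [hw u hu] at hu0
      rw [hw v hv, hu0] at hv0
      norm_num at hv0
    · exact h _ hsub isOpen_ball
  have hmem : ψ '' ball y d ∈ 𝓝 (ψ x) := hopen.mem_nhds ⟨y, mem_ball_self hd, hyx⟩
  have h1 : ∀ᶠ u in 𝓝[closure S] x, ψ u ∈ ψ '' ball y d := (hψ x hx).eventually hmem
  have h2 : ∀ᶠ u in 𝓝[S] x, ψ u ∈ ψ '' ball y d := h1.filter_mono (nhdsWithin_mono _ subset_closure)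
  have h3 : ∀ᶠ u in 𝓝[S] x, d < dist y u := by
    refine mem_nhdsWithin_of_mem_nhds ?_
    have h4 : Continuous fun u => dist y u := continuous_const.dist continuous_id
    exact h4.continuousAt.eventually (lt_mem_nhds hdx)
  have hne : (𝓝[S] x).NeBot := mem_closure_iff_nhdsWithin_neBot.1 hx
  obtain ⟨u, hu⟩ := (h2.and (h3.and self_mem_nhdsWithin)).exists
  obtain ⟨⟨v, hv, hvu⟩, hdu, huS⟩ := hu
  have h5 : v = u := hψb.injOn (hsub hv) huS hvu
  rw [h5, mem_ball, dist_comm] at hv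
  linarith

/-- fibres of the extension are connected -/
theorem conn_fibre (hSo : IsOpen S) (hSc : IsPreconnected S) (hSK : S ⊆ K c) (hψ : ContinuousOn ψ (closure S))
    (hψd : DifferentiableOn ℂ ψ S) (hψb : BijOn ψ S (ball 0 1)) {V : ℕ → Set ℂ} {E : Set ℂ} (hVo : ∀ n, IsOpen (V n))
    (hVa : ∀ {m n : ℕ}, m ≤ n → V n ⊆ V m) (hVc : ∀ n, IsPreconnected (ball 0 1 ∩ V n)) (hEV : ∀ n, E ⊆ V n)
    (hVE : ∀ w, (∀ n, w ∈ closure (V n)) → w ∈ E) : IsPreconnected {x | x ∈ closure S ∧ ψ x ∈ E} := by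
  have hclK : closure S ⊆ K c := closure_minimal hSK (isClosed_K c)
  have hWeq : ∀ n, S ∩ ψ ⁻¹' (ball 0 1 ∩ V n) = S ∩ ψ ⁻¹' V n := by
    intro n
    ext x
    constructor
    · rintro ⟨hx, -, hxV⟩
      exact ⟨hx, hxV⟩
    · rintro ⟨hx, hxV⟩
      exact ⟨hx, hψb.mapsTo hx, hxV⟩
  have hB : ∀ n, IsCompact (closure (S ∩ ψ ⁻¹' V n)) := fun n =>
    (isCompact_K c).of_isClosed_subset isClosed_closure ((closure_mono inter_subset_left).trans hclK)
  have hBc : ∀ n, IsPreconnected (closure (S ∩ ψ ⁻¹' V n)) := fun n => by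
    have h1 := conn_preimage hSo hSc hψd hψb (hVc n) inter_subset_left
    rw [hWeq n] at h1
    exact h1.closure
  have ha : ∀ {m n : ℕ}, m ≤ n → closure (S ∩ ψ ⁻¹' V n) ⊆ closure (S ∩ ψ ⁻¹' V m) := fun h =>
    closure_mono (inter_subset_inter_right _ (preimage_mono (hVa h)))
  have heq : {x | x ∈ closure S ∧ ψ x ∈ E} = ⋂ n, closure (S ∩ ψ ⁻¹' V n) := by
    ext x
    rw [mem_iInter]
    constructor
    · rintro ⟨hx, hxE⟩ n
      have h1 : ∀ᶠ u in 𝓝[closure S] x, ψ u ∈ V n := (hψ x hx).eventually ((hVo n).mem_nhds (hEV n hxE))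
      have h2 : ∀ᶠ u in 𝓝[S] x, ψ u ∈ V n := h1.filter_mono (nhdsWithin_mono _ subset_closure)
      have hne : (𝓝[S] x).NeBot := mem_closure_iff_nhdsWithin_neBot.1 hx
      rw [mem_closure_iff_frequently]
      have h4 : ∀ᶠ u in 𝓝[S] x, u ∈ S := self_mem_nhdsWithin
      have h3 : ∃ᶠ u in 𝓝[S] x, u ∈ S ∩ ψ ⁻¹' V n := (h4.and h2).frequently
      exact h3.filter_mono nhdsWithin_le_nhds
    · intro hx
      have hxS : x ∈ closure S := closure_mono inter_subset_left (hx 0)
      refine ⟨hxS, hVE _ fun n => ?_⟩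
      have h1 : ψ x ∈ closure (ψ '' (S ∩ ψ ⁻¹' V n)) :=
        ((hψ.mono (closure_mono inter_subset_left)).image_closure) ⟨x, hx n, rfl⟩
      refine closure_mono ?_ h1
      rintro _ ⟨u, hu, rfl⟩
      exact hu.2
  rw [heq]
  exact iInter_conn hB hBc ha

/-- `ball 0 1` without a smaller closed ball is connected -/
theorem conn_annulus {ρ : ℝ} (hρ0 : 0 ≤ ρ) : IsPreconnected (ball (0 : ℂ) 1 ∩ {w | ρ < ‖w‖}) := by
  have h1 : ball (0 : ℂ) 1 ∩ {w | ρ < ‖w‖} = (fun p : ℝ × ℝ => (p.1 : ℂ) * Complex.exp (p.2 * Complex.I)) ''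
      (Ioo ρ 1 ×ˢ (univ : Set ℝ)) := by
    ext w
    constructor
    · rintro ⟨hw, hw'⟩
      refine ⟨(‖w‖, w.arg), ⟨⟨hw', mem_ball_zero_iff.1 hw⟩, mem_univ _⟩, ?_⟩
      exact Complex.norm_mul_exp_arg_mul_I w
    · rintro ⟨⟨r, t⟩, ⟨⟨hr, hr'⟩, -⟩, rfl⟩
      have h2 : ‖(r : ℂ) * Complex.exp (t * Complex.I)‖ = r := by
        rw [norm_mul, Complex.norm_exp_ofReal_mul_I, mul_one, Complex.norm_real, Real.norm_of_nonneg]
        have h3 : ρ < r := hr
        linarith
      refine ⟨?_, ?_⟩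
      · rw [mem_ball_zero_iff]
        show ‖(r : ℂ) * Complex.exp (t * Complex.I)‖ < 1
        rw [h2]
        exact hr'
      · show ρ < ‖(r : ℂ) * Complex.exp (t * Complex.I)‖
        rw [h2]
        exact hr
  rw [h1]
  exact (isPreconnected_Ioo.prod isPreconnected_univ).image _ (by fun_prop)

theorem dec_of_tame {a lam : ℂ} (ha : f c a = a) (haS : a ∈ S) (hSo : IsOpen S) (hSc : IsPreconnected S)
    (hSK : S ⊆ K c) (hfrJ : frontier S ⊆ J c) (hfS : ∀ z ∈ S, f c z ∈ S) (h0 : (0 : ℂ) ∈ frontier S)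
    (hψ : ContinuousOn ψ (closure S)) (hψd : DifferentiableOn ℂ ψ S) (hψb : BijOn ψ S (ball 0 1))
    (hlam : ‖lam‖ = 1) (hlam1 : lam ≠ 1) (hsemi : ∀ z ∈ S, ψ (f c z) = lam * ψ z) : Dec (J c) := by
  have hclK : closure S ⊆ K c := closure_minimal hSK (isClosed_K c)
  have hclS : IsCompact (closure S) := (isCompact_K c).of_isClosed_subset isClosed_closure hclK
  have hSint : S ⊆ interior (K c) := interior_maximal hSK hSo
  have hSJ : ∀ z ∈ S, z ∉ J c := fun z hz hJ => by
    have h1 : z ∈ K c \ interior (K c) := by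
      rw [← (isClosed_K c).frontier_eq]
      exact hJ
    exact h1.2 (hSint hz)
  have hfr : ∀ z, z ∈ frontier S ↔ z ∈ closure S ∧ z ∉ S := by
    intro z
    rw [frontier, hSo.interior_eq]
    rfl
  have hnorm : ∀ z ∈ frontier S, ‖ψ z‖ = 1 := fun z hz =>
    norm_eq_one hSo hSc hψ hψd hψb ((hfr z).1 hz).1 ((hfr z).1 hz).2
  have hnorm' : ∀ z ∈ S, ‖ψ z‖ < 1 := fun z hz => mem_ball_zero_iff.1 (hψb.mapsTo hz)
  have hlam0 : lam ≠ 0 := fun h => by
    rw [h, norm_zero] at hlam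
    norm_num at hlam
  -- the dynamics on the closure
  have hfcl : ∀ z ∈ closure S, f c z ∈ closure S := fun z hz => by
    have h1 : f c '' closure S ⊆ closure (f c '' S) := (continuous_f c).continuousOn.image_closure
    refine closure_mono ?_ (h1 ⟨z, hz, rfl⟩)
    rintro _ ⟨u, hu, rfl⟩
    exact hfS u hu
  have hsemi' : ∀ z ∈ closure S, ψ (f c z) = lam * ψ z := by
    have h1 : EqOn (fun z => ψ (f c z)) (fun z => lam * ψ z) S := hsemi
    have h2 : ContinuousOn (fun z => ψ (f c z)) (closure S) := hψ.comp (continuous_f c).continuousOn hfcl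
    have h3 : ContinuousOn (fun z => lam * ψ z) (closure S) := continuousOn_const.mul hψ
    exact h1.of_subset_closure h2 h3 subset_closure Subset.rfl
  have hfS' : S ⊆ f c '' S := by
    intro s hs
    have h1 : lam⁻¹ * ψ s ∈ ball (0 : ℂ) 1 := by
      rw [mem_ball_zero_iff, norm_mul, norm_inv, hlam, inv_one, one_mul]
      exact hnorm' s hs
    obtain ⟨z, hz, hzs⟩ := hψb.surjOn h1
    refine ⟨z, hz, hψb.injOn (hfS z hz) hs ?_⟩
    rw [hsemi z hz, hzs, mul_inv_cancel_left₀ hlam0]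
  have hfcl' : closure S ⊆ f c '' closure S := closure_minimal (hfS'.trans (image_mono subset_closure))
    (hclS.image (continuous_f c)).isClosed
  have hfX : f c '' frontier S = frontier S := by
    apply Subset.antisymm
    · rintro _ ⟨z, hz, rfl⟩
      exact (hfr _).2 ⟨hfcl z ((hfr z).1 hz).1, fun h => hSJ _ h (f_mem_J_iff.2 (hfrJ hz))⟩
    · intro x hx
      obtain ⟨z, hz, rfl⟩ := hfcl' ((hfr x).1 hx).1
      exact ⟨z, (hfr z).2 ⟨hz, fun h => ((hfr _).1 hx).2 (hfS z h)⟩, rfl⟩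
  have hXcomp : IsCompact (frontier S) := hclS.of_isClosed_subset isClosed_frontier frontier_subset_closure
  -- the boundary is connected
  have hXeq : frontier S = {x | x ∈ closure S ∧ ψ x ∈ {w : ℂ | 1 ≤ ‖w‖}} := by
    ext x
    rw [hfr]
    refine and_congr_right fun hx => ⟨fun h => ?_, fun h hS => ?_⟩
    · exact (norm_eq_one hSo hSc hψ hψd hψb hx h).ge
    · exact absurd (hnorm' x hS) (not_lt.2 h)
  have hXc : IsPreconnected (frontier S) := by
    rw [hXeq]
    have hpos : ∀ n : ℕ, 0 < 1 / ((n : ℝ) + 1) := fun n => Nat.one_div_pos_of_nat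
    have hle1 : ∀ n : ℕ, 1 / ((n : ℝ) + 1) ≤ 1 := fun n => by
      rw [div_le_one (by positivity)]
      linarith [n.cast_nonneg (α := ℝ)]
    refine conn_fibre (V := fun n : ℕ => {w : ℂ | 1 - 1 / ((n : ℝ) + 1) < ‖w‖}) hSo hSc hSK hψ hψd hψb (fun n => ?_)
      (fun {m n} hmn w hw => ?_) (fun n => ?_) (fun n w hw => ?_) (fun w hw => ?_)
    · exact isOpen_lt continuous_const continuous_norm
    · have h1 : 1 / ((n : ℝ) + 1) ≤ 1 / ((m : ℝ) + 1) := Nat.one_div_le_one_div hmn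
      have h2 : 1 - 1 / ((n : ℝ) + 1) < ‖w‖ := hw
      show 1 - 1 / ((m : ℝ) + 1) < ‖w‖
      linarith
    · exact conn_annulus (by linarith [hle1 n])
    · have h1 : 1 ≤ ‖w‖ := hw
      show 1 - 1 / ((n : ℝ) + 1) < ‖w‖
      linarith [hpos n]
    · show 1 ≤ ‖w‖
      refine le_of_forall_pos_lt_add fun ε hε => ?_
      obtain ⟨n, hn⟩ := exists_nat_one_div_lt hε
      have h1 : w ∈ {w : ℂ | 1 - 1 / ((n : ℝ) + 1) ≤ ‖w‖} :=
        closure_minimal (fun v (hv : 1 - 1 / ((n : ℝ) + 1) < ‖v‖) => hv.le) (isClosed_le continuous_const continuous_norm)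
          (hw n)
      have h2 : 1 - 1 / ((n : ℝ) + 1) ≤ ‖w‖ := h1
      linarith
  -- the fibre of the critical point
  have h0cl : (0 : ℂ) ∈ closure S := ((hfr 0).1 h0).1
  have hIc : IsPreconnected {x | x ∈ closure S ∧ ψ x ∈ ({ψ 0} : Set ℂ)} := by
    have hpos : ∀ n : ℕ, 0 < 1 / ((n : ℝ) + 1) := fun n => Nat.one_div_pos_of_nat
    refine conn_fibre (V := fun n : ℕ => ball (ψ 0) (1 / ((n : ℝ) + 1))) hSo hSc hSK hψ hψd hψb (fun n => isOpen_ball)
      (fun {m n} hmn => ball_subset_ball (Nat.one_div_le_one_div hmn)) (fun n => ?_) (fun n w hw => ?_) (fun w hw => ?_)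
    · exact ((convex_ball _ _).inter (convex_ball _ _)).isPreconnected
    · rw [mem_singleton_iff.1 hw]
      exact mem_ball_self (hpos n)
    · rw [mem_singleton_iff, ← dist_le_zero]
      refine le_of_forall_pos_lt_add fun ε hε => ?_
      obtain ⟨n, hn⟩ := exists_nat_one_div_lt hε
      have h1 := closure_ball_subset_closedBall (hw n)
      rw [mem_closedBall] at h1
      linarith
  have hIcl : IsClosed {x | x ∈ closure S ∧ ψ x ∈ ({ψ 0} : Set ℂ)} :=
    hψ.preimage_isClosed_of_isClosed isClosed_closure isClosed_singleton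
  have hIX : {x | x ∈ closure S ∧ ψ x ∈ ({ψ 0} : Set ℂ)} ⊆ frontier S := by
    rintro x ⟨hx, hxψ⟩
    refine (hfr x).2 ⟨hx, fun hS => ?_⟩
    have h1 := hnorm' x hS
    rw [mem_singleton_iff.1 hxψ, hnorm 0 h0] at h1
    exact lt_irrefl _ h1
  have hcJ : c ∈ J c := c_mem_J (hfrJ h0)
  have hYI : ∀ y ∈ frontier S, -y ∈ frontier S → ψ y = ψ 0 := by
    intro y hy hy'
    by_contra hne
    have hycl := ((hfr y).1 hy).1
    have hycl' := ((hfr _).1 hy').1
    have h1 : ψ (-y) = ψ y := by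
      have h2 := hsemi' y hycl
      have h3 := hsemi' (-y) hycl'
      rw [f_neg, h2] at h3
      exact (mul_left_cancel₀ hlam0 h3).symm
    obtain ⟨η, hη, hηd⟩ : ∃ η : ℝ, 0 < η ∧ η < dist (ψ 0) (ψ y) :=
      ⟨dist (ψ 0) (ψ y) / 2, half_pos (dist_pos.2 (Ne.symm hne)), half_lt_self (dist_pos.2 (Ne.symm hne))⟩
    have hWeq : S ∩ ψ ⁻¹' (ball 0 1 ∩ ball (ψ y) η) = S ∩ ψ ⁻¹' ball (ψ y) η := by
      ext x
      constructor
      · rintro ⟨hx, -, hxV⟩
        exact ⟨hx, hxV⟩
      · rintro ⟨hx, hxV⟩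
        exact ⟨hx, hψb.mapsTo hx, hxV⟩
    have hWc : IsPreconnected (S ∩ ψ ⁻¹' ball (ψ y) η) := by
      have h2 := conn_preimage hSo hSc hψd hψb (V := ball 0 1 ∩ ball (ψ y) η)
        ((convex_ball _ _).inter (convex_ball _ _)).isPreconnected inter_subset_left
      rwa [hWeq] at h2
    have hmemW : ∀ x ∈ closure S, ψ x = ψ y → x ∈ closure (S ∩ ψ ⁻¹' ball (ψ y) η) := by
      intro x hx hxy
      have h2 : ∀ᶠ u in 𝓝[closure S] x, ψ u ∈ ball (ψ y) η :=
        (hψ x hx).eventually (isOpen_ball.mem_nhds (hxy ▸ mem_ball_self hη))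
      have h3 : ∀ᶠ u in 𝓝[S] x, ψ u ∈ ball (ψ y) η := h2.filter_mono (nhdsWithin_mono _ subset_closure)
      have hne : (𝓝[S] x).NeBot := mem_closure_iff_nhdsWithin_neBot.1 hx
      rw [mem_closure_iff_frequently]
      have h4 : ∀ᶠ u in 𝓝[S] x, u ∈ S := self_mem_nhdsWithin
      have h5 : ∃ᶠ u in 𝓝[S] x, u ∈ S ∩ ψ ⁻¹' ball (ψ y) η := (h4.and h3).frequently
      exact h5.filter_mono nhdsWithin_le_nhds
    have h0W : (0 : ℂ) ∉ closure (S ∩ ψ ⁻¹' ball (ψ y) η) := by
      intro h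
      have h2 : ψ 0 ∈ closure (ψ '' (S ∩ ψ ⁻¹' ball (ψ y) η)) :=
        ((hψ.mono (closure_mono inter_subset_left)).image_closure) ⟨0, h, rfl⟩
      have h3 : ψ 0 ∈ closedBall (ψ y) η := by
        refine closure_ball_subset_closedBall (closure_mono ?_ h2)
        rintro _ ⟨u, hu, rfl⟩
        exact hu.2
      exact absurd (mem_closedBall.1 h3) (not_le.2 hηd)
    exact no_pair (inter_subset_left.trans hSK) hWc h0W hcJ (hmemW y hycl rfl) (hmemW (-y) hycl' h1)
  refine dec_of_invariant hXcomp hXc hfrJ h0 hfX (hclS.of_isClosed_subset hIcl (fun x hx => hx.1)) hIc hIX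
    (fun y hy hy' => ⟨((hfr y).1 hy).1, hYI y hy hy'⟩) (fun y hy hy' h => ?_) ?_
  · have h1 : ψ (f c y) = ψ 0 := h.2
    rw [hsemi' y ((hfr y).1 hy).1, hYI y hy hy'] at h1
    have h2 : ψ 0 ≠ 0 := fun h3 => by
      have h4 := hnorm 0 h0
      rw [h3, norm_zero] at h4
      norm_num at h4
    exact hlam1 (mul_right_cancel₀ h2 (h1.trans (one_mul _).symm))
  · intro x y hx hy hfx hfy
    have ha' : a ^ 2 + c = a := ha
    have hx' : x ^ 2 + c = x := hfx
    have hy' : y ^ 2 + c = y := hfy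
    have hxa : x ≠ a := fun h => hSJ a haS (h ▸ hx)
    have hya : y ≠ a := fun h => hSJ a haS (h ▸ hy)
    have h1 : (x - a) * (x + a - 1) = 0 := by linear_combination hx' - ha'
    have h2 : (y - a) * (y + a - 1) = 0 := by linear_combination hy' - ha'
    have h3 := (mul_eq_zero.1 h1).resolve_left (sub_ne_zero.2 hxa)
    have h4 := (mul_eq_zero.1 h2).resolve_left (sub_ne_zero.2 hya)
    linear_combination h3 - h4

end

/-- the component of the interior of `K` which contains `a` -/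
def Comp (c a : ℂ) : Set ℂ := connectedComponentIn (interior (K c)) a

theorem isOpen_Comp (c a : ℂ) : IsOpen (Comp c a) := isOpen_interior.connectedComponentIn

theorem Comp_sub (c a : ℂ) : Comp c a ⊆ K c := (connectedComponentIn_subset _ _).trans interior_subset

theorem frontier_Comp_sub (c a : ℂ) : frontier (Comp c a) ⊆ J c := by
  intro x hx
  have hx1 : x ∈ closure (Comp c a) \ Comp c a := by
    have h1 := hx
    rw [frontier, (isOpen_Comp c a).interior_eq] at h1
    exact h1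
  show x ∈ frontier (K c)
  rw [(isClosed_K c).frontier_eq]
  refine ⟨closure_minimal (Comp_sub c a) (isClosed_K c) hx1.1, fun hint => hx1.2 ?_⟩
  have h2 : IsOpen (connectedComponentIn (interior (K c)) x) := isOpen_interior.connectedComponentIn
  obtain ⟨y, hy, hyS⟩ := mem_closure_iff.1 hx1.1 _ h2 (mem_connectedComponentIn hint)
  have h3 : connectedComponentIn (interior (K c)) x = connectedComponentIn (interior (K c)) y :=
    connectedComponentIn_eq hy
  have h4 : connectedComponentIn (interior (K c)) a = connectedComponentIn (interior (K c)) y :=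
    connectedComponentIn_eq hyS
  show x ∈ connectedComponentIn (interior (K c)) a
  rw [h4, ← h3]
  exact mem_connectedComponentIn hint

theorem f_mem_Comp {a : ℂ} (ha : f c a = a) (haK : a ∈ interior (K c)) : ∀ z ∈ Comp c a, f c z ∈ Comp c a := by
  have h1 : IsOpen (f c '' Comp c a) := isOpenMap_f c _ (isOpen_Comp c a)
  have h2 : f c '' Comp c a ⊆ interior (K c) := interior_maximal (by
    rintro _ ⟨z, hz, rfl⟩
    exact f_mem_K_iff.2 (Comp_sub c a hz)) h1
  have h3 : IsPreconnected (f c '' Comp c a) :=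
    isPreconnected_connectedComponentIn.image _ (continuous_f c).continuousOn
  have h4 : a ∈ f c '' Comp c a := ⟨a, mem_connectedComponentIn haK, ha⟩
  have h5 := h3.subset_connectedComponentIn h4 h2
  exact fun z hz => h5 ⟨z, hz, rfl⟩

theorem dec_of_tame' {a lam : ℂ} {ψ : ℂ → ℂ} (ha : f c a = a) (haK : a ∈ interior (K c))
    (h0 : (0 : ℂ) ∈ frontier (Comp c a)) (hψ : ContinuousOn ψ (closure (Comp c a)))
    (hψd : DifferentiableOn ℂ ψ (Comp c a)) (hψb : BijOn ψ (Comp c a) (ball 0 1)) (hlam : ‖lam‖ = 1) (hlam1 : lam ≠ 1)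
    (hsemi : ∀ z ∈ Comp c a, ψ (f c z) = lam * ψ z) : Dec (J c) :=
  dec_of_tame ha (mem_connectedComponentIn haK) (isOpen_Comp c a) isPreconnected_connectedComponentIn (Comp_sub c a)
    (frontier_Comp_sub c a) (f_mem_Comp ha haK) h0 hψ hψd hψb hlam hlam1 hsemi

end Pool.Agent.Helper66.QJ
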