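import Pool.Agent.Helper66.QJ.Imp
import Pool.Agent.Helper66.QJ.Tame
import Pool.Agent.Helper66.QJ.Rad
import Pool.Agent.Helper66.QJ.Comb

/-!
# Decomposable Siegel disk boundaries through the critical point (MP_a03adf_an)

`dec_of_boundary`: if `0` is in the boundary of a Siegel disk and this boundary is decomposable, then the Julia set is
decomposable.
-/

set_option autoImplicit false

open Set Topology Metric Bornology Filter

namespace Pool.Agent.Helper66.QJ

variable {φ : ℂ → ℂ} {c : ℂ}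

/-- the end of a ray with a radial limit -/
theorem end_eq_limit {t : ℝ} {x y : ℂ} (h : Tendsto (fun r : ℝ => φ (r * e t)) (𝓝[<] 1) (𝓝 x))
    (hy : ∀ s, 0 ≤ s → s < 1 → y ∈ closure (φ '' Rad t s)) : y = x := by
  rw [← dist_le_zero]
  refine le_of_forall_pos_lt_add fun ε hε => ?_
  rw [zero_add]
  have h1 : ∀ᶠ r : ℝ in 𝓝[<] (1 : ℝ), dist (φ (r * e t)) x < ε / 2 := (Metric.tendsto_nhds.1 h) _ (half_pos hε)
  obtain ⟨s, hs, hs2⟩ := (mem_nhdsLT_iff_exists_Ioo_subset (a := (1 : ℝ))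
    (s := {r : ℝ | dist (φ (r * e t)) x < ε / 2})).1 h1
  have hs1 : s < 1 := hs
  have h2 := hy (max 0 ((s + 1) / 2)) (le_max_left _ _) (max_lt one_pos (by linarith))
  have h3 : closure (φ '' Rad t (max 0 ((s + 1) / 2))) ⊆ closedBall x (ε / 2) := by
    refine closure_minimal ?_ isClosed_closedBall
    rintro _ ⟨_, ⟨r, hr, rfl⟩, rfl⟩
    have h4 : (s + 1) / 2 ≤ r := (le_max_right _ _).trans hr.1
    have h5 : dist (φ (r * e t)) x < ε / 2 := hs2 ⟨by linarith, hr.2⟩
    exact mem_closedBall.2 h5.le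
  have h6 := mem_closedBall.1 (h3 h2)
  linarith

/-- the boundary of the image of the disk is connected -/
theorem conn_frontier (hd : DifferentiableOn ℂ φ (ball 0 1)) (hi : InjOn φ (ball 0 1)) {B : ℝ}
    (hb : ∀ z ∈ ball (0 : ℂ) 1, ‖φ z‖ ≤ B) : IsPreconnected (frontier (φ '' ball 0 1)) := by
  have hle1 : ∀ n : ℕ, 1 / ((n : ℝ) + 1) ≤ 1 := fun n => by
    rw [div_le_one (by positivity)]
    linarith [n.cast_nonneg (α := ℝ)]
  have hcomp : ∀ n : ℕ, IsCompact (closure (φ '' (ball 0 1 ∩ {w : ℂ | 1 - 1 / ((n : ℝ) + 1) < ‖w‖}))) := fun n => by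
    refine (isCompact_closedBall (0 : ℂ) B).of_isClosed_subset isClosed_closure (closure_minimal ?_ isClosed_closedBall)
    rintro _ ⟨w, hw, rfl⟩
    exact mem_closedBall_zero_iff.2 (hb w hw.1)
  have heq : frontier (φ '' ball 0 1) = ⋂ n : ℕ, closure (φ '' (ball 0 1 ∩ {w : ℂ | 1 - 1 / ((n : ℝ) + 1) < ‖w‖})) := by
    ext x
    constructor
    · intro hx
      rw [← iUnion_Imp hd hi] at hx
      obtain ⟨t, ht⟩ := mem_iUnion.1 hx
      refine mem_iInter.2 fun n => closure_mono (image_mono ?_) (mem_iInter.1 ht n)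
      rintro w ⟨hw, hwt⟩
      refine ⟨hw, ?_⟩
      have h1 : ‖e t‖ ≤ ‖w‖ + ‖e t - w‖ := by
        have h2 := norm_add_le w (e t - w)
        rwa [add_sub_cancel] at h2
      rw [norm_e, ← dist_eq_norm, dist_comm] at h1
      show 1 - 1 / ((n : ℝ) + 1) < ‖w‖
      linarith [mem_ball.1 hwt]
    · intro hx
      have hopen : IsOpen (φ '' ball 0 1) := open_img hd hi isOpen_ball Subset.rfl
      rw [frontier, hopen.interior_eq]
      refine ⟨closure_mono (image_mono inter_subset_left) (mem_iInter.1 hx 0), ?_⟩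
      rintro ⟨w, hw, rfl⟩
      obtain ⟨n, hn⟩ := exists_nat_one_div_lt (sub_pos.2 (mem_ball_zero_iff.1 hw))
      have h1 : φ w ∈ closure (φ '' (ball 0 1 ∩ {w : ℂ | 1 - 1 / ((n : ℝ) + 1) ≤ ‖w‖})) :=
        closure_mono (image_mono (inter_subset_inter_right _ fun v (hv : 1 - 1 / ((n : ℝ) + 1) < ‖v‖) => hv.le))
          (mem_iInter.1 hx n)
      have h2 := closure_img hd hi inter_subset_left (fun v hv hvc => ⟨hv, by
        have h4 : closure (ball (0 : ℂ) 1 ∩ {w : ℂ | 1 - 1 / ((n : ℝ) + 1) ≤ ‖w‖}) ⊆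
            {w : ℂ | 1 - 1 / ((n : ℝ) + 1) ≤ ‖w‖} :=
          closure_minimal inter_subset_right (isClosed_le continuous_const continuous_norm)
        exact h4 hvc⟩) hw h1
      have h3 : 1 - 1 / ((n : ℝ) + 1) ≤ ‖w‖ := h2.2
      linarith
  rw [heq]
  refine iInter_conn hcomp (fun n => ?_) (fun {m n} hmn => ?_)
  · exact ((conn_annulus (by linarith [hle1 n])).image _ (hd.continuousOn.mono inter_subset_left)).closure
  · refine closure_mono (image_mono (inter_subset_inter_right _ fun v hv => ?_))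
    have h1 : 1 / ((n : ℝ) + 1) ≤ 1 / ((m : ℝ) + 1) := Nat.one_div_le_one_div hmn
    have h2 : 1 - 1 / ((n : ℝ) + 1) < ‖v‖ := hv
    show 1 - 1 / ((m : ℝ) + 1) < ‖v‖
    linarith

theorem dec_of_boundary {α : ℝ} (hd : DifferentiableOn ℂ φ (ball 0 1)) (hi : InjOn φ (ball 0 1)) (hα : Irrational α)
    (hsemi : ∀ w ∈ ball (0 : ℂ) 1, f c (φ w) = φ (e α * w)) (hSK : φ '' ball 0 1 ⊆ K c)
    (hfrJ : frontier (φ '' ball 0 1) ⊆ J c) (h0 : (0 : ℂ) ∈ frontier (φ '' ball 0 1))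
    (hdec : Dec (frontier (φ '' ball 0 1))) : Dec (J c) := by
  classical
  have hb : ∀ z ∈ ball (0 : ℂ) 1, ‖φ z‖ ≤ R0 c := fun z hz => norm_le_of_mem_K (hSK ⟨z, hz, rfl⟩)
  have hopen : IsOpen (φ '' ball 0 1) := open_img hd hi isOpen_ball Subset.rfl
  have hXcomp : IsCompact (frontier (φ '' ball 0 1)) := (isCompact_J c).of_isClosed_subset isClosed_frontier hfrJ
  have hXconn : IsPreconnected (frontier (φ '' ball 0 1)) := conn_frontier hd hi hb
  have hU := iUnion_Imp hd hi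
  have hImpX : ∀ t, Imp φ t ⊆ frontier (φ '' ball 0 1) := fun t => hU ▸ subset_iUnion (Imp φ) t
  have hrot : ∀ t, f c '' Imp φ t = Imp φ (t + α) := Imp_rotate (continuous_f c) hb hsemi
  -- a radial limit
  obtain ⟨θ, x0, hx0⟩ := exists_radial hd hi hb
  obtain ⟨t0, ht0⟩ : ∃ t0 : ℝ, Complex.exp (θ * Complex.I) = e t0 := ⟨θ / (2 * Real.pi), by
    rw [e]
    congr 1
    push_cast
    field_simp⟩
  rw [ht0] at hx0
  have horb : ∀ n : ℕ, ∀ m : ℤ, ∃ x, Tendsto (fun r : ℝ => φ (r * e (t0 + n * α + m))) (𝓝[<] 1) (𝓝 x) := by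
    intro n m
    have he : e (t0 + n * α + m) = e (t0 + n * α) := e_eq_iff.2 ⟨m, rfl⟩
    rw [he]
    induction n with
    | zero =>
      refine ⟨x0, ?_⟩
      have h1 : t0 + ((0 : ℕ) : ℝ) * α = t0 := by push_cast; ring
      rw [h1]
      exact hx0
    | succ n ih =>
      obtain ⟨x, hx⟩ := ih (e_eq_iff.2 ⟨m, rfl⟩)
      refine ⟨f c x, ?_⟩
      have h1 : Tendsto (fun r : ℝ => f c (φ (r * e (t0 + n * α)))) (𝓝[<] 1) (𝓝 (f c x)) :=
        ((continuous_f c).tendsto x).comp hx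
      refine h1.congr' ?_
      have h2 : Ioo (0 : ℝ) 1 ∈ 𝓝[<] (1 : ℝ) := Ioo_mem_nhdsLT one_pos
      filter_upwards [h2] with r hr
      rw [hsemi _ (by
        rw [mem_ball_zero_iff, norm_re hr.1.le]
        exact hr.2)]
      congr 1
      have h3 : e (t0 + ((n + 1 : ℕ) : ℝ) * α) = e α * e (t0 + n * α) := by
        rw [← e_add]
        congr 1
        push_cast
        ring
      rw [h3]
      ring
  let P : ℂ → ℂ := fun ζ => if h : ∃ x, Tendsto (fun r : ℝ => φ (r * ζ)) (𝓝[<] 1) (𝓝 x) then h.choose else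
    if h : (⋂ n : ℕ, closure (φ '' (ball 0 1 ∩ ball ζ (1 / ((n : ℝ) + 1))))).Nonempty then h.some else 0
  have hP1 : ∀ t, (∃ x, Tendsto (fun r : ℝ => φ (r * e t)) (𝓝[<] 1) (𝓝 x)) →
      Tendsto (fun r : ℝ => φ (r * e t)) (𝓝[<] 1) (𝓝 (P (e t))) := by
    intro t h
    have h1 : P (e t) = h.choose := dif_pos h
    rw [h1]
    exact h.choose_spec
  have hPI : ∀ t, P (e t) ∈ Imp φ t := by
    intro t
    by_cases h : ∃ x, Tendsto (fun r : ℝ => φ (r * e t)) (𝓝[<] 1) (𝓝 x)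
    · obtain ⟨x, hx, -⟩ := end_point hd hi hb t
      rw [← end_eq_limit (hP1 t h) hx]
      exact end_mem_Imp hx
    · have h2 : (⋂ n : ℕ, closure (φ '' (ball 0 1 ∩ ball (e t) (1 / ((n : ℝ) + 1))))).Nonempty :=
        (isConnected_Imp hd hb t).nonempty
      have h1 : P (e t) = h2.some := (dif_neg h).trans (dif_pos h2)
      rw [h1]
      exact h2.some_mem
  have hPper : ∀ t, P (e (t + 1)) = P (e t) := fun t => by
    rw [show e (t + 1) = e t from e_eq_iff.2 ⟨1, by push_cast; ring⟩]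
  have hAφ : Disjoint (K c)ᶜ (φ '' ball 0 1) := disjoint_left.2 fun x hx h => hx (hSK h)
  have hXA : frontier (φ '' ball 0 1) ⊆ closure (K c)ᶜ := fun x hx => (mem_J_iff.1 (hfrJ hx)).2
  obtain ⟨A1, A2, hA1, hA2, hA1n, hA2n, hA1c, hA1p, hA2c, hA2p, hA⟩ := hdec
  have hdisj : ∀ t d : ℝ, 0 < d → d < 1 → Disjoint (Imp φ t) (Imp φ (t + d)) := by
    intro t d hd0 hd1
    refine disjoint_imp (X := frontier (φ '' ball 0 1)) (I := Imp φ) (F := f c) (α := α) (t0 := t0)
      (p := fun t => P (e t)) hα Imp_period Imp_graph (isConnected_Imp hd hb) hU hXcomp hrot hPI hPper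
      ?_ ?_ hA hA1n hA2n hA1c hA2c hA1p hA2p hd0 hd1
    · intro M hM hMc hMX t1 t2 h12 h21 h1 h2
      exact sep_Imp hd hi hb (isClosed_K c).isOpen_compl (isPreconnected_compl_K c) hAφ hXA hM hMc.isPreconnected hMX h12
        h21 (fun x hx => h1 (end_mem_Imp hx)) (fun x hx => h2 (end_mem_Imp hx))
    · rintro M hM hMc hMX t1 t2 h12 h21 ⟨n1, m1, ht1⟩ ⟨n2, m2, ht2⟩ h1 h2
      have hr1 := hP1 t1 (ht1 ▸ horb n1 m1)
      have hr2 := hP1 t2 (ht2 ▸ horb n2 m2)
      exact sep_Imp hd hi hb (isClosed_K c).isOpen_compl (isPreconnected_compl_K c) hAφ hXA hM hMc.isPreconnected hMX h12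
        h21 (fun x hx => by rw [end_eq_limit hr1 hx]; exact h1) (fun x hx => by rw [end_eq_limit hr2 hx]; exact h2)
  have hImp_e : ∀ s t : ℝ, e s = e t → Imp φ s = Imp φ t := fun s t h => by rw [Imp, Imp, h]
  have hdisj' : ∀ s t : ℝ, (∀ m : ℤ, s ≠ t + m) → Disjoint (Imp φ s) (Imp φ t) := by
    intro s t hst
    have h1 : 0 < Int.fract (s - t) := by
      rcases (Int.fract_nonneg (s - t)).lt_or_eq with h | h
      · exact h
      · exfalso
        have h2 := Int.self_sub_floor (s - t)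
        rw [← h] at h2
        exact hst ⌊s - t⌋ (by linarith)
    have h3 := hdisj t (Int.fract (s - t)) h1 (Int.fract_lt_one _)
    have h4 : Imp φ s = Imp φ (t + Int.fract (s - t)) := hImp_e _ _ (e_eq_iff.2 ⟨⌊s - t⌋, by
      have h2 := Int.self_sub_floor (s - t)
      linarith⟩)
    rw [h4]
    exact h3.symm
  have hXof : ∀ y ∈ frontier (φ '' ball 0 1), ∃ t, y ∈ Imp φ t := fun y hy => by
    rw [← hU] at hy
    exact mem_iUnion.1 hy
  have hfImp : ∀ {t : ℝ} {y : ℂ}, y ∈ Imp φ t → f c y ∈ Imp φ (t + α) := fun {t y} hy => hrot t ▸ ⟨y, hy, rfl⟩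
  obtain ⟨τ, hτ⟩ := hXof 0 h0
  have hcJ : c ∈ J c := c_mem_J (hfrJ h0)
  have hYI : ∀ y ∈ frontier (φ '' ball 0 1), -y ∈ frontier (φ '' ball 0 1) → y ∈ Imp φ τ := by
    intro y hy hy'
    obtain ⟨s, hs⟩ := hXof y hy
    obtain ⟨s', hs'⟩ := hXof _ hy'
    by_cases hsτ : ∃ m : ℤ, s = τ + m
    · rw [← hImp_e s τ (e_eq_iff.2 hsτ)]
      exact hs
    · push Not at hsτ
      exfalso
      have hss : Imp φ s' = Imp φ s := by
        by_contra hne
        have h1 : ∀ m : ℤ, s' + α ≠ s + α + m := fun m hm => hne (hImp_e _ _ (e_eq_iff.2 ⟨m, by linarith⟩))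
        have h2 := hfImp hs'
        rw [f_neg] at h2
        exact disjoint_left.1 (hdisj' _ _ h1) h2 (hfImp hs)
      rw [hss] at hs'
      have h0s : (0 : ℂ) ∉ Imp φ s := fun h => disjoint_left.1 (hdisj' s τ hsτ) h hτ
      obtain ⟨n, hn⟩ : ∃ n : ℕ, (0 : ℂ) ∉ closure (φ '' (ball 0 1 ∩ ball (e s) (1 / ((n : ℝ) + 1)))) := by
        by_contra hcon
        push Not at hcon
        exact h0s (mem_iInter.2 hcon)
      refine no_pair ((image_mono inter_subset_left).trans hSK) ?_ hn hcJ (mem_iInter.1 hs n) (mem_iInter.1 hs' n)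
      refine IsPreconnected.image ?_ _ (hd.continuousOn.mono inter_subset_left)
      exact ((convex_ball _ _).inter (convex_ball _ _)).isPreconnected
  have hfX : f c '' frontier (φ '' ball 0 1) = frontier (φ '' ball 0 1) := by
    rw [← hU, image_iUnion]
    apply Subset.antisymm
    · refine iUnion_subset fun t => ?_
      rw [hrot]
      exact subset_iUnion (Imp φ) (t + α)
    · refine iUnion_subset fun t => ?_
      have h1 := hrot (t - α)
      rw [sub_add_cancel] at h1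
      rw [← h1]
      exact subset_iUnion (fun t => f c '' Imp φ t) (t - α)
  have h00 : (0 : ℂ) ∈ ball (0 : ℂ) 1 := mem_ball_self one_pos
  have ha : f c (φ 0) = φ 0 := by
    rw [hsemi 0 h00, mul_zero]
  have haJ : φ 0 ∉ J c := fun h => by
    have h1 : φ 0 ∈ K c \ interior (K c) := by
      rw [← (isClosed_K c).frontier_eq]
      exact h
    exact h1.2 (interior_maximal hSK hopen ⟨0, h00, rfl⟩)
  refine dec_of_invariant hXcomp hXconn hfrJ h0 hfX (isCompact_Imp hb τ) (isConnected_Imp hd hb τ).isPreconnected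
    (hImpX τ) hYI (fun y hy hy' h => ?_) ?_
  · have h1 := hfImp (hYI y hy hy')
    refine disjoint_left.1 (hdisj' (τ + α) τ fun m hm => ?_) h1 h
    exact hα.ne_int m (by linarith)
  · intro x y hx hy hfx hfy
    have ha' : (φ 0) ^ 2 + c = φ 0 := ha
    have hx' : x ^ 2 + c = x := hfx
    have hy' : y ^ 2 + c = y := hfy
    have hxa : x ≠ φ 0 := fun h => haJ (h ▸ hx)
    have hya : y ≠ φ 0 := fun h => haJ (h ▸ hy)
    have h1 : (x - φ 0) * (x + φ 0 - 1) = 0 := by linear_combination hx' - ha'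
    have h2 : (y - φ 0) * (y + φ 0 - 1) = 0 := by linear_combination hy' - ha'
    have h3 := (mul_eq_zero.1 h1).resolve_left (sub_ne_zero.2 hxa)
    have h4 := (mul_eq_zero.1 h2).resolve_left (sub_ne_zero.2 hya)
    linear_combination h3 - h4

end Pool.Agent.Helper66.QJ
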