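import Pool.Agent.Helper66.QJ.Plane
import Pool.Agent.Helper39.Injective

/-!
# A separation lemma for rays in a simply connected domain (MP_a03adf_an)

`φ` is holomorphic and injective on the unit disk, `M` is a continuum outside its image. Two rays which end in `M`, together
with `M`, separate the two sectors of the image.
-/

set_option autoImplicit false

open Set Topology Metric Bornology Filter

namespace Pool.Agent.Helper66.QJ

/-- square roots of `(z - a) / (z - b)` outside a connected set containing `a` and `b` -/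
theorem sqrt_ratio {T Q : Set ℂ} (hT : IsClosed T) (hTc : IsPreconnected T) {a b : ℂ} (ha : a ∈ T) (hb : b ∈ T)
    (hQ : IsCompact Q) (hd : Disjoint Q T) : ∃ r : ℂ → ℂ, ContinuousOn r Q ∧ ∀ z ∈ Q, r z ^ 2 = (z - a) / (z - b) := by
  have h2 : (2 : ℕ) ≠ 0 := by norm_num
  obtain ⟨δ, hδ, hδ2⟩ := Metric.exists_pos_forall_lt_edist hQ hT hd
  have hδ3 : ∀ z ∈ Q, ∀ b ∈ T, (δ : ℝ) < ‖z - b‖ := by
    intro z hz b hb
    have := hδ2 z hz b hb
    rw [edist_dist, dist_eq_norm, ← ENNReal.ofReal_coe_nnreal] at this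
    exact (ENNReal.ofReal_lt_ofReal_iff_of_nonneg δ.2).1 this
  have hne : ∀ z ∈ Q, ∀ b ∈ T, z - b ≠ 0 := fun z hz b hb => norm_pos_iff.1 (δ.2.trans_lt (hδ3 z hz b hb))
  refine hTc.induction₂' (fun x y => ∃ r : ℂ → ℂ, ContinuousOn r Q ∧ ∀ z ∈ Q, r z ^ 2 = (z - x) / (z - y)) ?_ ?_ ha hb
  · intro x hx
    have key2 : ∀ x ∈ T, ∀ y ∈ T, ‖x - y‖ < δ → ∃ r : ℂ → ℂ, ContinuousOn r Q ∧
        ∀ z ∈ Q, r z ^ 2 = (z - x) / (z - y) := by
      intro x hx y hy hxy
      refine ⟨fun z => ((z - x) / (z - y)) ^ (((2 : ℕ) : ℂ)⁻¹), ?_, fun z _ => Complex.cpow_nat_inv_pow _ h2⟩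
      refine ContinuousOn.cpow ?_ continuousOn_const fun z hz => ?_
      · exact ((continuousOn_id.sub continuousOn_const).div (continuousOn_id.sub continuousOn_const)
          fun z hz => hne z hz y hy)
      · have h3 : (z - x) / (z - y) = 1 + (y - x) / (z - y) := by
          field_simp [hne z hz y hy]
          ring
        rw [h3]
        apply Complex.mem_slitPlane_of_norm_lt_one
        rw [norm_div, div_lt_one (norm_pos_iff.2 (hne z hz y hy)), norm_sub_rev]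
        exact hxy.trans (hδ3 z hz y hy)
    have h4 : ∀ᶠ y in 𝓝[T] x, ‖x - y‖ < δ ∧ y ∈ T := by
      refine Filter.Eventually.and ?_ self_mem_nhdsWithin
      have h5 : Filter.Tendsto (fun y => ‖x - y‖) (𝓝[T] x) (𝓝 0) := by
        have h6 : Continuous fun y : ℂ => ‖x - y‖ := by fun_prop
        have h7 := h6.tendsto x
        simp only [sub_self, norm_zero] at h7
        exact h7.mono_left nhdsWithin_le_nhds
      exact h5.eventually (gt_mem_nhds (by exact_mod_cast hδ))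
    filter_upwards [h4] with y hy
    exact ⟨key2 x hx y hy.2 hy.1, key2 y hy.2 x hx (by rw [norm_sub_rev]; exact hy.1)⟩
  · rintro x y z hx hy hz ⟨r1, hr1, hr1'⟩ ⟨r2, hr2, hr2'⟩
    refine ⟨fun w => r1 w * r2 w, hr1.mul hr2, fun w hw => ?_⟩
    rw [mul_pow, hr1' w hw, hr2' w hw]
    have h3 := hne w hw y hy
    have h4 := hne w hw z hz
    field_simp

/-- square roots on a closed disk -/
theorem sqrt_disc {F : ℂ → ℂ} {ρ : ℝ} (hρ : 0 < ρ) (hF : ContinuousOn F (closedBall 0 ρ))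
    (hne : ∀ z ∈ closedBall (0 : ℂ) ρ, F z ≠ 0) :
    ∃ g : ℂ → ℂ, ContinuousOn g (closedBall 0 ρ) ∧ ∀ z ∈ closedBall (0 : ℂ) ρ, g z ^ 2 = F z := by
  let P : ℂ → ℂ := fun z => ((ρ / max ρ ‖z‖ : ℝ) : ℂ) * z
  have hmax : ∀ z : ℂ, 0 < max ρ ‖z‖ := fun z => hρ.trans_le (le_max_left _ _)
  have hP : Continuous P := by
    refine Continuous.mul (Complex.continuous_ofReal.comp ?_) continuous_id
    exact continuous_const.div (continuous_const.max continuous_norm) fun z => (hmax z).ne'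
  have hPb : ∀ z, P z ∈ closedBall (0 : ℂ) ρ := by
    intro z
    rw [mem_closedBall_zero_iff]
    show ‖((ρ / max ρ ‖z‖ : ℝ) : ℂ) * z‖ ≤ ρ
    rw [norm_mul, Complex.norm_real, Real.norm_of_nonneg (div_nonneg hρ.le (hmax z).le), div_mul_eq_mul_div,
      div_le_iff₀ (hmax z)]
    exact mul_le_mul_of_nonneg_left (le_max_right _ _) hρ.le
  have hPid : ∀ z ∈ closedBall (0 : ℂ) ρ, P z = z := by
    intro z hz
    show ((ρ / max ρ ‖z‖ : ℝ) : ℂ) * z = z
    rw [max_eq_left (mem_closedBall_zero_iff.1 hz), div_self hρ.ne', Complex.ofReal_one, one_mul]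
  have hFP : Continuous fun z => F (P z) := hF.comp_continuous hP hPb
  let U : C(ℂ, {z : ℂ // z ≠ 0}) := ⟨fun z => ⟨F (P z), hne _ (hPb z)⟩, hFP.subtype_mk _⟩
  obtain ⟨e0, he0⟩ : ∃ e : ℂ, Complex.exp e = F (P 0) := ⟨Complex.log (F (P 0)), Complex.exp_log (hne _ (hPb 0))⟩
  obtain ⟨G, ⟨-, hG⟩, -⟩ := Complex.isCoveringMap_exp.existsUnique_continuousMap_lifts U 0 e0 (Subtype.ext he0)
  have hG' : ∀ z, Complex.exp (G z) = F (P z) := fun z => congrArg Subtype.val (congrFun hG z)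
  refine ⟨fun z => Complex.exp (G z / 2), ?_, fun z hz => ?_⟩
  · exact (Complex.continuous_exp.comp (G.continuous.div_const 2)).continuousOn
  · rw [← Complex.exp_nat_mul]
    have h1 : ((2 : ℕ) : ℂ) * (G z / 2) = G z := by
      push_cast
      ring
    rw [h1, hG' z, hPid z hz]

/-- there is no square root of the identity on a circle -/
theorem no_sqrt_id {ρ : ℝ} (hρ : 0 < ρ) {k : ℂ → ℂ} (hk : ContinuousOn k (sphere 0 ρ)) :
    ¬ ∀ z ∈ sphere (0 : ℂ) ρ, k z ^ 2 = z := by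
  intro h
  have hmem : ∀ θ : ℝ, (ρ : ℂ) * Complex.exp (θ * Complex.I) ∈ sphere (0 : ℂ) ρ := by
    intro θ
    rw [mem_sphere_zero_iff_norm, norm_mul, Complex.norm_exp_ofReal_mul_I, mul_one, Complex.norm_real,
      Real.norm_of_nonneg hρ.le]
  obtain ⟨s, hs⟩ : ∃ s : ℂ, s ^ 2 = ρ := IsAlgClosed.exists_pow_nat_eq (ρ : ℂ) (n := 2) (by norm_num)
  have hs0 : s ≠ 0 := by
    rintro rfl
    have h1 : (ρ : ℂ) = 0 := by
      rw [← hs]
      ring
    exact hρ.ne' (Complex.ofReal_eq_zero.1 h1)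
  have hcont : Continuous fun θ : ℝ => k ((ρ : ℂ) * Complex.exp (θ * Complex.I)) :=
    hk.comp_continuous (by fun_prop) hmem
  have h1 := (isPreconnected_univ (α := ℝ)).eq_or_eq_neg_of_sq_eq
    (f := fun θ : ℝ => k ((ρ : ℂ) * Complex.exp (θ * Complex.I)))
    (g := fun θ : ℝ => s * Complex.exp (θ / 2 * Complex.I)) hcont.continuousOn (by fun_prop) (fun θ _ => by
      show k ((ρ : ℂ) * Complex.exp (θ * Complex.I)) ^ 2 = (s * Complex.exp (θ / 2 * Complex.I)) ^ 2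
      rw [h _ (hmem θ), mul_pow, hs, ← Complex.exp_nat_mul]
      congr 2
      push_cast
      ring) (fun {θ} _ => mul_ne_zero hs0 (Complex.exp_ne_zero _))
  have hper : (ρ : ℂ) * Complex.exp (((2 * Real.pi : ℝ) : ℂ) * Complex.I) = (ρ : ℂ) * Complex.exp (((0 : ℝ) : ℂ) * Complex.I) := by
    rw [Complex.ofReal_zero, zero_mul, Complex.exp_zero]
    push_cast
    rw [Complex.exp_two_pi_mul_I]
  have hhalf : Complex.exp (((2 * Real.pi : ℝ) : ℂ) / 2 * Complex.I) = -1 := by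
    push_cast
    rw [show (2 * (Real.pi : ℂ)) / 2 * Complex.I = Real.pi * Complex.I by ring, Complex.exp_pi_mul_I]
  have hzero : Complex.exp (((0 : ℝ) : ℂ) / 2 * Complex.I) = 1 := by
    rw [Complex.ofReal_zero, zero_div, zero_mul, Complex.exp_zero]
  rcases h1 with h1 | h1
  · have h2 := h1 (mem_univ (0 : ℝ))
    have h3 := h1 (mem_univ (2 * Real.pi))
    simp only at h2 h3
    rw [hper, h2, hhalf, hzero] at h3
    have h4 : s = 0 := by linear_combination h3 / 2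
    exact hs0 h4
  · have h2 := h1 (mem_univ (0 : ℝ))
    have h3 := h1 (mem_univ (2 * Real.pi))
    simp only [Pi.neg_apply] at h2 h3
    rw [hper, h2, hhalf, hzero] at h3
    have h4 : s = 0 := by linear_combination -h3 / 2
    exact hs0 h4

/-- there is no square root of `(w - w') / (w - w'')` on a circle which separates `w'` and `w''` -/
theorem no_sqrt_ratio {ρ : ℝ} (hρ : 0 < ρ) {w' w'' : ℂ} (h' : ‖w'‖ < ρ) (h'' : ρ < ‖w''‖) {k : ℂ → ℂ}
    (hk : ContinuousOn k (sphere 0 ρ)) : ¬ ∀ w ∈ sphere (0 : ℂ) ρ, k w ^ 2 = (w - w') / (w - w'') := by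
  intro h
  have h2 : (2 : ℕ) ≠ 0 := by norm_num
  have hne'' : ∀ w ∈ closedBall (0 : ℂ) ρ, w - w'' ≠ 0 := fun w hw h0 => by
    rw [sub_eq_zero.1 h0] at hw
    exact absurd (mem_closedBall_zero_iff.1 hw) (not_le.2 h'')
  obtain ⟨a, ha, ha2⟩ := sqrt_disc (F := fun w => w - w'') hρ (by fun_prop) hne''
  have hw0 : ∀ w ∈ sphere (0 : ℂ) ρ, w ≠ 0 := fun w hw h0 => by
    rw [h0, mem_sphere_zero_iff_norm, norm_zero] at hw
    exact hρ.ne hw
  have hslit : ∀ w ∈ sphere (0 : ℂ) ρ, 1 + -w' / w ∈ Complex.slitPlane := fun w hw => by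
    apply Complex.mem_slitPlane_of_norm_lt_one
    rw [norm_div, norm_neg, mem_sphere_zero_iff_norm.1 hw, div_lt_one hρ]
    exact h'
  let b : ℂ → ℂ := fun w => (1 + -w' / w) ^ (((2 : ℕ) : ℂ)⁻¹)
  have hb : ContinuousOn b (sphere 0 ρ) := by
    refine ContinuousOn.cpow ?_ continuousOn_const hslit
    exact continuousOn_const.add (continuousOn_const.div continuousOn_id hw0)
  have hb2 : ∀ w, b w ^ 2 = 1 + -w' / w := fun w => Complex.cpow_nat_inv_pow _ h2
  have hb0 : ∀ w ∈ sphere (0 : ℂ) ρ, b w ≠ 0 := fun w hw h0 => by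
    have h1 := hb2 w
    rw [h0] at h1
    exact Complex.slitPlane_ne_zero (hslit w hw) (by rw [← h1]; ring)
  refine no_sqrt_id hρ (k := fun w => k w * a w / b w) ((hk.mul (ha.mono sphere_subset_closedBall)).div hb hb0) ?_
  intro w hw
  rw [div_pow, mul_pow, h w hw, ha2 w (sphere_subset_closedBall hw), hb2 w,
    div_mul_cancel₀ _ (hne'' w (sphere_subset_closedBall hw))]
  have h3 := hw0 w hw
  have h4 := Complex.slitPlane_ne_zero (hslit w hw)
  rw [div_eq_iff h4]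
  field_simp
  ring

theorem sep_core {φ : ℂ → ℂ} (hd : DifferentiableOn ℂ φ (ball 0 1)) (hi : InjOn φ (ball 0 1)) {ρ : ℝ} (hρ0 : 0 < ρ)
    (hρ1 : ρ < 1) {w' w'' : ℂ} (hw' : ‖w'‖ < ρ) (hw'' : ρ < ‖w''‖) (hw1 : ‖w''‖ < 1) {κ1 κ2 γ T1 T2 : Set ℂ}
    (hκ : κ1 ∪ κ2 = sphere 0 ρ) (hκ1 : IsCompact κ1) (hκ2 : IsCompact κ2) (hγ : IsCompact γ) (hγc : IsPreconnected γ)
    (hγκ : ∀ w ∈ κ1, w ∈ κ2 → φ w ∈ γ) (hT1 : IsClosed T1) (hT1c : IsPreconnected T1) (hT2 : IsClosed T2)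
    (hT2c : IsPreconnected T2) (h1' : φ w' ∈ T1) (h1'' : φ w'' ∈ T1) (h2' : φ w' ∈ T2) (h2'' : φ w'' ∈ T2)
    (hd1 : Disjoint (γ ∪ φ '' κ1) T1) (hd2 : Disjoint (γ ∪ φ '' κ2) T2) : False := by
  have hcb : closedBall (0 : ℂ) ρ ⊆ ball 0 1 := closedBall_subset_ball hρ1
  have hsb : sphere (0 : ℂ) ρ ⊆ ball 0 1 := sphere_subset_closedBall.trans hcb
  have hφc : ContinuousOn φ (ball 0 1) := hd.continuousOn
  have hκ1s : κ1 ⊆ sphere 0 ρ := hκ ▸ subset_union_left
  have hκ2s : κ2 ⊆ sphere 0 ρ := hκ ▸ subset_union_right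
  have hw'b : w' ∈ ball (0 : ℂ) 1 := mem_ball_zero_iff.2 (hw'.trans hρ1)
  have hw''b : w'' ∈ ball (0 : ℂ) 1 := mem_ball_zero_iff.2 hw1
  have hs' : ∀ w ∈ sphere (0 : ℂ) ρ, w ≠ w' := fun w hw h => by
    rw [h, mem_sphere_zero_iff_norm] at hw
    exact hw'.ne hw
  have hs'' : ∀ w ∈ sphere (0 : ℂ) ρ, w ≠ w'' := fun w hw h => by
    rw [h, mem_sphere_zero_iff_norm] at hw
    exact hw''.ne hw.symm
  -- the difference quotients
  have hds : ∀ a ∈ ball (0 : ℂ) 1, ∀ w ∈ closedBall (0 : ℂ) ρ, dslope φ a w ≠ 0 := by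
    intro a ha w hw
    rcases eq_or_ne w a with rfl | hne
    · rw [dslope_same]
      exact Helper39.deriv_ne_zero_of_injOn isOpen_ball hd hi ha
    · rw [dslope_of_ne _ hne, slope_def_field]
      exact div_ne_zero (sub_ne_zero.2 fun h => hne (hi (hcb hw) ha h)) (sub_ne_zero.2 hne)
  have hdc : ∀ a ∈ ball (0 : ℂ) 1, ContinuousOn (dslope φ a) (closedBall 0 ρ) := by
    intro a ha
    have h1 : ContinuousOn (dslope φ a) (ball 0 1) :=
      (continuousOn_dslope (isOpen_ball.mem_nhds ha)).2 ⟨hφc, hd.differentiableAt (isOpen_ball.mem_nhds ha)⟩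
    exact h1.mono hcb
  obtain ⟨g', hg', hg'2⟩ := sqrt_disc hρ0 (hdc w' hw'b) (hds w' hw'b)
  obtain ⟨g'', hg'', hg''2⟩ := sqrt_disc hρ0 (hdc w'' hw''b) (hds w'' hw''b)
  have hg0' : ∀ w ∈ sphere (0 : ℂ) ρ, g' w ≠ 0 := fun w hw h => by
    have h1 := hg'2 w (sphere_subset_closedBall hw)
    rw [h] at h1
    exact hds w' hw'b w (sphere_subset_closedBall hw) (by rw [← h1]; ring)
  have hg0'' : ∀ w ∈ sphere (0 : ℂ) ρ, g'' w ≠ 0 := fun w hw h => by
    have h1 := hg''2 w (sphere_subset_closedBall hw)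
    rw [h] at h1
    exact hds w'' hw''b w (sphere_subset_closedBall hw) (by rw [← h1]; ring)
  -- the two square roots
  have hQ1 : IsCompact (γ ∪ φ '' κ1) := hγ.union (hκ1.image_of_continuousOn (hφc.mono (hκ1s.trans hsb)))
  have hQ2 : IsCompact (γ ∪ φ '' κ2) := hγ.union (hκ2.image_of_continuousOn (hφc.mono (hκ2s.trans hsb)))
  obtain ⟨r1, hr1, hr12⟩ := sqrt_ratio hT1 hT1c h1' h1'' hQ1 hd1
  obtain ⟨r2, hr2, hr22⟩ := sqrt_ratio hT2 hT2c h2' h2'' hQ2 hd2
  have hsign : ∃ ε : ℂ, ε ^ 2 = 1 ∧ ∀ z ∈ γ, r1 z = ε * r2 z := by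
    have h1 := hγc.eq_or_eq_neg_of_sq_eq (f := r1) (g := r2) (hr1.mono subset_union_left) (hr2.mono subset_union_left)
      (fun z hz => by
        show r1 z ^ 2 = r2 z ^ 2
        rw [hr12 z (Or.inl hz), hr22 z (Or.inl hz)])
      (fun {z} hz h0 => by
        have h2 := hr22 z (Or.inl hz)
        rw [h0] at h2
        have h3 : (z - φ w') / (z - φ w'') = 0 := by
          rw [← h2]
          ring
        rcases div_eq_zero_iff.1 h3 with h4 | h4
        · exact disjoint_left.1 hd1 (Or.inl hz) (by rw [sub_eq_zero.1 h4]; exact h1')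
        · exact disjoint_left.1 hd1 (Or.inl hz) (by rw [sub_eq_zero.1 h4]; exact h1''))
    rcases h1 with h1 | h1
    · exact ⟨1, by norm_num, fun z hz => by rw [one_mul]; exact h1 hz⟩
    · exact ⟨-1, by norm_num, fun z hz => by
        have h2 := h1 hz
        simp only [Pi.neg_apply] at h2
        rw [h2]
        ring⟩
  obtain ⟨ε, hε, hεγ⟩ := hsign
  classical
  let k : ℂ → ℂ := fun w => (if w ∈ κ1 then r1 (φ w) else ε * r2 (φ w)) / (g' w / g'' w)
  have hk1 : ∀ w ∈ κ1, k w = r1 (φ w) / (g' w / g'' w) := fun w hw => by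
    show (if w ∈ κ1 then r1 (φ w) else ε * r2 (φ w)) / (g' w / g'' w) = _
    rw [if_pos hw]
  have hk2 : ∀ w ∈ κ2, k w = ε * r2 (φ w) / (g' w / g'' w) := fun w hw => by
    show (if w ∈ κ1 then r1 (φ w) else ε * r2 (φ w)) / (g' w / g'' w) = _
    by_cases h : w ∈ κ1
    · rw [if_pos h, hεγ _ (hγκ w h hw)]
    · rw [if_neg h]
  have hgq : ContinuousOn (fun w => g' w / g'' w) (sphere 0 ρ) :=
    (hg'.mono sphere_subset_closedBall).div (hg''.mono sphere_subset_closedBall) hg0''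
  have hgq0 : ∀ w ∈ sphere (0 : ℂ) ρ, g' w / g'' w ≠ 0 := fun w hw => div_ne_zero (hg0' w hw) (hg0'' w hw)
  have hkc : ContinuousOn k (sphere 0 ρ) := by
    rw [← hκ]
    refine ContinuousOn.union_of_isClosed ?_ ?_ hκ1.isClosed hκ2.isClosed
    · refine ContinuousOn.congr ?_ hk1
      exact (hr1.comp (hφc.mono (hκ1s.trans hsb)) fun w hw => Or.inr ⟨w, hw, rfl⟩).div (hgq.mono hκ1s)
        fun w hw => hgq0 w (hκ1s hw)
    · refine ContinuousOn.congr ?_ hk2
      exact (continuousOn_const.mul (hr2.comp (hφc.mono (hκ2s.trans hsb)) fun w hw => Or.inr ⟨w, hw, rfl⟩)).div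
        (hgq.mono hκ2s) fun w hw => hgq0 w (hκ2s hw)
  refine no_sqrt_ratio hρ0 hw' hw'' hkc fun w hw => ?_
  have hwb : w ∈ ball (0 : ℂ) 1 := hsb hw
  have hq : (g' w / g'' w) ^ 2 = ((φ w - φ w') / (w - w')) / ((φ w - φ w'') / (w - w'')) := by
    rw [div_pow, hg'2 w (sphere_subset_closedBall hw), hg''2 w (sphere_subset_closedBall hw),
      dslope_of_ne _ (hs' w hw), dslope_of_ne _ (hs'' w hw), slope_def_field, slope_def_field]
  have hk : k w ^ 2 = (φ w - φ w') / (φ w - φ w'') / (g' w / g'' w) ^ 2 := by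
    have hw2 : w ∈ κ1 ∪ κ2 := hκ.symm ▸ hw
    rcases hw2 with h | h
    · rw [hk1 w h, div_pow, hr12 _ (Or.inr ⟨w, h, rfl⟩)]
    · rw [hk2 w h, div_pow, mul_pow, hε, one_mul, hr22 _ (Or.inr ⟨w, h, rfl⟩)]
  have h3 : φ w - φ w' ≠ 0 := sub_ne_zero.2 fun h => hs' w hw (hi hwb hw'b h)
  have h4 : φ w - φ w'' ≠ 0 := sub_ne_zero.2 fun h => hs'' w hw (hi hwb hw''b h)
  have h5 : w - w' ≠ 0 := sub_ne_zero.2 (hs' w hw)
  have h6 : w - w'' ≠ 0 := sub_ne_zero.2 (hs'' w hw)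
  rw [hk, hq]
  field_simp

end Pool.Agent.Helper66.QJ
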