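import Pool.Agent.Helper66.QJ.Sep

/-!
# Rays and impressions of the image of the unit disk (MP_a03adf_an)
-/

set_option autoImplicit false

open Set Topology Metric Bornology Filter

namespace Pool.Agent.Helper66.QJ

/-- the point of the unit circle with parameter `t` -/
noncomputable def e (t : ℝ) : ℂ := Complex.exp (2 * Real.pi * t * Complex.I)

theorem norm_e (t : ℝ) : ‖e t‖ = 1 := by
  rw [e, show (2 * (Real.pi : ℂ) * t * Complex.I) = ((2 * Real.pi * t : ℝ) : ℂ) * Complex.I by push_cast; ring,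
    Complex.norm_exp_ofReal_mul_I]

theorem e_ne_zero (t : ℝ) : e t ≠ 0 := Complex.exp_ne_zero _

theorem continuous_e : Continuous e := by
  unfold e
  fun_prop

theorem e_add (s t : ℝ) : e (s + t) = e s * e t := by
  rw [e, e, e, ← Complex.exp_add]
  congr 1
  push_cast
  ring

theorem e_int (m : ℤ) : e m = 1 := by
  rw [e, Complex.exp_eq_one_iff]
  exact ⟨m, by push_cast; ring⟩

theorem e_eq_iff {s t : ℝ} : e s = e t ↔ ∃ m : ℤ, s = t + m := by
  constructor
  · intro h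
    rw [e, e, Complex.exp_eq_exp_iff_exists_int] at h
    obtain ⟨m, hm⟩ := h
    refine ⟨m, ?_⟩
    have h1 : (2 * (Real.pi : ℂ) * Complex.I) * ((s : ℂ) - (t + m)) = 0 := by linear_combination hm
    have h2 : (2 * (Real.pi : ℂ) * Complex.I) ≠ 0 := Complex.two_pi_I_ne_zero
    have h3 := (mul_eq_zero.1 h1).resolve_left h2
    have h4 : ((s - (t + m) : ℝ) : ℂ) = 0 := by
      push_cast
      exact h3
    linarith [Complex.ofReal_eq_zero.1 h4]
  · rintro ⟨m, rfl⟩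
    rw [e_add, e_int, mul_one]

theorem re_eq_iff {r r' s t : ℝ} (hr : 0 < r) (hr' : 0 < r') : (r : ℂ) * e s = r' * e t ↔ r = r' ∧ ∃ m : ℤ, s = t + m := by
  constructor
  · intro h
    have h1 : r = r' := by
      have h2 := congrArg norm h
      rwa [norm_mul, norm_mul, norm_e, norm_e, mul_one, mul_one, Complex.norm_real, Complex.norm_real,
        Real.norm_of_nonneg hr.le, Real.norm_of_nonneg hr'.le] at h2
    refine ⟨h1, e_eq_iff.1 ?_⟩
    rw [h1] at h
    exact mul_left_cancel₀ (Complex.ofReal_ne_zero.2 hr'.ne') h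
  · rintro ⟨rfl, h⟩
    rw [e_eq_iff.2 h]

theorem norm_re {r : ℝ} (hr : 0 ≤ r) (s : ℝ) : ‖(r : ℂ) * e s‖ = r := by
  rw [norm_mul, norm_e, mul_one, Complex.norm_real, Real.norm_of_nonneg hr]

/-- the open sector between the rays with parameters `a` and `b` -/
def Sec (a b : ℝ) : Set ℂ := (fun p : ℝ × ℝ => (p.1 : ℂ) * e p.2) '' (Ioo 0 1 ×ˢ Ioo a b)

/-- the part of the radius with parameter `t` at distance `≥ s` from the centre -/
def Rad (t s : ℝ) : Set ℂ := (fun r : ℝ => (r : ℂ) * e t) '' Ico s 1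

theorem Sec_sub (a b : ℝ) : Sec a b ⊆ ball 0 1 := by
  rintro _ ⟨⟨r, s⟩, ⟨hr, -⟩, rfl⟩
  rw [mem_ball_zero_iff]
  show ‖(r : ℂ) * e s‖ < 1
  rw [norm_re hr.1.le]
  exact hr.2

theorem Rad_sub {t s : ℝ} (hs : 0 ≤ s) : Rad t s ⊆ ball 0 1 := by
  rintro _ ⟨r, hr, rfl⟩
  rw [mem_ball_zero_iff]
  show ‖(r : ℂ) * e t‖ < 1
  rw [norm_re (hs.trans hr.1)]
  exact hr.2

/-- near the boundary point with parameter `s` the disk is contained in the sectors around it -/
theorem near_Sec {a b s : ℝ} (h1 : a < s) (h2 : s < b) : ∃ δ : ℝ, 0 < δ ∧ ∀ w ∈ ball (0 : ℂ) 1, dist w (e s) < δ →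
    w ∈ Sec a b := by
  have hcont : ContinuousAt (fun w : ℂ => s + Complex.arg (w * e (-s)) / (2 * Real.pi)) (e s) := by
    have hes : e s * e (-s) = 1 := by
      rw [← e_add, add_neg_cancel]
      have := e_int 0
      rwa [Int.cast_zero] at this
    refine continuousAt_const.add (ContinuousAt.div_const ?_ _)
    have h3 : ContinuousAt Complex.arg (e s * e (-s)) := by
      rw [hes]
      exact Complex.continuousAt_arg Complex.one_mem_slitPlane
    exact ContinuousAt.comp (f := fun w : ℂ => w * e (-s)) (g := Complex.arg) h3 (by fun_prop)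
  have hval : s + Complex.arg (e s * e (-s)) / (2 * Real.pi) = s := by
    have hes : e s * e (-s) = 1 := by
      rw [← e_add, add_neg_cancel]
      have := e_int 0
      rwa [Int.cast_zero] at this
    rw [hes, Complex.arg_one, zero_div, add_zero]
  have hev : ∀ᶠ w in 𝓝 (e s), s + Complex.arg (w * e (-s)) / (2 * Real.pi) ∈ Ioo a b := by
    refine hcont.eventually (isOpen_Ioo.mem_nhds ?_)
    show s + Complex.arg (e s * e (-s)) / (2 * Real.pi) ∈ Ioo a b
    rw [hval]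
    exact ⟨h1, h2⟩
  have hne : ∀ᶠ w in 𝓝 (e s), w ≠ 0 := isOpen_ne.mem_nhds (e_ne_zero s)
  obtain ⟨δ, hδ, hδ2⟩ := Metric.eventually_nhds_iff.1 (hev.and hne)
  refine ⟨δ, hδ, fun w hw hwd => ?_⟩
  obtain ⟨h3, h4⟩ := hδ2 hwd
  refine ⟨(‖w‖, s + Complex.arg (w * e (-s)) / (2 * Real.pi)), ⟨⟨norm_pos_iff.2 h4, mem_ball_zero_iff.1 hw⟩, h3⟩, ?_⟩
  show (‖w‖ : ℂ) * e (s + Complex.arg (w * e (-s)) / (2 * Real.pi)) = w
  have h5 : e (Complex.arg (w * e (-s)) / (2 * Real.pi)) = Complex.exp (Complex.arg (w * e (-s)) * Complex.I) := by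
    rw [e]
    congr 1
    push_cast
    field_simp
  have h6 : (‖w‖ : ℂ) * Complex.exp (Complex.arg (w * e (-s)) * Complex.I) = w * e (-s) := by
    have h7 := Complex.norm_mul_exp_arg_mul_I (w * e (-s))
    rwa [norm_mul, norm_e, mul_one] at h7
  rw [e_add, h5, mul_left_comm, h6, mul_left_comm, ← e_add, add_neg_cancel]
  have h8 := e_int 0
  rw [Int.cast_zero] at h8
  rw [h8, mul_one]

variable {φ : ℂ → ℂ}

theorem open_img (hd : DifferentiableOn ℂ φ (ball 0 1)) (hi : InjOn φ (ball 0 1)) {U : Set ℂ} (hU : IsOpen U)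
    (hUb : U ⊆ ball 0 1) : IsOpen (φ '' U) := by
  have han : AnalyticOnNhd ℂ φ (ball 0 1) := hd.analyticOnNhd isOpen_ball
  rcases han.is_constant_or_isOpen (convex_ball _ _).isPreconnected with ⟨w, hw⟩ | h
  · exfalso
    have h0 : (0 : ℂ) ∈ ball (0 : ℂ) 1 := mem_ball_self one_pos
    have h1 : (1 / 2 : ℂ) ∈ ball (0 : ℂ) 1 := by
      rw [mem_ball_zero_iff]
      norm_num
    have h2 := hi h0 h1 ((hw _ h0).trans (hw _ h1).symm)
    norm_num at h2
  · exact h U hUb hU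

/-- the image of a relatively closed subset of the disk is relatively closed in the image -/
theorem closure_img (hd : DifferentiableOn ℂ φ (ball 0 1)) (hi : InjOn φ (ball 0 1)) {B : Set ℂ} (hB : B ⊆ ball 0 1)
    (hBc : ∀ w ∈ ball (0 : ℂ) 1, w ∈ closure B → w ∈ B) {w : ℂ} (hw : w ∈ ball (0 : ℂ) 1)
    (h : φ w ∈ closure (φ '' B)) : w ∈ B := by
  by_contra hcon
  have hwc : w ∉ closure B := fun hc => hcon (hBc w hw hc)
  have hU : IsOpen (ball (0 : ℂ) 1 ∩ (closure B)ᶜ) := isOpen_ball.inter isClosed_closure.isOpen_compl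
  have h1 := open_img hd hi hU inter_subset_left
  obtain ⟨y, ⟨u, ⟨hu, huB⟩, huy⟩, v, hv, hvy⟩ := mem_closure_iff.1 h _ h1 ⟨w, ⟨hw, hwc⟩, rfl⟩
  have h2 : u = v := hi hu (hB hv) (huy.trans hvy.symm)
  exact huB (h2 ▸ subset_closure hv)

theorem Rad_closed {t s : ℝ} (hs : 0 ≤ s) : ∀ w ∈ ball (0 : ℂ) 1, w ∈ closure (Rad t s) → w ∈ Rad t s := by
  intro w hw hwc
  have h1 : IsClosed ((fun r : ℝ => (r : ℂ) * e t) '' Icc s 1) :=
    (isCompact_Icc.image (by fun_prop)).isClosed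
  have h2 : closure (Rad t s) ⊆ (fun r : ℝ => (r : ℂ) * e t) '' Icc s 1 :=
    closure_minimal (image_mono Ico_subset_Icc_self) h1
  obtain ⟨r, hr, rfl⟩ := h2 hwc
  refine ⟨r, ⟨hr.1, hr.2.lt_of_ne fun h => ?_⟩, rfl⟩
  rw [mem_ball_zero_iff] at hw
  simp only at hw
  rw [norm_re (hs.trans hr.1), h] at hw
  exact lt_irrefl _ hw

/-- the end of a ray -/
theorem end_point (hd : DifferentiableOn ℂ φ (ball 0 1)) (hi : InjOn φ (ball 0 1)) {M : ℝ}
    (hb : ∀ z ∈ ball (0 : ℂ) 1, ‖φ z‖ ≤ M) (t : ℝ) :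
    ∃ x, (∀ s, 0 ≤ s → s < 1 → x ∈ closure (φ '' Rad t s)) ∧ x ∉ φ '' ball 0 1 := by
  obtain ⟨x, hx⟩ : (⋂ n : ℕ, closure (φ '' Rad t (1 - 1 / ((n : ℝ) + 1)))).Nonempty := by
    have hle1 : ∀ n : ℕ, 1 / ((n : ℝ) + 1) ≤ 1 := fun n => by
      rw [div_le_one (by positivity)]
      linarith [n.cast_nonneg (α := ℝ)]
    have hpos : ∀ n : ℕ, 0 < 1 / ((n : ℝ) + 1) := fun n => Nat.one_div_pos_of_nat
    have hcomp : ∀ n : ℕ, IsCompact (closure (φ '' Rad t (1 - 1 / ((n : ℝ) + 1)))) := fun n => by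
      refine (isCompact_closedBall (0 : ℂ) M).of_isClosed_subset isClosed_closure (closure_minimal ?_ isClosed_closedBall)
      rintro _ ⟨w, hw, rfl⟩
      exact mem_closedBall_zero_iff.2 (hb w (Rad_sub (by linarith [hle1 n]) hw))
    refine IsCompact.nonempty_iInter_of_sequence_nonempty_isCompact_isClosed _ (fun n => ?_) (fun n => ?_) (hcomp 0)
      (fun n => isClosed_closure)
    · refine closure_mono (image_mono (image_mono (Ico_subset_Ico_left ?_)))
      have h1 : 1 / (((n + 1 : ℕ) : ℝ) + 1) ≤ 1 / ((n : ℝ) + 1) := Nat.one_div_le_one_div (Nat.le_succ n)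
      linarith
    · refine Set.Nonempty.closure ⟨_, ⟨_, ⟨1 - 1 / ((n : ℝ) + 1), ⟨le_rfl, by linarith [hpos n]⟩, rfl⟩, rfl⟩⟩
  have hall : ∀ s, 0 ≤ s → s < 1 → x ∈ closure (φ '' Rad t s) := by
    intro s hs hs1
    obtain ⟨n, hn⟩ := exists_nat_one_div_lt (sub_pos.2 hs1)
    refine closure_mono (image_mono (image_mono (Ico_subset_Ico_left ?_))) (mem_iInter.1 hx n)
    linarith
  refine ⟨x, hall, ?_⟩
  rintro ⟨w, hw, rfl⟩
  obtain ⟨s, hs1, hs2⟩ := exists_between (mem_ball_zero_iff.1 hw)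
  have hs0 : 0 ≤ s := (norm_nonneg w).trans hs1.le
  obtain ⟨r, hr, hrw⟩ := closure_img hd hi (Rad_sub hs0) (Rad_closed hs0) hw (hall s hs0 hs2)
  have h1 : ‖w‖ = r := by
    rw [← hrw]
    exact norm_re (hs0.trans hr.1) t
  linarith [hr.1]

end Pool.Agent.Helper66.QJ
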