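import Pool.Agent.Helper66.QJ.Sep2

/-!
# The separation lemma (MP_a03adf_an)

`sep_main`: two rays of the image of the disk which end in a continuum `M` outside the image, together with `M`, separate
the two sectors between them.
-/

set_option autoImplicit false

open Set Topology Metric Bornology Filter

namespace Pool.Agent.Helper66.QJ

variable {φ : ℂ → ℂ}

theorem pathConn_Sec (hd : DifferentiableOn ℂ φ (ball 0 1)) {a b : ℝ} (hab : a < b) : IsPathConnected (φ '' Sec a b) := by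
  have h1 : IsPathConnected (Ioo (0 : ℝ) 1 ×ˢ Ioo a b) :=
    ((convex_Ioo _ _).prod (convex_Ioo _ _)).isPathConnected
      ⟨(1 / 2, (a + b) / 2), ⟨by norm_num, ⟨by simp only; linarith, by simp only; linarith⟩⟩⟩
  have h2 : Continuous fun p : ℝ × ℝ => (p.1 : ℂ) * e p.2 := by
    have := continuous_e
    fun_prop
  have h3 : IsPathConnected (Sec a b) := h1.image' h2.continuousOn
  exact h3.image' (hd.continuousOn.mono (Sec_sub a b))

theorem Sec_disj_Rad {a b t : ℝ} (h : ∀ s ∈ Ioo a b, ∀ m : ℤ, s ≠ t + m) {w : ℂ} (hw : w ∈ Sec a b) : w ∉ Rad t 0 := by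
  rintro ⟨r, hr, hrw⟩
  obtain ⟨⟨r', s⟩, ⟨hr', hs⟩, rfl⟩ := hw
  simp only at hrw hr' hs
  have hr0 : 0 < r := by
    rcases hr.1.lt_or_eq with h1 | h1
    · exact h1
    · exfalso
      rw [← h1] at hrw
      have h2 := congrArg norm hrw
      rw [norm_re le_rfl, norm_re hr'.1.le] at h2
      exact hr'.1.ne h2
  obtain ⟨-, m, hm⟩ := (re_eq_iff hr0 hr'.1).1 hrw
  exact h s hs (-m) (by push_cast; linarith)

theorem sep_main (hd : DifferentiableOn ℂ φ (ball 0 1)) (hi : InjOn φ (ball 0 1)) {B : ℝ}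
    (hb : ∀ z ∈ ball (0 : ℂ) 1, ‖φ z‖ ≤ B) {M : Set ℂ} (hM : IsCompact M) (hMc : IsPreconnected M)
    (hMφ : Disjoint M (φ '' ball 0 1)) {t1 t2 : ℝ} (h12 : t1 < t2) (h21 : t2 < t1 + 1)
    (hR1 : closure (φ '' Rad t1 0) ⊆ φ '' Rad t1 0 ∪ M) (hR2 : closure (φ '' Rad t2 0) ⊆ φ '' Rad t2 0 ∪ M)
    {Z : Set ℂ} (hZ : IsPathConnected Z) (hZd : Disjoint Z (M ∪ (φ '' Rad t1 0 ∪ φ '' Rad t2 0))) {w1 w2 : ℂ}
    (hw1 : w1 ∈ Sec t1 t2) (hw2 : w2 ∈ Sec t2 (t1 + 1)) (h1 : φ w1 ∈ Z) (h2 : φ w2 ∈ Z) : False := by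
  obtain ⟨ε, hε, hε1, hε2⟩ : ∃ ε : ℝ, 0 < ε ∧ t1 + ε < t2 ∧ t2 < t1 + 1 - ε := by
    have h3 : 0 < t2 - t1 := sub_pos.2 h12
    have h4 : 0 < t1 + 1 - t2 := sub_pos.2 h21
    refine ⟨min (t2 - t1) (t1 + 1 - t2) / 2, by positivity, ?_, ?_⟩
    · linarith [min_le_left (t2 - t1) (t1 + 1 - t2), lt_min h3 h4]
    · linarith [min_le_right (t2 - t1) (t1 + 1 - t2), lt_min h3 h4]
  have hφc : ContinuousOn φ (ball 0 1) := hd.continuousOn
  have hnoint : ∀ x : ℝ, 0 < x → x < 1 → ∀ m : ℤ, x ≠ m := by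
    intro x hx0 hx1 m hm
    rw [hm] at hx0 hx1
    have h3 : 0 < m := by exact_mod_cast hx0
    have h4 : m < 1 := by exact_mod_cast hx1
    omega
  have hnoint' : ∀ x : ℝ, -1 < x → x < 0 → ∀ m : ℤ, x ≠ m := by
    intro x hx0 hx1 m hm
    exact hnoint (x + 1) (by linarith) (by linarith) (m + 1) (by push_cast; linarith)
  -- the path
  let G : Set ℂ := M ∪ (φ '' Rad t1 0 ∪ φ '' Rad t2 0)
  have hSecG : ∀ {a b : ℝ}, (∀ s ∈ Ioo a b, ∀ m : ℤ, s ≠ t1 + m) → (∀ s ∈ Ioo a b, ∀ m : ℤ, s ≠ t2 + m) →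
      φ '' Sec a b ⊆ Gᶜ := by
    rintro a b ha hb' _ ⟨w, hw, rfl⟩ (hG | ⟨u, hu, huw⟩ | ⟨u, hu, huw⟩)
    · exact disjoint_left.1 hMφ hG ⟨w, Sec_sub a b hw, rfl⟩
    · have h3 : u = w := hi (Rad_sub le_rfl hu) (Sec_sub a b hw) huw
      exact Sec_disj_Rad ha hw (h3 ▸ hu)
    · have h3 : u = w := hi (Rad_sub le_rfl hu) (Sec_sub a b hw) huw
      exact Sec_disj_Rad hb' hw (h3 ▸ hu)
  have hS1 : φ '' Sec t1 t2 ⊆ Gᶜ := hSecG
    (fun s hs m h => hnoint (s - t1) (by linarith [hs.1]) (by linarith [hs.2]) m (by linarith))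
    (fun s hs m h => hnoint' (s - t2) (by linarith [hs.1]) (by linarith [hs.2]) m (by linarith))
  have hS2 : φ '' Sec t2 (t1 + 1) ⊆ Gᶜ := hSecG
    (fun s hs m h => hnoint (s - t1) (by linarith [hs.1]) (by linarith [hs.2]) m (by linarith))
    (fun s hs m h => hnoint (s - t2) (by linarith [hs.1]) (by linarith [hs.2]) m (by linarith))
  have hp1 : ((1 / 2 : ℝ) : ℂ) * e (t1 + ε) ∈ Sec t1 t2 := ⟨(1 / 2, t1 + ε), ⟨by norm_num, by simp only; constructor <;> linarith⟩, rfl⟩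
  have hp2 : ((1 / 2 : ℝ) : ℂ) * e (t1 + 1 - ε) ∈ Sec t2 (t1 + 1) :=
    ⟨(1 / 2, t1 + 1 - ε), ⟨by norm_num, by simp only; constructor <;> linarith⟩, rfl⟩
  have hj1 : JoinedIn Gᶜ (φ (((1 / 2 : ℝ) : ℂ) * e (t1 + ε))) (φ w1) :=
    ((pathConn_Sec hd h12).joinedIn _ ⟨_, hp1, rfl⟩ _ ⟨_, hw1, rfl⟩).mono hS1
  have hj2 : JoinedIn Gᶜ (φ w1) (φ w2) := (hZ.joinedIn _ h1 _ h2).mono hZd.subset_compl_right
  have hj3 : JoinedIn Gᶜ (φ w2) (φ (((1 / 2 : ℝ) : ℂ) * e (t1 + 1 - ε))) :=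
    ((pathConn_Sec hd h21).joinedIn _ ⟨_, hw2, rfl⟩ _ ⟨_, hp2, rfl⟩).mono hS2
  obtain ⟨γ, hγ⟩ := (hj1.trans hj2).trans hj3
  have hγG : ∀ z ∈ range γ, z ∉ G := by
    rintro _ ⟨t, rfl⟩
    exact hγ t
  have hγc : IsCompact (range γ) := isCompact_range γ.continuous
  have hγp : IsPreconnected (range γ) := isPreconnected_range γ.continuous
  have hγ0 : φ (((1 / 2 : ℝ) : ℂ) * e (t1 + ε)) ∈ range γ := ⟨0, γ.source⟩
  have hγ1 : φ (((1 / 2 : ℝ) : ℂ) * e (t1 + 1 - ε)) ∈ range γ := ⟨1, γ.target⟩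
  -- the pieces
  have hce : Continuous fun s : ℝ => ((1 / 2 : ℝ) : ℂ) * e s := continuous_const.mul continuous_e
  have hcr : Continuous fun r : ℝ => (r : ℂ) * e t1 := by fun_prop
  have hsub34 : Rad t1 (3 / 4) ⊆ Rad t1 0 := image_mono (Ico_subset_Ico_left (by norm_num))
  have hseg1 : (fun r : ℝ => (r : ℂ) * e t1) '' Icc 0 (1 / 4) ⊆ Rad t1 0 :=
    image_mono fun r hr => ⟨hr.1, by linarith [hr.2]⟩
  have hseg2 : (fun r : ℝ => (r : ℂ) * e t1) '' Icc (1 / 4) (3 / 4) ⊆ Rad t1 0 :=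
    image_mono fun r hr => ⟨by linarith [hr.1], by linarith [hr.2]⟩
  have hT1G : φ '' ((fun r : ℝ => (r : ℂ) * e t1) '' Icc 0 (1 / 4)) ∪ (closure (φ '' Rad t2 0) ∪ (M ∪
      closure (φ '' Rad t1 (3 / 4)))) ⊆ G := by
    refine union_subset ?_ (union_subset ?_ (union_subset (fun z hz => Or.inl hz) ?_))
    · exact fun z hz => Or.inr (Or.inl (image_mono hseg1 hz))
    · intro z hz
      rcases hR2 hz with h3 | h3
      · exact Or.inr (Or.inr h3)
      · exact Or.inl h3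
    · intro z hz
      rcases hR1 (closure_mono (image_mono hsub34) hz) with h3 | h3
      · exact Or.inr (Or.inl h3)
      · exact Or.inl h3
  have hcircle : ∀ s : ℝ, ((1 / 2 : ℝ) : ℂ) * e s ∈ ball (0 : ℂ) 1 := fun s => by
    rw [mem_ball_zero_iff, norm_re (by norm_num)]
    norm_num
  obtain ⟨x2, hx2, hx2φ⟩ := end_point hd hi hb t2
  obtain ⟨x1, hx1, hx1φ⟩ := end_point hd hi hb t1
  have hx2M : x2 ∈ M := by
    rcases hR2 (hx2 0 le_rfl one_pos) with h3 | h3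
    · exact absurd (image_mono (Rad_sub le_rfl) h3) hx2φ
    · exact h3
  have hx1M : x1 ∈ M := by
    rcases hR1 (closure_mono (image_mono hsub34) (hx1 (3 / 4) (by norm_num) (by norm_num))) with h3 | h3
    · exact absurd (image_mono (Rad_sub le_rfl) h3) hx1φ
    · exact h3
  have hRadpre : ∀ {t s : ℝ}, 0 ≤ s → IsPreconnected (closure (φ '' Rad t s)) := fun {t s} hs =>
    ((isPreconnected_Ico.image _ (by fun_prop)).image _ (hφc.mono (Rad_sub hs))).closure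
  have hT1c : IsPreconnected (φ '' ((fun r : ℝ => (r : ℂ) * e t1) '' Icc 0 (1 / 4)) ∪ (closure (φ '' Rad t2 0) ∪ (M ∪
      closure (φ '' Rad t1 (3 / 4))))) := by
    have h0mem : φ 0 ∈ φ '' ((fun r : ℝ => (r : ℂ) * e t1) '' Icc 0 (1 / 4)) :=
      ⟨0, ⟨0, ⟨le_rfl, by norm_num⟩, by simp⟩, rfl⟩
    have h0mem2 : φ 0 ∈ closure (φ '' Rad t2 0) := subset_closure ⟨0, ⟨0, ⟨le_rfl, by norm_num⟩, by simp⟩, rfl⟩
    refine IsPreconnected.union (φ 0) h0mem (Or.inl h0mem2) ?_ ?_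
    · exact (isPreconnected_Icc.image _ hcr.continuousOn).image _ (hφc.mono (hseg1.trans (Rad_sub le_rfl)))
    · refine IsPreconnected.union x2 (hx2 0 le_rfl one_pos) (Or.inl hx2M) (hRadpre le_rfl) ?_
      exact IsPreconnected.union x1 hx1M (hx1 (3 / 4) (by norm_num) (by norm_num)) hMc (hRadpre (by norm_num))
  refine sep_core hd hi (ρ := 1 / 2) (by norm_num) (by norm_num) (w' := ((1 / 4 : ℝ) : ℂ) * e t1)
    (w'' := ((3 / 4 : ℝ) : ℂ) * e t1) ?_ ?_ ?_ (κ1 := (fun s : ℝ => ((1 / 2 : ℝ) : ℂ) * e s) '' Icc (t1 - ε) (t1 + ε))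
    (κ2 := (fun s : ℝ => ((1 / 2 : ℝ) : ℂ) * e s) '' Icc (t1 + ε) (t1 + 1 - ε)) (γ := range γ)
    (T1 := φ '' ((fun r : ℝ => (r : ℂ) * e t1) '' Icc 0 (1 / 4)) ∪ (closure (φ '' Rad t2 0) ∪ (M ∪
      closure (φ '' Rad t1 (3 / 4)))))
    (T2 := φ '' ((fun r : ℝ => (r : ℂ) * e t1) '' Icc (1 / 4) (3 / 4))) ?_ (isCompact_Icc.image hce)
    (isCompact_Icc.image hce) hγc hγp ?_ ?_ hT1c ?_ ?_ ?_ ?_ ?_ ?_ ?_ ?_
  · rw [norm_re (by norm_num)]
    norm_num
  · rw [norm_re (by norm_num)]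
    norm_num
  · rw [norm_re (by norm_num)]
    norm_num
  · -- the circle
    rw [← image_union]
    ext w
    rw [mem_sphere_zero_iff_norm]
    constructor
    · rintro ⟨s, -, rfl⟩
      exact norm_re (by norm_num) s
    · intro hw
      obtain ⟨s0, hs0⟩ : ∃ s0 : ℝ, w = ((1 / 2 : ℝ) : ℂ) * e s0 := by
        refine ⟨Complex.arg w / (2 * Real.pi), ?_⟩
        have h3 := Complex.norm_mul_exp_arg_mul_I w
        rw [hw] at h3
        have h4 : e (Complex.arg w / (2 * Real.pi)) = Complex.exp (Complex.arg w * Complex.I) := by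
          rw [e]
          congr 1
          push_cast
          field_simp
        rw [h4]
        exact h3.symm
      have hfl := Int.floor_le (s0 - (t1 - ε))
      have hfl2 := Int.lt_floor_add_one (s0 - (t1 - ε))
      refine ⟨s0 - ⌊s0 - (t1 - ε)⌋, ?_, ?_⟩
      · rcases le_total (s0 - ⌊s0 - (t1 - ε)⌋) (t1 + ε) with h3 | h3
        · exact Or.inl ⟨by linarith, h3⟩
        · exact Or.inr ⟨h3, by linarith⟩
      · show ((1 / 2 : ℝ) : ℂ) * e (s0 - ⌊s0 - (t1 - ε)⌋) = w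
        rw [hs0, e_eq_iff.2 ⟨-⌊s0 - (t1 - ε)⌋, by push_cast; ring⟩]
  · -- the common points
    rintro w ⟨s, hs, rfl⟩ ⟨s', hs', hss⟩
    simp only at hss ⊢
    obtain ⟨-, m, hm⟩ := (re_eq_iff (by norm_num) (by norm_num)).1 hss
    -- s' = s + m
    have h3 : (0 : ℝ) ≤ m := by linarith [hs.2, hs'.1]
    have h4 : (m : ℝ) ≤ 1 := by linarith [hs.1, hs'.2]
    have h5 : 0 ≤ m := by exact_mod_cast h3
    have h6 : m ≤ 1 := by exact_mod_cast h4
    rcases (show m = 0 ∨ m = 1 by omega) with h7 | h7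
    · rw [h7] at hm
      have h8 : s = t1 + ε := by
        push_cast at hm
        linarith [hs.2, hs'.1]
      rw [h8]
      exact hγ0
    · rw [h7] at hm
      have h8 : s' = t1 + 1 - ε := by
        push_cast at hm
        linarith [hs.1, hs'.2]
      rw [← hss, h8]
      exact hγ1
  · refine IsClosed.union ?_ (isClosed_closure.union (hM.isClosed.union isClosed_closure))
    exact ((isCompact_Icc.image hcr).image_of_continuousOn (hφc.mono (hseg1.trans (Rad_sub le_rfl)))).isClosed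
  · exact ((isCompact_Icc.image hcr).image_of_continuousOn (hφc.mono (hseg2.trans (Rad_sub le_rfl)))).isClosed
  · exact (isPreconnected_Icc.image _ hcr.continuousOn).image _ (hφc.mono (hseg2.trans (Rad_sub le_rfl)))
  · exact Or.inl ⟨_, ⟨1 / 4, ⟨by norm_num, le_rfl⟩, rfl⟩, rfl⟩
  · exact Or.inr (Or.inr (Or.inr (subset_closure ⟨_, ⟨3 / 4, ⟨le_rfl, by norm_num⟩, rfl⟩, rfl⟩)))
  · exact ⟨_, ⟨1 / 4, ⟨le_rfl, by norm_num⟩, rfl⟩, rfl⟩
  · exact ⟨_, ⟨3 / 4, ⟨by norm_num, le_rfl⟩, rfl⟩, rfl⟩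
  · -- disjointness from `T1`
    rw [disjoint_left]
    rintro z (hz | ⟨u, ⟨s, hs, rfl⟩, rfl⟩) hzT
    · exact hγG z hz (hT1G hzT)
    · simp only at hzT
      rcases hzT with ⟨v, ⟨r, hr, rfl⟩, hrv⟩ | hzT | hzT | hzT
      · simp only at hrv
        have h3 := hi (Rad_sub le_rfl (hseg1 ⟨r, hr, rfl⟩)) (hcircle s) hrv
        simp only at h3
        have h4 := congrArg norm h3
        rw [norm_re hr.1, norm_re (by norm_num)] at h4
        linarith [hr.2]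
      · obtain ⟨r, hr, hrv⟩ := closure_img hd hi (Rad_sub le_rfl) (Rad_closed le_rfl) (hcircle s) hzT
        simp only at hrv
        have h4 := congrArg norm hrv
        rw [norm_re hr.1, norm_re (by norm_num)] at h4
        obtain ⟨-, m, hm⟩ := (re_eq_iff (by rw [h4]; norm_num) (by norm_num)).1 hrv
        exact hnoint (t2 - s) (by linarith [hs.2]) (by linarith [hs.1]) m (by linarith)
      · exact disjoint_left.1 hMφ hzT ⟨_, hcircle s, rfl⟩
      · obtain ⟨r, hr, hrv⟩ := closure_img hd hi (Rad_sub (by norm_num)) (Rad_closed (by norm_num)) (hcircle s) hzT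
        simp only at hrv
        have h4 := congrArg norm hrv
        rw [norm_re (by linarith [hr.1]), norm_re (by norm_num)] at h4
        linarith [hr.1]
  · rw [disjoint_left]
    rintro z (hz | ⟨u, ⟨s, hs, rfl⟩, rfl⟩) hzT
    · exact hγG z hz (Or.inr (Or.inl (image_mono hseg2 hzT)))
    · obtain ⟨v, ⟨r, hr, rfl⟩, hrv⟩ := hzT
      simp only at hrv
      have h3 := hi (Rad_sub le_rfl (hseg2 ⟨r, hr, rfl⟩)) (hcircle s) hrv
      simp only at h3
      obtain ⟨-, m, hm⟩ := (re_eq_iff (by linarith [hr.1]) (by norm_num)).1 h3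
      exact hnoint (s - t1) (by linarith [hs.1]) (by linarith [hs.2]) (-m) (by push_cast; linarith)

end Pool.Agent.Helper66.QJ
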