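import Pool.Agent.Helper66.QJ.Tame

set_option autoImplicit false

/-!
# Quadratic Julia sets with a tame Siegel disk whose boundary contains the critical point

Let `S` be the component of the interior of the filled Julia set of `f z = z ^ 2 + c` around a fixed point `a`. Suppose `S`
is a Siegel disk: a conformal map from `S` onto the unit disk conjugates `f` on `S` to a rotation. If this map extends
continuously to the closure of `S` (by a theorem of Rogers this is the case if the boundary of `S` is decomposable) and the
critical point `0` is in the boundary of `S`, then the Julia set is decomposable.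
-/

open Set

namespace Pool.Agent.Helper66.QJ.TameResult

/-- the points with bounded orbit under `z ^ 2 + c` -/
def Filled (c : ℂ) : Set ℂ :=
  {z : ℂ | Bornology.IsBounded (Set.range (fun n : ℕ => (fun w : ℂ => w ^ 2 + c)^[n] z))}

/-- the Julia set of `z ^ 2 + c` -/
def Julia (c : ℂ) : Set ℂ := frontier (Filled c)

/-- the component of the interior of the filled Julia set which contains `a` -/
def Comp (c a : ℂ) : Set ℂ := connectedComponentIn (interior (Filled c)) a

/-- `J` is the union of two proper subcontinua -/
def Decomposable (J : Set ℂ) : Prop :=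
  ∃ A B : Set ℂ, A ⊆ J ∧ B ⊆ J ∧ A ≠ J ∧ B ≠ J ∧
    IsCompact A ∧ IsConnected A ∧ IsCompact B ∧ IsConnected B ∧ A ∪ B = J

theorem result (c a lam : ℂ) (ψ : ℂ → ℂ) (ha : a ^ 2 + c = a) (haK : a ∈ interior (Filled c))
    (hlam : ‖lam‖ = 1) (hlam1 : lam ≠ 1) (hψd : DifferentiableOn ℂ ψ (Comp c a))
    (hψb : BijOn ψ (Comp c a) (Metric.ball 0 1)) (hsemi : ∀ z ∈ Comp c a, ψ (z ^ 2 + c) = lam * ψ z)
    (hψ : ContinuousOn ψ (closure (Comp c a))) (h0 : (0 : ℂ) ∈ frontier (Comp c a)) : Decomposable (Julia c) :=
  Pool.Agent.Helper66.QJ.dec_of_tame' (c := c) ha haK h0 hψ hψd hψb hlam hlam1 hsemi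

end Pool.Agent.Helper66.QJ.TameResult
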